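import Mathlib

open MeasureTheory Set Filter Topology
open scoped Real ENNReal NNReal ContDiff

namespace Pool.Agent.H63.Star

/-- smooth truncation -/
lemma exists_chi {η : ℝ} (hη : 0 < η) : ∃ χ : ℝ → ℝ, ContDiff ℝ ∞ χ ∧ (∀ t ≤ η, χ t = 0) ∧
    (∀ t, 0 ≤ deriv χ t) ∧ (∀ t, deriv χ t ≤ 1) ∧ (∀ t, t - 2 * η ≤ χ t) ∧ (∀ t, 0 ≤ χ t) ∧ (∀ t, 0 ≤ t → χ t ≤ t) := by
  set g : ℝ → ℝ := fun s => Real.smoothTransition ((s - η) / η) with hg
  have hgc : ContDiff ℝ ∞ g := by
    have : ContDiff ℝ ∞ Real.smoothTransition := Real.smoothTransition.contDiff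
    exact this.comp (by fun_prop)
  have hgcont : Continuous g := hgc.continuous
  have g0 : ∀ s, 0 ≤ g s := fun s => Real.smoothTransition.nonneg _
  have g1 : ∀ s, g s ≤ 1 := fun s => Real.smoothTransition.le_one _
  have gz : ∀ s ≤ η, g s = 0 := fun s hs => Real.smoothTransition.zero_of_nonpos (div_nonpos_of_nonpos_of_nonneg (by linarith) hη.le)
  have go : ∀ s, 2 * η ≤ s → g s = 1 := fun s hs => Real.smoothTransition.one_of_one_le (by rw [le_div_iff₀ hη]; linarith)
  set χ : ℝ → ℝ := fun t => ∫ s in (0:ℝ)..t, g s with hχ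
  have hder : ∀ t, HasDerivAt χ (g t) t := fun t =>
    intervalIntegral.integral_hasDerivAt_right (hgcont.intervalIntegrable _ _) hgcont.stronglyMeasurable.stronglyMeasurableAtFilter hgcont.continuousAt
  have hd : deriv χ = g := funext fun t => (hder t).deriv
  have hint : ∀ a b, IntervalIntegrable g volume a b := fun a b => hgcont.intervalIntegrable _ _
  have hnn : ∀ t, 0 ≤ χ t := by
    intro t
    rcases le_total 0 t with h | h
    · exact intervalIntegral.integral_nonneg h (fun s _ => g0 s)
    · have : χ t = 0 := by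
        rw [hχ]; simp only
        rw [intervalIntegral.integral_symm]
        have : ∫ s in t..0, g s = ∫ s in t..0, (0:ℝ) := by
          apply intervalIntegral.integral_congr
          intro s hs
          rw [uIcc_of_le h] at hs
          exact gz s (by linarith [hs.2])
        rw [this]; simp
      rw [this]
  refine ⟨χ, ?_, ?_, ?_, ?_, ?_, hnn, ?_⟩
  · rw [contDiff_infty_iff_deriv, hd]
    exact ⟨fun t => (hder t).differentiableAt, hgc⟩
  · intro t ht
    rw [hχ]; simp only
    have : ∫ s in (0:ℝ)..t, g s = ∫ s in (0:ℝ)..t, (0:ℝ) := by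
      apply intervalIntegral.integral_congr
      intro s hs
      apply gz s
      rcases mem_uIcc.1 hs with h | h
      · linarith [h.2]
      · linarith [h.2]
    rw [this]; simp
  · intro t; rw [hd]; exact g0 t
  · intro t; rw [hd]; exact g1 t
  · intro t
    by_cases ht : t ≤ 2 * η
    · have := hnn t; linarith
    · push Not at ht
      have : χ t = χ (2 * η) + ∫ s in (2 * η)..t, g s := by
        rw [hχ]; simp only
        rw [intervalIntegral.integral_add_adjacent_intervals (hint _ _) (hint _ _)]
      have h2 : ∫ s in (2 * η)..t, g s = ∫ s in (2 * η)..t, (1:ℝ) := by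
        apply intervalIntegral.integral_congr
        intro s hs
        rw [uIcc_of_le ht.le] at hs
        exact go s hs.1
      rw [this, h2]
      have := hnn (2 * η)
      simp
      linarith
  · intro t ht
    have h2 : χ t ≤ ∫ s in (0:ℝ)..t, (1:ℝ) :=
      intervalIntegral.integral_mono_on ht (hint _ _) (by simp) (fun s _ => g1 s)
    simpa using h2

/-- almost optimal test function on an interval -/
lemma oneD_test {a b : ℝ} (hab : a < b) {ε : ℝ} (hε : 0 < ε) :
    ∃ F : ℝ → ℝ, ContDiff ℝ ∞ F ∧ HasCompactSupport F ∧ tsupport F ⊆ Ioo a b ∧ 0 < ∫ x, F x ^ 2 ∧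
      ∫ x, deriv F x ^ 2 ≤ ((π / (b - a)) ^ 2 + ε) * ∫ x, F x ^ 2 := by
  have hpi := Real.pi_pos
  set L := b - a with hL
  have hL0 : 0 < L := by rw [hL]; linarith
  set lam := (π / L) ^ 2 with hlam
  have hlam0 : 0 < lam := by positivity
  -- choose η
  obtain ⟨η, hη0, hη1, hη2⟩ : ∃ η : ℝ, 0 < η ∧ 8 * η < 1 ∧ lam ≤ (lam + ε) * (1 - 8 * η) := by
    refine ⟨min (1 / 16) (ε / (8 * (lam + ε))), by positivity, ?_, ?_⟩
    · have := min_le_left (1 / 16 : ℝ) (ε / (8 * (lam + ε))); linarith
    · have h1 := min_le_right (1 / 16 : ℝ) (ε / (8 * (lam + ε)))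
      have h2 : 8 * (lam + ε) * min (1 / 16 : ℝ) (ε / (8 * (lam + ε))) ≤ ε := by
        calc _ ≤ 8 * (lam + ε) * (ε / (8 * (lam + ε))) := by gcongr
          _ = ε := by field_simp
      nlinarith
  obtain ⟨χ, hχc, hχ0, hχd0, hχd1, hχl, hχn, hχu⟩ := exists_chi hη0
  set S : ℝ → ℝ := fun x => Real.sin (π / L * (x - a)) with hS
  have hSc : ContDiff ℝ ∞ S := by rw [hS]; fun_prop
  have hScont : Continuous S := hSc.continuous
  have hSa : S a = 0 := by simp [hS]
  have hSb : S b = 0 := by
    simp only [hS]; rw [← hL]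
    have : π / L * L = π := by field_simp
    rw [this]; simp
  set F : ℝ → ℝ := (Ioo a b).indicator (χ ∘ S) with hF
  have hzero : ∀ x, S x ≤ η → F x = 0 := by
    intro x hx
    by_cases hxI : x ∈ Ioo a b
    · rw [hF, indicator_of_mem hxI]; exact hχ0 _ hx
    · rw [hF, indicator_of_notMem hxI]
  set Kc : Set ℝ := Icc a b ∩ {x | η ≤ S x} with hKc
  have hKcl : IsClosed {x | η ≤ S x} := isClosed_le continuous_const hScont
  have hKcompact : IsCompact Kc := isCompact_Icc.inter_right hKcl
  have hKsub : Kc ⊆ Ioo a b := by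
    rintro x ⟨hx1, hx2⟩
    refine ⟨lt_of_le_of_ne hx1.1 ?_, lt_of_le_of_ne hx1.2 ?_⟩
    · rintro rfl; simp only [mem_ofPred_eq, hSa] at hx2; linarith
    · rintro rfl; simp only [mem_ofPred_eq, hSb] at hx2; linarith
  have hoff : ∀ x, x ∉ Kc → F x = 0 := by
    intro x hx
    by_cases hxI : x ∈ Ioo a b
    · apply hzero
      by_contra hcon
      push Not at hcon
      exact hx ⟨Ioo_subset_Icc_self hxI, hcon.le⟩
    · rw [hF, indicator_of_notMem hxI]
  have hts : tsupport F ⊆ Kc := by
    apply closure_minimal _ hKcompact.isClosed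
    intro x hx
    by_contra hxK
    exact hx (hoff x hxK)
  have hFs : HasCompactSupport F := HasCompactSupport.of_support_subset_isCompact hKcompact (fun x hx => by
    by_contra hxK; exact hx (hoff x hxK))
  have hFc : ContDiff ℝ ∞ F := by
    rw [contDiff_iff_contDiffAt]
    intro x
    by_cases hxU : x ∈ Ioo a b
    · have h1 : ContDiffAt ℝ ∞ (χ ∘ S) x := (hχc.comp hSc).contDiffAt
      apply h1.congr_of_eventuallyEq
      filter_upwards [isOpen_Ioo.mem_nhds hxU] with y hy
      rw [hF, indicator_of_mem hy]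
    · have hxK : x ∉ Kc := fun h => hxU (hKsub h)
      have h1 : ContDiffAt ℝ ∞ (fun _ : ℝ => (0:ℝ)) x := contDiffAt_const
      apply h1.congr_of_eventuallyEq
      filter_upwards [hKcompact.isClosed.isOpen_compl.mem_nhds hxK] with y hy
      exact hoff y hy
  -- integrals
  have hSnn : ∀ x ∈ Icc a b, 0 ≤ S x := by
    intro x hx
    apply Real.sin_nonneg_of_nonneg_of_le_pi
    · have := hx.1; have : 0 ≤ x - a := by linarith
      positivity
    · have : x - a ≤ L := by rw [hL]; linarith [hx.2]
      calc π / L * (x - a) ≤ π / L * L := by gcongr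
        _ = π := by field_simp
  have hmeasI : ∀ g h : ℝ → ℝ, (∀ x ∈ Ioo a b, g x = h x) → (∀ x, x ∉ Ioo a b → g x = 0) → ∫ x, g x = ∫ x in a..b, h x := by
    intro g h h1 h2
    rw [intervalIntegral.integral_of_le hab.le, integral_Ioc_eq_integral_Ioo, ← integral_indicator measurableSet_Ioo]
    congr 1; ext x
    by_cases hx : x ∈ Ioo a b
    · rw [indicator_of_mem hx, h1 x hx]
    · rw [indicator_of_notMem hx, h2 x hx]
  have i1 : ∫ x, F x ^ 2 = ∫ x in a..b, χ (S x) ^ 2 := by
    apply hmeasI
    · intro x hx; rw [hF, indicator_of_mem hx]; rfl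
    · intro x hx; rw [hF, indicator_of_notMem hx]; simp
  set c := π / L with hc
  have hSd : ∀ x, HasDerivAt S (c * Real.cos (c * (x - a))) x := by
    intro x
    have h1 : HasDerivAt (fun x : ℝ => c * (x - a)) c x := by
      simpa using ((hasDerivAt_id x).sub_const a).const_mul c
    have := h1.sin
    rw [mul_comm] at this
    exact this
  have hχd : ∀ t, HasDerivAt χ (deriv χ t) t := fun t => (hχc.differentiable (by simp) t).hasDerivAt
  have i2 : ∫ x, deriv F x ^ 2 = ∫ x in a..b, (deriv χ (S x) * (c * Real.cos (c * (x - a)))) ^ 2 := by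
    apply hmeasI
    · intro x hx
      have h1 : HasDerivAt (χ ∘ S) (deriv χ (S x) * (c * Real.cos (c * (x - a)))) x := (hχd (S x)).comp x (hSd x)
      have h2 : deriv F x = deriv (χ ∘ S) x := by
        apply Filter.EventuallyEq.deriv_eq
        filter_upwards [isOpen_Ioo.mem_nhds hx] with y hy
        rw [hF, indicator_of_mem hy]
      rw [h2, h1.deriv]
    · intro x hx
      have h1 : x ∉ tsupport F := fun h => hx (hKsub (hts h))
      have h2 : x ∉ tsupport (deriv F) := fun h => h1 (tsupport_deriv_subset (𝕜 := ℝ) (f := F) h)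
      rw [image_eq_zero_of_notMem_tsupport h2]; simp
  have hS2 : Continuous (fun x => S x ^ 2) := hScont.pow 2
  have isin : ∫ x in a..b, S x ^ 2 = L / 2 := by
    have hder : ∀ x ∈ uIcc a b, HasDerivAt (fun x : ℝ => x / 2 - Real.sin (2 * c * (x - a)) / (4 * c)) (S x ^ 2) x := by
      intro x _
      have h1 : HasDerivAt (fun x : ℝ => 2 * c * (x - a)) (2 * c) x := by
        simpa using ((hasDerivAt_id x).sub_const a).const_mul (2 * c)
      have h2 := ((hasDerivAt_id' x).div_const 2).sub (h1.sin.div_const (4 * c))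
      have e : 1 / 2 - Real.cos (2 * c * (x - a)) * (2 * c) / (4 * c) = S x ^ 2 := by
        have hc0 : c ≠ 0 := by positivity
        have : Real.cos (2 * c * (x - a)) = 1 - 2 * S x ^ 2 := by
          rw [show 2 * c * (x - a) = 2 * (c * (x - a)) by ring, Real.cos_two_mul, hS]
          have := Real.sin_sq_add_cos_sq (c * (x - a))
          linarith
        rw [this]; field_simp; ring
      rw [e] at h2
      exact h2
    have hint : IntervalIntegrable (fun x => S x ^ 2) volume a b := (hScont.pow 2).intervalIntegrable _ _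
    rw [intervalIntegral.integral_eq_sub_of_hasDerivAt hder hint]
    have e1 : 2 * c * (b - a) = 2 * π := by rw [← hL, hc]; field_simp
    rw [e1]
    simp
    rw [hL]; ring
  have icos : ∫ x in a..b, Real.cos (c * (x - a)) ^ 2 = L / 2 := by
    have : ∫ x in a..b, Real.cos (c * (x - a)) ^ 2 = ∫ x in a..b, (1 - S x ^ 2) := by
      apply intervalIntegral.integral_congr
      intro x _
      simp only [hS]
      have := Real.sin_sq_add_cos_sq (c * (x - a))
      linarith
    rw [this, intervalIntegral.integral_sub (continuous_const.intervalIntegrable a b) (hS2.intervalIntegrable a b), isin]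
    simp
    rw [hL]; ring
  have low : L / 2 * (1 - 8 * η) ≤ ∫ x, F x ^ 2 := by
    rw [i1]
    have h1 : ∫ x in a..b, (S x ^ 2 - 4 * η) ≤ ∫ x in a..b, χ (S x) ^ 2 := by
      apply intervalIntegral.integral_mono_on hab.le
      · exact (((hScont.pow 2).sub continuous_const)).intervalIntegrable _ _
      · exact ((hχc.continuous.comp hScont).pow 2).intervalIntegrable _ _
      · intro x hx
        have hS0 := hSnn x hx
        have hS1 : S x ≤ 1 := Real.sin_le_one _
        have h2 := hχl (S x)
        have h3 := hχn (S x)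
        by_cases h4 : 2 * η ≤ S x
        · nlinarith
        · push Not at h4
          nlinarith
    have h2 : ∫ x in a..b, (S x ^ 2 - 4 * η) = L / 2 - 4 * η * L := by
      rw [intervalIntegral.integral_sub (hS2.intervalIntegrable a b) (continuous_const.intervalIntegrable a b), isin]
      simp
      rw [hL]; ring
    nlinarith
  have up : ∫ x, deriv F x ^ 2 ≤ lam * (L / 2) := by
    rw [i2]
    calc _ ≤ ∫ x in a..b, c ^ 2 * Real.cos (c * (x - a)) ^ 2 := by
          apply intervalIntegral.integral_mono_on hab.le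
          · apply Continuous.intervalIntegrable
            have : Continuous (deriv χ) := hχc.continuous_deriv (by simp)
            fun_prop
          · apply Continuous.intervalIntegrable; fun_prop
          · intro x _
            have h1 := hχd0 (S x)
            have h2 := hχd1 (S x)
            have h3 : (deriv χ (S x)) ^ 2 ≤ 1 := by nlinarith
            have h4 : 0 ≤ (c * Real.cos (c * (x - a))) ^ 2 := sq_nonneg _
            calc _ = (deriv χ (S x)) ^ 2 * (c * Real.cos (c * (x - a))) ^ 2 := by ring
              _ ≤ 1 * (c * Real.cos (c * (x - a))) ^ 2 := by gcongr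
              _ = _ := by ring
      _ = _ := by rw [intervalIntegral.integral_const_mul, icos]
  have hlow0 : 0 < L / 2 * (1 - 8 * η) := by
    have : 0 < 1 - 8 * η := by linarith
    positivity
  refine ⟨F, hFc, hFs, hts.trans hKsub, lt_of_lt_of_le hlow0 low, up.trans ?_⟩
  calc lam * (L / 2) ≤ (lam + ε) * (1 - 8 * η) * (L / 2) := by gcongr
    _ = (lam + ε) * (L / 2 * (1 - 8 * η)) := by ring
    _ ≤ _ := by gcongr

end Pool.Agent.H63.Star
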