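import Mathlib

open MeasureTheory Set Filter Topology
open scoped Real ENNReal NNReal

namespace Pool.Agent.H63.Star

/-- `k cot (k t)` -/
noncomputable def kcot (k t : ℝ) : ℝ := k * Real.cos (k * t) / Real.sin (k * t)

lemma kcot_hasDerivAt {k t : ℝ} (h : Real.sin (k * t) ≠ 0) :
    HasDerivAt (kcot k) (-(k ^ 2 + kcot k t ^ 2)) t := by
  have h1 : HasDerivAt (fun t : ℝ => k * t) k t := by simpa using (hasDerivAt_id t).const_mul k
  have hc : HasDerivAt (fun t : ℝ => Real.cos (k * t)) (-Real.sin (k * t) * k) t := h1.cos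
  have hs : HasDerivAt (fun t : ℝ => Real.sin (k * t)) (Real.cos (k * t) * k) t := h1.sin
  have h2 := (hc.const_mul k).div hs h
  have : (k * (-Real.sin (k * t) * k) * Real.sin (k * t) - k * Real.cos (k * t) * (Real.cos (k * t) * k)) / Real.sin (k * t) ^ 2 = -(k ^ 2 + kcot k t ^ 2) := by
    unfold kcot
    field_simp
    ring
  rw [this] at h2
  exact h2

/-- Measure-theoretic Picone inequality. -/
theorem picone_meas {a b : ℝ} (hab : a ≤ b) {φ : ℝ → ℝ} (hφ : ContDiff ℝ 1 φ)
    (ha : φ a = 0) (hb : φ b = 0) {G : Set ℝ} (hG : MeasurableSet G) {k ε L C : ℝ}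
    (hk : 0 < k) (hε : 0 < ε) (hL : volume.real (G ∩ Icc a b) ≤ L) (hkL : k * (L + ε) < π)
    (hC : ∀ t ∈ Icc ε (L + ε), kcot k t ^ 2 ≤ C) :
    k ^ 2 * (∫ x in a..b, G.indicator (fun x => φ x ^ 2) x)
      - C * (∫ x in a..b, Gᶜ.indicator (fun x => φ x ^ 2) x) ≤ ∫ x in a..b, deriv φ x ^ 2 := by
  -- the running measure
  set one : ℝ → ℝ := G.indicator (fun _ => (1 : ℝ)) with hone
  have hone_meas : Measurable one := measurable_const.indicator hG
  have hone_bd : ∀ x, ‖one x‖ ≤ 1 := by
    intro x; by_cases hx : x ∈ G <;> simp [hone, hx]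
  have hone_nn : ∀ x, 0 ≤ one x := by
    intro x; by_cases hx : x ∈ G <;> simp [hone, hx]
  have hone_int : ∀ u v : ℝ, IntervalIntegrable one volume u v := by
    intro u v
    refine ⟨?_, ?_⟩ <;>
    · refine Measure.integrableOn_of_bounded (M := 1) (by simp) hone_meas.aestronglyMeasurable ?_
      exact Eventually.of_forall hone_bd
  set μ : ℝ → ℝ := fun x => ∫ t in a..x, one t with hμ
  have hμ_nn : ∀ x ∈ Icc a b, 0 ≤ μ x := fun x hx =>
    intervalIntegral.integral_nonneg hx.1 (fun t _ => hone_nn t)
  have hμ_le : ∀ x ∈ Icc a b, μ x ≤ L := by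
    intro x hx
    have h1 : μ x ≤ μ b := by
      have : μ b = μ x + ∫ t in x..b, one t := by
        rw [hμ]; simp only
        rw [intervalIntegral.integral_add_adjacent_intervals (hone_int _ _) (hone_int _ _)]
      have h2 : 0 ≤ ∫ t in x..b, one t := intervalIntegral.integral_nonneg hx.2 (fun t _ => hone_nn t)
      linarith
    have h2 : μ b = volume.real (G ∩ Ioc a b) := by
      rw [hμ]; simp only
      rw [intervalIntegral.integral_of_le hab, hone, integral_indicator hG]
      simp [Measure.real, Measure.restrict_apply, hG]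
    have h3 : volume.real (G ∩ Ioc a b) ≤ volume.real (G ∩ Icc a b) := by
      refine measureReal_mono (inter_subset_inter_right _ Ioc_subset_Icc_self) ?_
      exact ((measure_mono inter_subset_right).trans_lt (by simp)).ne
    linarith
  have hμ_lip : LipschitzOnWith 1 μ (Icc a b) := by
    apply LipschitzOnWith.of_dist_le_mul
    intro x hx y hy
    have : μ x - μ y = ∫ t in y..x, one t := by
      rw [hμ]; simp only
      rw [intervalIntegral.integral_interval_sub_left (hone_int _ _) (hone_int _ _)]
    rw [Real.dist_eq, this, Real.dist_eq]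
    have := intervalIntegral.norm_integral_le_of_norm_le_const (a := y) (b := x) (f := one) (C := 1)
      (fun t _ => hone_bd t)
    simpa using this
  have hmaps : MapsTo (fun x => μ x + ε) (Icc a b) (Icc ε (L + ε)) := fun x hx =>
    ⟨by have := hμ_nn x hx; simp; linarith, by have := hμ_le x hx; simp; linarith⟩
  have hsin : ∀ t ∈ Icc ε (L + ε), 0 < Real.sin (k * t) := by
    intro t ht
    apply Real.sin_pos_of_pos_of_lt_pi
    · exact mul_pos hk (lt_of_lt_of_le hε ht.1)
    · exact lt_of_le_of_lt (mul_le_mul_of_nonneg_left ht.2 hk.le) hkL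
  have hC0 : 0 ≤ C ∨ b < a := by
    left
    have hLnn : 0 ≤ L := le_trans measureReal_nonneg hL
    exact le_trans (sq_nonneg _) (hC ε ⟨le_refl _, by linarith⟩)
  have hCnn : 0 ≤ C := by rcases hC0 with h | h; exact h; linarith
  have hg_lip : LipschitzOnWith (Real.toNNReal (k ^ 2 + C)) (kcot k) (Icc ε (L + ε)) := by
    apply Convex.lipschitzOnWith_of_nnnorm_hasDerivWithin_le (convex_Icc _ _)
      (f' := fun t => -(k ^ 2 + kcot k t ^ 2))
    · intro t ht
      exact (kcot_hasDerivAt (hsin t ht).ne').hasDerivWithinAt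
    · intro t ht
      rw [← NNReal.coe_le_coe, coe_nnnorm, Real.coe_toNNReal _ (by positivity), norm_neg,
        Real.norm_of_nonneg (by positivity)]
      have := hC t ht
      linarith
  set c : ℝ → ℝ := fun x => kcot k (μ x + ε) with hc
  have hμε_lip : LipschitzOnWith 1 (fun x => μ x + ε) (Icc a b) := by
    apply LipschitzOnWith.of_dist_le_mul
    intro x hx y hy
    have := hμ_lip.dist_le_mul x hx y hy
    simpa [Real.dist_eq] using this
  have hc_lip : LipschitzOnWith (Real.toNNReal (k ^ 2 + C) * 1) c (Icc a b) :=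
    hg_lip.comp hμε_lip hmaps
  have hcAC : AbsolutelyContinuousOnInterval c a b := by
    apply LipschitzOnWith.absolutelyContinuousOnInterval (K := Real.toNNReal (k ^ 2 + C) * 1)
    rwa [uIcc_of_le hab]
  have hφAC : AbsolutelyContinuousOnInterval (fun x => φ x ^ 2) a b := by
    apply ContDiffOn.absolutelyContinuousOnInterval
    exact (hφ.pow 2).contDiffOn
  have hHAC : AbsolutelyContinuousOnInterval (fun x => c x * φ x ^ 2) a b := hcAC.mul hφAC
  have hFTC := hHAC.integral_deriv_eq_sub
  simp only [ha, hb, ne_eq, OfNat.ofNat_ne_zero, not_false_eq_true, zero_pow, mul_zero, sub_zero] at hFTC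
  -- a.e. derivative
  have hμ_der := (hone_int a b).ae_hasDerivAt_integral
  have hcont : Continuous (deriv φ) := hφ.continuous_deriv (le_refl _)
  have hpt : ∀ᵐ x, x ∈ Icc a b →
      deriv (fun x => c x * φ x ^ 2) x + (k ^ 2 * G.indicator (fun x => φ x ^ 2) x
        - C * Gᶜ.indicator (fun x => φ x ^ 2) x) ≤ deriv φ x ^ 2 := by
    filter_upwards [hμ_der] with x hx hxI
    have hx' := hx (by rwa [uIcc_of_le hab]) a left_mem_uIcc
    have hd1 : HasDerivAt (fun y => μ y + ε) (one x) x := by
      have := hx'.add_const ε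
      exact this
    have hd2 : HasDerivAt c (-(k ^ 2 + kcot k (μ x + ε) ^ 2) * one x) x := by
      exact (kcot_hasDerivAt (hsin _ (hmaps hxI)).ne').comp x hd1
    have hd3 : HasDerivAt φ (deriv φ x) x :=
      (hφ.differentiable one_ne_zero x).hasDerivAt
    have hd4 : HasDerivAt (fun y => φ y ^ 2) (2 * φ x * deriv φ x) x := by
      have := hd3.fun_pow 2
      simpa [mul_comm, mul_assoc, mul_left_comm] using this
    have hd5 := hd2.mul hd4
    have hd6 : deriv (fun x => c x * φ x ^ 2) x =
        -(k ^ 2 + c x ^ 2) * one x * φ x ^ 2 + c x * (2 * φ x * deriv φ x) := by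
      have := hd5.deriv
      exact this
    rw [hd6]
    have hCx := hC _ (hmaps hxI)
    change c x ^ 2 ≤ C at hCx
    by_cases hxG : x ∈ G
    · have h1 : one x = 1 := by simp [hone, hxG]
      have h2 : x ∉ Gᶜ := by simpa using hxG
      rw [h1, indicator_of_mem hxG, indicator_of_notMem h2]
      nlinarith [sq_nonneg (deriv φ x - c x * φ x)]
    · have h1 : one x = 0 := by simp [hone, hxG]
      have h2 : x ∈ Gᶜ := hxG
      rw [h1, indicator_of_notMem hxG, indicator_of_mem h2]
      nlinarith [sq_nonneg (deriv φ x - c x * φ x), mul_le_mul_of_nonneg_right hCx (sq_nonneg (φ x))]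
  have hφ2c : Continuous (fun x => φ x ^ 2) := hφ.continuous.pow 2
  have hi1 : IntervalIntegrable (G.indicator (fun x => φ x ^ 2)) volume a b := by
    have := hφ2c.intervalIntegrable (μ := volume) a b
    exact ⟨this.1.indicator hG, this.2.indicator hG⟩
  have hi2 : IntervalIntegrable (Gᶜ.indicator (fun x => φ x ^ 2)) volume a b := by
    have := hφ2c.intervalIntegrable (μ := volume) a b
    exact ⟨this.1.indicator hG.compl, this.2.indicator hG.compl⟩
  have hi3 := hHAC.intervalIntegrable_deriv
  have hi4 : IntervalIntegrable (fun x => deriv φ x ^ 2) volume a b := (hcont.pow 2).intervalIntegrable a b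
  have hmono := intervalIntegral.integral_mono_ae_restrict hab
    (hi3.add ((hi1.const_mul (k ^ 2)).sub (hi2.const_mul C))) hi4
    ((ae_restrict_iff' measurableSet_Icc).2 hpt)
  have hsplit : ∫ x in a..b, (deriv (fun x => c x * φ x ^ 2) x + (k ^ 2 * G.indicator (fun x => φ x ^ 2) x
        - C * Gᶜ.indicator (fun x => φ x ^ 2) x)) =
      k ^ 2 * (∫ x in a..b, G.indicator (fun x => φ x ^ 2) x)
      - C * (∫ x in a..b, Gᶜ.indicator (fun x => φ x ^ 2) x) := by
    rw [intervalIntegral.integral_add hi3 ((hi1.const_mul (k ^ 2)).sub (hi2.const_mul C)),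
      intervalIntegral.integral_sub (hi1.const_mul _) (hi2.const_mul _), hFTC,
      intervalIntegral.integral_const_mul, intervalIntegral.integral_const_mul]
    ring
  calc _ = _ := hsplit.symm
    _ ≤ _ := hmono

end Pool.Agent.H63.Star
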