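import Mathlib
import Pool.Agent.H63.Star.Picone

open MeasureTheory Set Filter Topology
open scoped Real ENNReal NNReal

namespace Pool.Agent.H63.Star

lemma kcot_continuousOn {k a b : ℝ} (h : ∀ t ∈ Icc a b, Real.sin (k * t) ≠ 0) :
    ContinuousOn (kcot k) (Icc a b) := fun t ht =>
  (kcot_hasDerivAt (h t ht)).continuousAt.continuousWithinAt

/-- sharp Poincaré inequality in terms of the measure of the support, Bochner form -/
theorem poincare_support_aux {φ : ℝ → ℝ} (hφ : ContDiff ℝ 1 φ) (hs : HasCompactSupport φ)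
    {L k : ℝ} (hL : 0 < L) (hvol : volume {x | φ x ≠ 0} ≤ ENNReal.ofReal L) (hk : 0 < k)
    (hkL : k * L < π) :
    k ^ 2 * ∫ x, φ x ^ 2 ≤ ∫ x, deriv φ x ^ 2 := by
  obtain ⟨M, hM⟩ := hs.isCompact.isBounded.subset_closedBall 0
  rw [Real.closedBall_eq_Icc] at hM
  have hM' : tsupport φ ⊆ Ioo (-(|M| + 1)) (|M| + 1) := fun x hx => by
    have := hM hx
    have h1 := le_abs_self M
    exact ⟨by have := this.1; linarith, by have := this.2; linarith⟩
  set N := |M| + 1 with hN
  have hNpos : 0 < N := by positivity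
  have hout : ∀ x, x ∉ Ioo (-N) N → φ x = 0 := fun x hx =>
    image_eq_zero_of_notMem_tsupport (fun h => hx (hM' h))
  have hout' : ∀ x, x ∉ Ioo (-N) N → deriv φ x = 0 := fun x hx => by
    have : x ∉ tsupport (deriv φ) := fun h => hx (hM' (tsupport_deriv_subset (𝕜 := ℝ) (f := φ) h))
    exact image_eq_zero_of_notMem_tsupport this
  set ε := (π / k - L) / 2 with hε
  have hεpos : 0 < ε := by
    have : L < π / k := by rw [lt_div_iff₀ hk]; linarith
    rw [hε]; linarith
  have hkL' : k * (L + ε) < π := by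
    have h1 : L + ε < π / k := by
      have : L < π / k := by rw [lt_div_iff₀ hk]; linarith
      rw [hε]; linarith
    calc k * (L + ε) < k * (π / k) := mul_lt_mul_of_pos_left h1 hk
      _ = π := by field_simp
  have hsin : ∀ t ∈ Icc ε (L + ε), Real.sin (k * t) ≠ 0 := by
    intro t ht
    apply ne_of_gt
    apply Real.sin_pos_of_pos_of_lt_pi
    · exact mul_pos hk (lt_of_lt_of_le hεpos ht.1)
    · exact lt_of_le_of_lt (mul_le_mul_of_nonneg_left ht.2 hk.le) hkL'
  obtain ⟨C, hC⟩ := isCompact_Icc.exists_bound_of_continuousOn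
    ((kcot_continuousOn hsin).pow 2)
  have hGm : MeasurableSet {x | φ x ≠ 0} :=
    (hφ.continuous.isOpen_support).measurableSet
  have hvol' : volume.real ({x | φ x ≠ 0} ∩ Icc (-N) N) ≤ L := by
    rw [Measure.real]
    apply ENNReal.toReal_le_of_le_ofReal hL.le
    exact (measure_mono inter_subset_left).trans hvol
  have key := picone_meas (a := -N) (b := N) (by linarith) hφ (hout _ (by simp)) (hout _ (by simp))
    hGm hk hεpos hvol' hkL' (C := C) (fun t ht => by
      have := hC t ht
      exact (le_abs_self _).trans this)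
  have e1 : ∫ x in (-N)..N, ({x | φ x ≠ 0} : Set ℝ).indicator (fun x => φ x ^ 2) x = ∫ x, φ x ^ 2 := by
    have : ({x | φ x ≠ 0} : Set ℝ).indicator (fun x => φ x ^ 2) = fun x => φ x ^ 2 := by
      ext x
      by_cases hx : φ x = 0
      · simp [indicator, hx]
      · simp [indicator, hx]
    rw [this, intervalIntegral.integral_of_le (by linarith)]
    apply setIntegral_eq_integral_of_forall_compl_eq_zero
    intro x hx
    rw [hout x (fun h => hx ⟨h.1, h.2.le⟩)]; simp
  have e2 : ∫ x in (-N)..N, ({x | φ x ≠ 0} : Set ℝ)ᶜ.indicator (fun x => φ x ^ 2) x = 0 := by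
    have : ({x | φ x ≠ 0} : Set ℝ)ᶜ.indicator (fun x => φ x ^ 2) = fun x => 0 := by
      ext x
      by_cases hx : φ x = 0
      · simp [indicator, hx]
      · simp [indicator, hx]
    rw [this]; simp
  have e3 : ∫ x in (-N)..N, deriv φ x ^ 2 = ∫ x, deriv φ x ^ 2 := by
    rw [intervalIntegral.integral_of_le (by linarith)]
    apply setIntegral_eq_integral_of_forall_compl_eq_zero
    intro x hx
    rw [hout' x (fun h => hx ⟨h.1, h.2.le⟩)]; simp
  rw [e1, e2, e3] at key
  linarith

theorem poincare_support {φ : ℝ → ℝ} (hφ : ContDiff ℝ 1 φ) (hs : HasCompactSupport φ)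
    {L : ℝ} (hL : 0 < L) (hvol : volume {x | φ x ≠ 0} ≤ ENNReal.ofReal L) :
    (π / L) ^ 2 * ∫ x, φ x ^ 2 ≤ ∫ x, deriv φ x ^ 2 := by
  have hlim : Tendsto (fun k : ℝ => k ^ 2 * ∫ x, φ x ^ 2) (𝓝[<] (π / L))
      (𝓝 ((π / L) ^ 2 * ∫ x, φ x ^ 2)) := by
    apply Tendsto.mono_left _ nhdsWithin_le_nhds
    exact ((continuous_pow 2).tendsto _).mul_const _
  refine le_of_tendsto hlim ?_
  have hpos : 0 < π / L := div_pos Real.pi_pos hL
  filter_upwards [Ioo_mem_nhdsLT hpos] with k hk
  apply poincare_support_aux hφ hs hL hvol hk.1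
  calc k * L < π / L * L := mul_lt_mul_of_pos_right hk.2 hL
    _ = π := by field_simp

/-- lintegral form -/
theorem lpoincare_support {φ : ℝ → ℝ} (hφ : ContDiff ℝ 1 φ) (hs : HasCompactSupport φ)
    {L : ℝ} (hL : 0 < L) (hvol : volume {x | φ x ≠ 0} ≤ ENNReal.ofReal L) :
    ENNReal.ofReal ((π / L) ^ 2) * ∫⁻ x, ENNReal.ofReal (φ x ^ 2)
      ≤ ∫⁻ x, ENNReal.ofReal (deriv φ x ^ 2) := by
  have h1 : Continuous (fun x => φ x ^ 2) := hφ.continuous.pow 2
  have h2 : Continuous (fun x => deriv φ x ^ 2) := (hφ.continuous_deriv le_rfl).pow 2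
  have s1 : HasCompactSupport (fun x => φ x ^ 2) := hs.comp_left (g := fun y => y ^ 2) (by simp)
  have s2 : HasCompactSupport (fun x => deriv φ x ^ 2) :=
    (hs.deriv).comp_left (g := fun y => y ^ 2) (by simp)
  have i1 : Integrable (fun x => φ x ^ 2) := h1.integrable_of_hasCompactSupport s1
  have i2 : Integrable (fun x => deriv φ x ^ 2) := h2.integrable_of_hasCompactSupport s2
  rw [← ofReal_integral_eq_lintegral_ofReal i1 (Eventually.of_forall fun x => sq_nonneg _),
    ← ofReal_integral_eq_lintegral_ofReal i2 (Eventually.of_forall fun x => sq_nonneg _),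
    ← ENNReal.ofReal_mul (by positivity)]
  exact ENNReal.ofReal_le_ofReal (poincare_support hφ hs hL hvol)

/-- azimuthal inequality -/
theorem azimuth {f : ℝ → ℝ} (hf : ContDiff ℝ 1 f) (hper : Function.Periodic f (2 * π))
    {ψ0 : ℝ} (h0 : f ψ0 = 0) {G : Set ℝ} (hG : MeasurableSet G)
    (hGper : ∀ x, x + 2 * π ∈ G ↔ x ∈ G) (hGv : volume (G ∩ Ioo (-π) π) ≤ ENNReal.ofReal (5 * π / 3)) :
    (59 / 100 : ℝ) ^ 2 * (∫ x in (-π)..π, f x ^ 2) ≤
      (∫ x in (-π)..π, deriv f x ^ 2) + 1300 * ∫ x in (-π)..π, Gᶜ.indicator (fun x => f x ^ 2) x := by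
  have hpi := Real.pi_pos
  have hπ : (-π : ℝ) + 2 * π = π := by ring
  have hderper : Function.Periodic (deriv f) (2 * π) := by
    intro x
    have : f = fun y => f (y + 2 * π) := by ext y; exact (hper y).symm
    conv_rhs => rw [this]
    rw [deriv_comp_add_const]
  have hshift : ∀ g : ℝ → ℝ, Function.Periodic g (2 * π) →
      ∫ x in ψ0..(ψ0 + 2 * π), g x = ∫ x in (-π)..π, g x := by
    intro g hg
    have := hg.intervalIntegral_add_eq ψ0 (-π)
    rwa [hπ] at this
  have hindper : Function.Periodic (G.indicator (fun _ => (1 : ℝ))) (2 * π) := by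
    intro x
    by_cases hx : x ∈ G
    · rw [indicator_of_mem hx, indicator_of_mem ((hGper x).2 hx)]
    · rw [indicator_of_notMem hx, indicator_of_notMem (fun h => hx ((hGper x).1 h))]
  have hvol : volume.real (G ∩ Icc ψ0 (ψ0 + 2 * π)) ≤ 5 * π / 3 := by
    have e1 : ∫ x in ψ0..(ψ0 + 2 * π), G.indicator (fun _ => (1 : ℝ)) x = volume.real (G ∩ Icc ψ0 (ψ0 + 2 * π)) := by
      rw [intervalIntegral.integral_of_le (by linarith), integral_indicator hG]
      simp only [Measure.real, integral_const, smul_eq_mul, mul_one, MeasurableSet.univ,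
        Measure.restrict_apply, univ_inter, hG]
      congr 1
      apply measure_congr
      exact (ae_eq_refl G).inter Ioc_ae_eq_Icc
    have e2 : ∫ x in (-π)..π, G.indicator (fun _ => (1 : ℝ)) x = volume.real (G ∩ Ioo (-π) π) := by
      rw [intervalIntegral.integral_of_le (by linarith), integral_indicator hG]
      simp only [Measure.real, integral_const, smul_eq_mul, mul_one, MeasurableSet.univ,
        Measure.restrict_apply, univ_inter, hG]
      congr 1
      apply measure_congr
      exact (ae_eq_refl G).inter Ioo_ae_eq_Ioc.symm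
    rw [← e1, hshift _ hindper, e2, Measure.real]
    exact ENNReal.toReal_le_of_le_ofReal (by positivity) hGv
  have hsin : ∀ t ∈ Icc (π / 120 / (59 / 100)) (5 * π / 3 + π / 120 / (59 / 100)),
      1 / 60 ≤ Real.sin (59 / 100 * t) := by
    intro t ht
    have h1 : π / 120 ≤ 59 / 100 * t := by have := ht.1; linarith
    have h2 : 59 / 100 * t ≤ 119 * π / 120 := by have := ht.2; linarith
    rcases le_total (59 / 100 * t) (π / 2) with h | h
    · have := Real.mul_le_sin (by linarith : (0:ℝ) ≤ 59 / 100 * t) h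
      have h3 : 1 / 60 ≤ 2 / π * (59 / 100 * t) := by
        calc (1 / 60 : ℝ) = 2 / π * (π / 120) := by field_simp; norm_num
          _ ≤ _ := mul_le_mul_of_nonneg_left h1 (by positivity)
      linarith
    · have := Real.mul_le_sin (by linarith : (0:ℝ) ≤ π - 59 / 100 * t) (by linarith)
      rw [Real.sin_pi_sub] at this
      have h3 : 1 / 60 ≤ 2 / π * (π - 59 / 100 * t) := by
        calc (1 / 60 : ℝ) = 2 / π * (π / 120) := by field_simp; norm_num
          _ ≤ _ := mul_le_mul_of_nonneg_left (by linarith) (by positivity)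
      linarith
  have key := picone_meas (a := ψ0) (b := ψ0 + 2 * π) (by linarith) hf h0
    (by rw [hper ψ0]; exact h0) hG (k := 59 / 100) (ε := π / 120 / (59 / 100)) (L := 5 * π / 3)
    (C := 1299) (by norm_num) (by positivity) hvol (by linarith) (by
      intro t ht
      have hs := hsin t ht
      have hs0 : 0 < Real.sin (59 / 100 * t) := by linarith
      unfold kcot
      rw [div_pow, div_le_iff₀ (by positivity)]
      have hc : Real.cos (59 / 100 * t) ^ 2 ≤ 1 := Real.cos_sq_le_one _
      have hs2 : (1 / 60 : ℝ) ^ 2 ≤ Real.sin (59 / 100 * t) ^ 2 := by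
        apply pow_le_pow_left₀ (by norm_num) hs
      nlinarith)
  have hf2per : Function.Periodic (fun x => f x ^ 2) (2 * π) := fun x => by simp only [hper x]
  have p1 : Function.Periodic (G.indicator (fun x => f x ^ 2)) (2 * π) := by
    intro x
    by_cases hx : x ∈ G
    · rw [indicator_of_mem hx, indicator_of_mem ((hGper x).2 hx), hper x]
    · rw [indicator_of_notMem hx, indicator_of_notMem (fun h => hx ((hGper x).1 h))]
  have p2 : Function.Periodic (Gᶜ.indicator (fun x => f x ^ 2)) (2 * π) := by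
    intro x
    by_cases hx : x ∈ Gᶜ
    · have hx' : x + 2 * π ∈ Gᶜ := fun h => hx ((hGper x).1 h)
      rw [indicator_of_mem hx, indicator_of_mem hx', hper x]
    · have hx' : x + 2 * π ∉ Gᶜ := fun h => h ((hGper x).2 (not_not.1 hx))
      rw [indicator_of_notMem hx, indicator_of_notMem hx']
  have p3 : Function.Periodic (fun x => deriv f x ^ 2) (2 * π) := fun x => by simp only [hderper x]
  rw [hshift _ p1, hshift _ p2, hshift _ p3] at key
  have hf2c : Continuous (fun x => f x ^ 2) := hf.continuous.pow 2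
  have i0 := hf2c.intervalIntegrable (μ := volume) (-π) π
  have i1 : IntervalIntegrable (G.indicator (fun x => f x ^ 2)) volume (-π) π :=
    ⟨i0.1.indicator hG, i0.2.indicator hG⟩
  have i2 : IntervalIntegrable (Gᶜ.indicator (fun x => f x ^ 2)) volume (-π) π :=
    ⟨i0.1.indicator hG.compl, i0.2.indicator hG.compl⟩
  have hsum : (∫ x in (-π)..π, f x ^ 2) = (∫ x in (-π)..π, G.indicator (fun x => f x ^ 2) x)
      + ∫ x in (-π)..π, Gᶜ.indicator (fun x => f x ^ 2) x := by
    rw [← intervalIntegral.integral_add i1 i2]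
    congr 1
    ext x
    by_cases hx : x ∈ G
    · simp [hx]
    · simp [hx]
  have hnn : 0 ≤ ∫ x in (-π)..π, Gᶜ.indicator (fun x => f x ^ 2) x := by
    apply intervalIntegral.integral_nonneg (by linarith)
    intro x _
    exact indicator_nonneg (fun x _ => sq_nonneg _) x
  rw [hsum]
  nlinarith

end Pool.Agent.H63.Star
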