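import Mathlib
import Pool.Agent.H63.Star.Picone

open MeasureTheory Set Filter Topology
open scoped Real ENNReal NNReal

namespace Pool.Agent.H63.Star

/-- radial inequality with weight `ρ dρ` and a barrier on `(0, rb)` -/
theorem radial {f : ℝ → ℝ} (hf : ContDiff ℝ 1 f) {ra rb R k K : ℝ} (hrb : 0 < rb) (hab : ra < rb)
    (hbR : rb ≤ R) (hk : 0 < k) (hkR : k * (R - ra) < π) (hK : 0 ≤ K)
    (hKc : kcot k (rb - ra) - 1 / (2 * rb) ≤ K) (hfR : f R = 0) :
    (k ^ 2 - 1 / (4 * rb ^ 2)) * (∫ ρ in rb..R, ρ * f ρ ^ 2)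
      - (2 * K / rb + K ^ 2) * (∫ ρ in (0:ℝ)..rb, ρ * f ρ ^ 2) ≤
    (∫ ρ in (0:ℝ)..rb, ρ * deriv f ρ ^ 2) + ∫ ρ in rb..R, ρ * deriv f ρ ^ 2 := by
  have hfc : Continuous f := hf.continuous
  have hdc : Continuous (deriv f) := hf.continuous_deriv le_rfl
  have hd : ∀ x, HasDerivAt f (deriv f x) x := fun x => (hf.differentiable one_ne_zero x).hasDerivAt
  -- first piece
  have h1 : K * rb * f rb ^ 2 - (2 * K / rb + K ^ 2) * (∫ ρ in (0:ℝ)..rb, ρ * f ρ ^ 2) ≤
      ∫ ρ in (0:ℝ)..rb, ρ * deriv f ρ ^ 2 := by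
    have hder : ∀ x ∈ uIcc 0 rb, HasDerivAt (fun ρ => (K * ρ ^ 2 / rb) * f ρ ^ 2)
        ((2 * K * x / rb) * f x ^ 2 + (K * x ^ 2 / rb) * (2 * f x * deriv f x)) x := by
      intro x _
      have e1 : HasDerivAt (fun ρ : ℝ => K * ρ ^ 2 / rb) (2 * K * x / rb) x := by
        have := (((hasDerivAt_id' x).fun_pow 2).const_mul K).div_const rb
        have e : K * (((2 : ℕ) : ℝ) * x ^ (2 - 1) * 1) / rb = 2 * K * x / rb := by norm_num; ring
        rw [e] at this
        exact this
      have e2 : HasDerivAt (fun ρ => f ρ ^ 2) (2 * f x * deriv f x) x := by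
        have := (hd x).fun_pow 2
        simpa [mul_comm, mul_assoc, mul_left_comm] using this
      exact e1.mul e2
    have hint : IntervalIntegrable (fun x => (2 * K * x / rb) * f x ^ 2 + (K * x ^ 2 / rb) * (2 * f x * deriv f x))
        volume 0 rb := by
      apply Continuous.intervalIntegrable
      fun_prop
    have hftc := intervalIntegral.integral_eq_sub_of_hasDerivAt hder hint
    have hle : ∫ x in (0:ℝ)..rb, (((2 * K * x / rb) * f x ^ 2 + (K * x ^ 2 / rb) * (2 * f x * deriv f x))
        - (2 * K / rb + K ^ 2) * (x * f x ^ 2)) ≤ ∫ ρ in (0:ℝ)..rb, ρ * deriv f ρ ^ 2 := by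
      apply intervalIntegral.integral_mono_on hrb.le
      · apply Continuous.intervalIntegrable; fun_prop
      · apply Continuous.intervalIntegrable; fun_prop
      · intro x hx
        have hx0 : 0 ≤ x := hx.1
        have hxr : x / rb ≤ 1 := (div_le_one hrb).2 hx.2
        have hxr0 : 0 ≤ x / rb := by positivity
        have e : x * deriv f x ^ 2 - (((2 * K * x / rb) * f x ^ 2 + (K * x ^ 2 / rb) * (2 * f x * deriv f x))
          - (2 * K / rb + K ^ 2) * (x * f x ^ 2)) = x * (deriv f x - K * (x / rb) * f x) ^ 2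
            + K ^ 2 * x * f x ^ 2 * (1 - (x / rb) ^ 2) := by
          field_simp
          ring
        have h2 : 0 ≤ 1 - (x / rb) ^ 2 := by nlinarith
        have h3 : 0 ≤ x * (deriv f x - K * (x / rb) * f x) ^ 2
            + K ^ 2 * x * f x ^ 2 * (1 - (x / rb) ^ 2) := by positivity
        linarith
    rw [intervalIntegral.integral_sub hint (by apply Continuous.intervalIntegrable; fun_prop), hftc,
      intervalIntegral.integral_const_mul] at hle
    have e : K * rb ^ 2 / rb = K * rb := by field_simp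
    rw [e] at hle
    simp only [ne_eq, OfNat.ofNat_ne_zero, not_false_eq_true, zero_pow, mul_zero, zero_div, zero_mul, sub_zero] at hle
    linarith
  -- second piece
  have hsin : ∀ x ∈ Icc rb R, 0 < Real.sin (k * (x - ra)) := by
    intro x hx
    apply Real.sin_pos_of_pos_of_lt_pi
    · exact mul_pos hk (by linarith [hx.1])
    · exact lt_of_le_of_lt (mul_le_mul_of_nonneg_left (by linarith [hx.2]) hk.le) hkR
  have hcc : ContinuousOn (fun x => kcot k (x - ra)) (Icc rb R) := by
    intro x hx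
    have := (kcot_hasDerivAt (k := k) (t := x - ra) (hsin x hx).ne').continuousAt
    exact (this.comp (f := fun x : ℝ => x - ra) (by fun_prop : ContinuousAt (fun x : ℝ => x - ra) x)).continuousWithinAt
  have h2 : -(rb * kcot k (rb - ra) - 1 / 2) * f rb ^ 2 + (k ^ 2 - 1 / (4 * rb ^ 2)) * (∫ ρ in rb..R, ρ * f ρ ^ 2) ≤
      ∫ ρ in rb..R, ρ * deriv f ρ ^ 2 := by
    have hu : uIcc rb R = Icc rb R := uIcc_of_le hbR
    have hder : ∀ x ∈ uIcc rb R, HasDerivAt (fun ρ => (ρ * kcot k (ρ - ra) - 1 / 2) * f ρ ^ 2)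
        ((kcot k (x - ra) + x * (-(k ^ 2 + kcot k (x - ra) ^ 2))) * f x ^ 2
          + (x * kcot k (x - ra) - 1 / 2) * (2 * f x * deriv f x)) x := by
      intro x hx
      rw [hu] at hx
      have e0 : HasDerivAt (fun ρ : ℝ => kcot k (ρ - ra)) (-(k ^ 2 + kcot k (x - ra) ^ 2)) x := by
        have := (kcot_hasDerivAt (k := k) (t := x - ra) (hsin x hx).ne').comp x
          ((hasDerivAt_id' x).sub_const ra)
        rw [mul_one] at this
        exact this
      have e1 : HasDerivAt (fun ρ : ℝ => ρ * kcot k (ρ - ra) - 1 / 2)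
          (kcot k (x - ra) + x * (-(k ^ 2 + kcot k (x - ra) ^ 2))) x := by
        have := ((hasDerivAt_id' x).mul e0).sub_const (1 / 2)
        rw [one_mul] at this
        exact this
      have e2 : HasDerivAt (fun ρ => f ρ ^ 2) (2 * f x * deriv f x) x := by
        have := (hd x).fun_pow 2
        simpa [mul_comm, mul_assoc, mul_left_comm] using this
      exact e1.mul e2
    have hint : IntervalIntegrable (fun x => (kcot k (x - ra) + x * (-(k ^ 2 + kcot k (x - ra) ^ 2))) * f x ^ 2
          + (x * kcot k (x - ra) - 1 / 2) * (2 * f x * deriv f x))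
        volume rb R := by
      apply ContinuousOn.intervalIntegrable
      rw [hu]
      fun_prop
    have hftc := intervalIntegral.integral_eq_sub_of_hasDerivAt hder hint
    have hle : ∫ x in rb..R, (((kcot k (x - ra) + x * (-(k ^ 2 + kcot k (x - ra) ^ 2))) * f x ^ 2
          + (x * kcot k (x - ra) - 1 / 2) * (2 * f x * deriv f x))
        + (k ^ 2 - 1 / (4 * rb ^ 2)) * (x * f x ^ 2)) ≤ ∫ ρ in rb..R, ρ * deriv f ρ ^ 2 := by
      apply intervalIntegral.integral_mono_on hbR
      · apply ContinuousOn.intervalIntegrable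
        rw [hu]; fun_prop
      · apply Continuous.intervalIntegrable; fun_prop
      · intro x hx
        have hx0 : 0 < x := lt_of_lt_of_le hrb hx.1
        have e : x * deriv f x ^ 2 - (((kcot k (x - ra) + x * (-(k ^ 2 + kcot k (x - ra) ^ 2))) * f x ^ 2
          + (x * kcot k (x - ra) - 1 / 2) * (2 * f x * deriv f x))
          + (k ^ 2 - 1 / (4 * rb ^ 2)) * (x * f x ^ 2)) =
            x * (deriv f x - (kcot k (x - ra) - 1 / (2 * x)) * f x) ^ 2
            + (x / (4 * rb ^ 2) - 1 / (4 * x)) * f x ^ 2 := by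
          field_simp
          ring
        have h3 : 0 ≤ x / (4 * rb ^ 2) - 1 / (4 * x) := by
          rw [sub_nonneg, div_le_div_iff₀ (by positivity) (by positivity)]
          nlinarith [hx.1, mul_self_le_mul_self hrb.le hx.1]
        have h4 : 0 ≤ x * (deriv f x - (kcot k (x - ra) - 1 / (2 * x)) * f x) ^ 2
            + (x / (4 * rb ^ 2) - 1 / (4 * x)) * f x ^ 2 := by positivity
        linarith
    rw [intervalIntegral.integral_add hint (by apply Continuous.intervalIntegrable; fun_prop), hftc,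
      intervalIntegral.integral_const_mul, hfR] at hle
    simp only [ne_eq, OfNat.ofNat_ne_zero, not_false_eq_true, zero_pow, mul_zero, zero_sub] at hle
    linarith
  have h3 : 0 ≤ (K * rb - (rb * kcot k (rb - ra) - 1 / 2)) * f rb ^ 2 := by
    apply mul_nonneg _ (sq_nonneg _)
    have : rb * (kcot k (rb - ra) - 1 / (2 * rb)) ≤ rb * K := mul_le_mul_of_nonneg_left hKc hrb.le
    have e : rb * (kcot k (rb - ra) - 1 / (2 * rb)) = rb * kcot k (rb - ra) - 1 / 2 := by
      field_simp
    linarith
  linarith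

end Pool.Agent.H63.Star
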