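import Mathlib
import Pool.Agent.H63.Star.OneDim
import Pool.Agent.H63.Star.Radial

open MeasureTheory Set Filter Topology
open scoped Real ENNReal NNReal

namespace Pool.Agent.H63.Star

lemma lintegral_Ioc_ofReal {a b : ℝ} (hab : a ≤ b) {g : ℝ → ℝ} (hg : Continuous g)
    (hnn : ∀ x ∈ Ioc a b, 0 ≤ g x) :
    ∫⁻ x in Ioc a b, ENNReal.ofReal (g x) = ENNReal.ofReal (∫ x in a..b, g x) := by
  rw [intervalIntegral.integral_of_le hab]
  rw [ofReal_integral_eq_lintegral_ofReal]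
  · exact (hg.integrableOn_Icc (a := a) (b := b)).mono_set Ioc_subset_Icc_self
  · exact (ae_restrict_iff' measurableSet_Ioc).2 (Eventually.of_forall hnn)

theorem lradial {f : ℝ → ℝ} (hf : ContDiff ℝ 1 f) {ra rb R k K Λ m : ℝ} (hrb : 0 < rb) (hab : ra < rb)
    (hbR : rb ≤ R) (hk : 0 < k) (hkR : k * (R - ra) < π) (hK : 0 ≤ K)
    (hKc : kcot k (rb - ra) - 1 / (2 * rb) ≤ K) (hfR : ∀ x, R ≤ x → f x = 0)
    (hm0 : 0 ≤ m) (hm : m = k ^ 2 - 1 / (4 * rb ^ 2)) (hΛ : m + (2 * K / rb + K ^ 2) ≤ Λ) :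
    ENNReal.ofReal m * ∫⁻ ρ in Ioi (0 : ℝ), ENNReal.ofReal ρ * ENNReal.ofReal (f ρ ^ 2) ≤
      ∫⁻ ρ in Ioi (0 : ℝ), ENNReal.ofReal ρ * (ENNReal.ofReal (deriv f ρ ^ 2)
        + (Iio rb).indicator (fun _ => ENNReal.ofReal Λ) ρ * ENNReal.ofReal (f ρ ^ 2)) := by
  have hR : 0 < R := lt_of_lt_of_le hrb hbR
  have hfc : Continuous f := hf.continuous
  have hdc : Continuous (deriv f) := hf.continuous_deriv le_rfl
  have hΛ0 : 0 ≤ Λ := le_trans (by positivity) hΛ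
  have key := radial hf hrb hab hbR hk hkR hK hKc (hfR R le_rfl)
  rw [← hm] at key
  have c1 : Continuous (fun ρ => ρ * f ρ ^ 2) := by fun_prop
  have c2 : Continuous (fun ρ => ρ * deriv f ρ ^ 2) := by fun_prop
  have e1 : ∫⁻ ρ in Ioi (0 : ℝ), ENNReal.ofReal ρ * ENNReal.ofReal (f ρ ^ 2)
      = ENNReal.ofReal (∫ ρ in (0:ℝ)..R, ρ * f ρ ^ 2) := by
    rw [← lintegral_Ioc_ofReal hR.le c1 (fun x hx => mul_nonneg hx.1.le (sq_nonneg _))]
    rw [← Ioc_union_Ioi_eq_Ioi hR.le, lintegral_union measurableSet_Ioi (Ioc_disjoint_Ioi le_rfl)]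
    have z : ∫⁻ ρ in Ioi R, ENNReal.ofReal ρ * ENNReal.ofReal (f ρ ^ 2) = 0 := by
      rw [setLIntegral_congr_fun (g := fun _ => 0) measurableSet_Ioi]
      · simp
      · intro x hx
        simp [hfR x (le_of_lt hx)]
    rw [z, add_zero]
    apply setLIntegral_congr_fun measurableSet_Ioc
    intro x hx
    simp only
    rw [← ENNReal.ofReal_mul hx.1.le]
  have e2 : ENNReal.ofReal (∫ ρ in (0:ℝ)..R, ρ * deriv f ρ ^ 2) ≤
      ∫⁻ ρ in Ioi (0 : ℝ), ENNReal.ofReal ρ * ENNReal.ofReal (deriv f ρ ^ 2) := by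
    rw [← lintegral_Ioc_ofReal hR.le c2 (fun x hx => mul_nonneg hx.1.le (sq_nonneg _))]
    calc _ = ∫⁻ x in Ioc 0 R, ENNReal.ofReal x * ENNReal.ofReal (deriv f x ^ 2) := by
          apply setLIntegral_congr_fun measurableSet_Ioc
          intro x hx
          simp only
          rw [← ENNReal.ofReal_mul hx.1.le]
      _ ≤ _ := lintegral_mono_set Ioc_subset_Ioi_self
  have e3 : ENNReal.ofReal (Λ * ∫ ρ in (0:ℝ)..rb, ρ * f ρ ^ 2) ≤
      ∫⁻ ρ in Ioi (0 : ℝ), ENNReal.ofReal ρ * ((Iio rb).indicator (fun _ => ENNReal.ofReal Λ) ρ * ENNReal.ofReal (f ρ ^ 2)) := by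
    rw [ENNReal.ofReal_mul hΛ0, ← lintegral_Ioc_ofReal hrb.le c1 (fun x hx => mul_nonneg hx.1.le (sq_nonneg _))]
    rw [← lintegral_const_mul _ (by fun_prop)]
    calc _ = ∫⁻ x in Ioo 0 rb, ENNReal.ofReal Λ * ENNReal.ofReal (x * f x ^ 2) := by
          rw [restrict_Ioo_eq_restrict_Ioc]
      _ = ∫⁻ x in Ioo 0 rb, ENNReal.ofReal x * ((Iio rb).indicator (fun _ => ENNReal.ofReal Λ) x * ENNReal.ofReal (f x ^ 2)) := by
          apply setLIntegral_congr_fun measurableSet_Ioo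
          intro x hx
          simp only
          rw [indicator_of_mem (show x ∈ Iio rb from hx.2), ENNReal.ofReal_mul hx.1.le]
          ring
      _ ≤ _ := lintegral_mono_set Ioo_subset_Ioi_self
  have hsplit1 : ∫ ρ in (0:ℝ)..R, ρ * f ρ ^ 2 = (∫ ρ in (0:ℝ)..rb, ρ * f ρ ^ 2) + ∫ ρ in rb..R, ρ * f ρ ^ 2 :=
    (intervalIntegral.integral_add_adjacent_intervals (c1.intervalIntegrable _ _) (c1.intervalIntegrable _ _)).symm
  have hsplit2 : ∫ ρ in (0:ℝ)..R, ρ * deriv f ρ ^ 2 = (∫ ρ in (0:ℝ)..rb, ρ * deriv f ρ ^ 2) + ∫ ρ in rb..R, ρ * deriv f ρ ^ 2 :=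
    (intervalIntegral.integral_add_adjacent_intervals (c2.intervalIntegrable _ _) (c2.intervalIntegrable _ _)).symm
  have hnn : 0 ≤ ∫ ρ in (0:ℝ)..rb, ρ * f ρ ^ 2 :=
    intervalIntegral.integral_nonneg hrb.le (fun x hx => mul_nonneg hx.1 (sq_nonneg _))
  have hnn2 : 0 ≤ ∫ ρ in (0:ℝ)..R, ρ * deriv f ρ ^ 2 :=
    intervalIntegral.integral_nonneg hR.le (fun x hx => mul_nonneg hx.1 (sq_nonneg _))
  rw [e1, ← ENNReal.ofReal_mul hm0]
  calc ENNReal.ofReal (m * ∫ ρ in (0:ℝ)..R, ρ * f ρ ^ 2)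
      ≤ ENNReal.ofReal ((∫ ρ in (0:ℝ)..R, ρ * deriv f ρ ^ 2) + Λ * ∫ ρ in (0:ℝ)..rb, ρ * f ρ ^ 2) := by
        apply ENNReal.ofReal_le_ofReal
        rw [hsplit1, hsplit2]
        have := mul_le_mul_of_nonneg_right hΛ hnn
        nlinarith
    _ = ENNReal.ofReal (∫ ρ in (0:ℝ)..R, ρ * deriv f ρ ^ 2) + ENNReal.ofReal (Λ * ∫ ρ in (0:ℝ)..rb, ρ * f ρ ^ 2) :=
        ENNReal.ofReal_add hnn2 (mul_nonneg hΛ0 hnn)
    _ ≤ _ := add_le_add e2 e3
    _ = _ := by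
        rw [← lintegral_add_left (by fun_prop)]
        congr 1
        ext ρ
        ring

theorem lazimuth {f : ℝ → ℝ} (hf : ContDiff ℝ 1 f) (hper : Function.Periodic f (2 * π))
    {ψ0 : ℝ} (h0 : f ψ0 = 0) {G : Set ℝ} (hG : MeasurableSet G)
    (hGper : ∀ x, x + 2 * π ∈ G ↔ x ∈ G) (hGv : volume (G ∩ Ioo (-π) π) ≤ ENNReal.ofReal (5 * π / 3)) :
    ENNReal.ofReal ((59 / 100 : ℝ) ^ 2) * (∫⁻ x in Ioo (-π) π, ENNReal.ofReal (f x ^ 2)) ≤
      ∫⁻ x in Ioo (-π) π, (ENNReal.ofReal (deriv f x ^ 2)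
        + Gᶜ.indicator (fun _ => ENNReal.ofReal 1300) x * ENNReal.ofReal (f x ^ 2)) := by
  have key := azimuth hf hper h0 hG hGper hGv
  have hpi := Real.pi_pos
  have hfc : Continuous f := hf.continuous
  have hdc : Continuous (deriv f) := hf.continuous_deriv le_rfl
  have c1 : Continuous (fun ρ => f ρ ^ 2) := by fun_prop
  have c2 : Continuous (fun ρ => deriv f ρ ^ 2) := by fun_prop
  have hle : (-π : ℝ) ≤ π := by linarith
  have e1 : ∫⁻ x in Ioo (-π) π, ENNReal.ofReal (f x ^ 2) = ENNReal.ofReal (∫ x in (-π)..π, f x ^ 2) := by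
    rw [restrict_Ioo_eq_restrict_Ioc, lintegral_Ioc_ofReal hle c1 (fun x _ => sq_nonneg _)]
  have e2 : ∫⁻ x in Ioo (-π) π, ENNReal.ofReal (deriv f x ^ 2) = ENNReal.ofReal (∫ x in (-π)..π, deriv f x ^ 2) := by
    rw [restrict_Ioo_eq_restrict_Ioc, lintegral_Ioc_ofReal hle c2 (fun x _ => sq_nonneg _)]
  have e3 : ∫⁻ x in Ioo (-π) π, (Gᶜ.indicator (fun _ => ENNReal.ofReal 1300) x * ENNReal.ofReal (f x ^ 2))
      = ENNReal.ofReal (1300 * ∫ x in (-π)..π, Gᶜ.indicator (fun x => f x ^ 2) x) := by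
    rw [restrict_Ioo_eq_restrict_Ioc, ENNReal.ofReal_mul (by norm_num), intervalIntegral.integral_of_le hle,
      ofReal_integral_eq_lintegral_ofReal, ← lintegral_const_mul]
    · congr 1
      ext x
      by_cases hx : x ∈ Gᶜ
      · rw [indicator_of_mem hx, indicator_of_mem hx]
      · rw [indicator_of_notMem hx, indicator_of_notMem hx]; simp
    · exact (c1.measurable.indicator hG.compl).ennreal_ofReal
    · have : IntegrableOn (fun x => f x ^ 2) (Ioc (-π) π) :=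
        (c1.integrableOn_Icc).mono_set Ioc_subset_Icc_self
      exact this.indicator hG.compl
    · exact Eventually.of_forall (fun x => indicator_nonneg (fun x _ => sq_nonneg _) x)
  rw [lintegral_add_left (by fun_prop), e1, e2, e3, ← ENNReal.ofReal_mul (by positivity),
    ← ENNReal.ofReal_add]
  · exact ENNReal.ofReal_le_ofReal key
  · exact intervalIntegral.integral_nonneg hle (fun x _ => sq_nonneg _)
  · apply mul_nonneg (by norm_num)
    exact intervalIntegral.integral_nonneg hle (fun x _ => indicator_nonneg (fun x _ => sq_nonneg _) x)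

end Pool.Agent.H63.Star
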