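import Mathlib
import Pool.Agent.H63.Star.LForms

open MeasureTheory Set Filter Topology
open scoped Real ENNReal NNReal

namespace Pool.Agent.H63.Star

/-- polar map centred at `c` -/
noncomputable def pol (c : ℝ × ℝ) (p : ℝ × ℝ) : ℝ × ℝ :=
  (c.1 + p.1 * Real.cos p.2, c.2 + p.1 * Real.sin p.2)

lemma pol_contDiff (c : ℝ × ℝ) : ContDiff ℝ 1 (pol c) := by
  unfold pol
  fun_prop

lemma lintegral_pol (c : ℝ × ℝ) (F : ℝ × ℝ → ℝ≥0∞) :
    ∫⁻ p in (Ioi (0 : ℝ) ×ˢ Ioo (-π) π), ENNReal.ofReal p.1 * F (pol c p) = ∫⁻ x, F x := by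
  have h1 : ∫⁻ x, F x = ∫⁻ x, F (c + x) := (lintegral_add_left_eq_self F c).symm
  rw [h1, ← lintegral_comp_polarCoord_symm]
  rfl

theorem planar {g : ℝ × ℝ → ℝ} (hg : ContDiff ℝ 1 g) (c : ℝ × ℝ) {ra rb R k K Λ m Ma : ℝ}
    (hrb : 0 < rb) (hab : ra < rb) (hbR : rb ≤ R) (hk : 0 < k) (hkR : k * (R - ra) < π) (hK : 0 ≤ K)
    (hKc : kcot k (rb - ra) - 1 / (2 * rb) ≤ K) (hm0 : 0 ≤ m) (hm : m = k ^ 2 - 1 / (4 * rb ^ 2))
    (hΛ : m + (2 * K / rb + K ^ 2) ≤ Λ) (hMa : Ma = (59 / 100) ^ 2 / R ^ 2)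
    (hout : ∀ ρ ψ, R ≤ ρ → g (pol c (ρ, ψ)) = 0)
    {W : ℝ × ℝ → ℝ≥0∞} (hW : Measurable W)
    (hW1 : ∀ ρ ψ, 0 < ρ → ρ < rb → ENNReal.ofReal (Λ + Ma) ≤ W (pol c (ρ, ψ)))
    (hW2 : ∀ ρ, rb ≤ ρ → ρ < R → ∃ G : Set ℝ, MeasurableSet G ∧ (∀ x, x + 2 * π ∈ G ↔ x ∈ G) ∧
      volume (G ∩ Ioo (-π) π) ≤ ENNReal.ofReal (5 * π / 3) ∧
      ∀ ψ ∉ G, ENNReal.ofReal (1300 / rb ^ 2) ≤ W (pol c (ρ, ψ)))
    (hz : ∀ ρ, rb ≤ ρ → ρ < R → ∃ ψ0, g (pol c (ρ, ψ0)) = 0) :
    ENNReal.ofReal (m + Ma) * ∫⁻ x, ENNReal.ofReal (g x ^ 2) ≤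
      ∫⁻ x, (ENNReal.ofReal (fderiv ℝ g x (1, 0) ^ 2 + fderiv ℝ g x (0, 1) ^ 2)
        + W x * ENNReal.ofReal (g x ^ 2)) := by
  have hR : 0 < R := lt_of_lt_of_le hrb hbR
  have hMa0 : 0 ≤ Ma := by rw [hMa]; positivity
  have hΛ0 : 0 ≤ Λ := le_trans (by positivity) hΛ
  set Gt : ℝ → ℝ → ℝ := fun ρ ψ => g (pol c (ρ, ψ)) with hGt
  have hGtc : ContDiff ℝ 1 (Function.uncurry Gt) := hg.comp (pol_contDiff c)
  have hgd : Differentiable ℝ g := hg.differentiable one_ne_zero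
  -- partial derivatives
  have hder1 : ∀ ρ ψ, HasDerivAt (fun r => Gt r ψ)
      (Real.cos ψ * fderiv ℝ g (pol c (ρ, ψ)) (1, 0) + Real.sin ψ * fderiv ℝ g (pol c (ρ, ψ)) (0, 1)) ρ := by
    intro ρ ψ
    have h1 : HasDerivAt (fun r : ℝ => pol c (r, ψ)) (Real.cos ψ, Real.sin ψ) ρ := by
      unfold pol
      apply HasDerivAt.prodMk
      · simpa using ((hasDerivAt_id' ρ).mul_const (Real.cos ψ)).const_add c.1
      · simpa using ((hasDerivAt_id' ρ).mul_const (Real.sin ψ)).const_add c.2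
    have h2 := (hgd (pol c (ρ, ψ))).hasFDerivAt.comp_hasDerivAt ρ h1
    have e : ((Real.cos ψ, Real.sin ψ) : ℝ × ℝ) = Real.cos ψ • ((1, 0) : ℝ × ℝ) + Real.sin ψ • ((0, 1) : ℝ × ℝ) := by
      ext <;> simp
    rw [e, map_add, map_smul, map_smul] at h2
    exact h2
  have hder2 : ∀ ρ ψ, HasDerivAt (fun t => Gt ρ t)
      (ρ * (-Real.sin ψ * fderiv ℝ g (pol c (ρ, ψ)) (1, 0) + Real.cos ψ * fderiv ℝ g (pol c (ρ, ψ)) (0, 1))) ψ := by
    intro ρ ψ
    have h1 : HasDerivAt (fun t : ℝ => pol c (ρ, t)) (ρ * -Real.sin ψ, ρ * Real.cos ψ) ψ := by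
      unfold pol
      apply HasDerivAt.prodMk
      · exact ((Real.hasDerivAt_cos ψ).const_mul ρ).const_add c.1
      · exact ((Real.hasDerivAt_sin ψ).const_mul ρ).const_add c.2
    have h2 := (hgd (pol c (ρ, ψ))).hasFDerivAt.comp_hasDerivAt ψ h1
    have e : ((ρ * -Real.sin ψ, ρ * Real.cos ψ) : ℝ × ℝ) = (ρ * -Real.sin ψ) • ((1, 0) : ℝ × ℝ) + (ρ * Real.cos ψ) • ((0, 1) : ℝ × ℝ) := by
      ext <;> simp
    rw [e, map_add, map_smul, map_smul] at h2
    have e2 : ρ * (-Real.sin ψ * fderiv ℝ g (pol c (ρ, ψ)) (1, 0) + Real.cos ψ * fderiv ℝ g (pol c (ρ, ψ)) (0, 1))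
        = (ρ * -Real.sin ψ) • fderiv ℝ g (pol c (ρ, ψ)) (1, 0) + (ρ * Real.cos ψ) • fderiv ℝ g (pol c (ρ, ψ)) (0, 1) := by
      simp only [smul_eq_mul]; ring
    rw [e2]
    exact h2
  have hpy : ∀ ρ ψ, 0 < ρ → deriv (fun r => Gt r ψ) ρ ^ 2 + (1 / ρ ^ 2) * deriv (fun t => Gt ρ t) ψ ^ 2 =
      fderiv ℝ g (pol c (ρ, ψ)) (1, 0) ^ 2 + fderiv ℝ g (pol c (ρ, ψ)) (0, 1) ^ 2 := by
    intro ρ ψ hρ
    rw [(hder1 ρ ψ).deriv, (hder2 ρ ψ).deriv]
    have h := Real.sin_sq_add_cos_sq ψ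
    have hρ' : ρ ≠ 0 := hρ.ne'
    field_simp
    have h2 : Real.cos ψ ^ 2 = 1 - Real.sin ψ ^ 2 := by linarith
    ring_nf
    rw [h2]
    ring
  -- measurability
  have mG : Measurable (fun p : ℝ × ℝ => Gt p.1 p.2) := hGtc.continuous.measurable
  have cd1 : Continuous (fun p : ℝ × ℝ => deriv (fun r => Gt r p.2) p.1) := by
    have : (fun p : ℝ × ℝ => deriv (fun r => Gt r p.2) p.1) = fun p =>
        Real.cos p.2 * fderiv ℝ g (pol c (p.1, p.2)) (1, 0) + Real.sin p.2 * fderiv ℝ g (pol c (p.1, p.2)) (0, 1) := by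
      ext p; exact (hder1 p.1 p.2).deriv
    rw [this]
    have hf : Continuous (fun p : ℝ × ℝ => fderiv ℝ g (pol c (p.1, p.2))) :=
      (hg.continuous_fderiv one_ne_zero).comp ((pol_contDiff c).continuous)
    have h1 : Continuous (fun p : ℝ × ℝ => fderiv ℝ g (pol c (p.1, p.2)) (1, 0)) := hf.clm_apply continuous_const
    have h2 : Continuous (fun p : ℝ × ℝ => fderiv ℝ g (pol c (p.1, p.2)) (0, 1)) := hf.clm_apply continuous_const
    fun_prop
  have cd2 : Continuous (fun p : ℝ × ℝ => deriv (fun t => Gt p.1 t) p.2) := by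
    have : (fun p : ℝ × ℝ => deriv (fun t => Gt p.1 t) p.2) = fun p =>
        p.1 * (-Real.sin p.2 * fderiv ℝ g (pol c (p.1, p.2)) (1, 0) + Real.cos p.2 * fderiv ℝ g (pol c (p.1, p.2)) (0, 1)) := by
      ext p; exact (hder2 p.1 p.2).deriv
    rw [this]
    have hf : Continuous (fun p : ℝ × ℝ => fderiv ℝ g (pol c (p.1, p.2))) :=
      (hg.continuous_fderiv one_ne_zero).comp ((pol_contDiff c).continuous)
    have h1 : Continuous (fun p : ℝ × ℝ => fderiv ℝ g (pol c (p.1, p.2)) (1, 0)) := hf.clm_apply continuous_const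
    have h2 : Continuous (fun p : ℝ × ℝ => fderiv ℝ g (pol c (p.1, p.2)) (0, 1)) := hf.clm_apply continuous_const
    fun_prop
  -- the two pieces
  set A : ℝ × ℝ → ℝ≥0∞ := fun p => ENNReal.ofReal p.1 * ENNReal.ofReal (Gt p.1 p.2 ^ 2) with hA
  set Rad : ℝ × ℝ → ℝ≥0∞ := fun p => ENNReal.ofReal p.1 * (ENNReal.ofReal (deriv (fun r => Gt r p.2) p.1 ^ 2)
        + (Iio rb).indicator (fun _ => ENNReal.ofReal Λ) p.1 * ENNReal.ofReal (Gt p.1 p.2 ^ 2)) with hRad
  set Wa : ℝ × ℝ → ℝ≥0∞ := fun p => (Iio rb).indicator (fun _ => ENNReal.ofReal Ma) p.1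
      + (Ici rb).indicator (fun _ => W (pol c p)) p.1 with hWa
  set Azi : ℝ × ℝ → ℝ≥0∞ := fun p => ENNReal.ofReal p.1 * (ENNReal.ofReal ((1 / p.1 ^ 2) * deriv (fun t => Gt p.1 t) p.2 ^ 2)
        + Wa p * ENNReal.ofReal (Gt p.1 p.2 ^ 2)) with hAzi
  have mA : Measurable A := by
    rw [hA]
    exact (measurable_fst.ennreal_ofReal).mul ((mG.pow_const 2).ennreal_ofReal)
  have mRad : Measurable Rad := by
    rw [hRad]
    have u1 : Measurable (fun p : ℝ × ℝ => ENNReal.ofReal (deriv (fun r => Gt r p.2) p.1 ^ 2)) :=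
      (cd1.measurable.pow_const 2).ennreal_ofReal
    have u2 : Measurable (fun p : ℝ × ℝ => (Iio rb).indicator (fun _ => ENNReal.ofReal Λ) p.1) :=
      (measurable_const.indicator measurableSet_Iio).comp measurable_fst
    have u3 : Measurable (fun p : ℝ × ℝ => ENNReal.ofReal (Gt p.1 p.2 ^ 2)) := (mG.pow_const 2).ennreal_ofReal
    exact (measurable_fst.ennreal_ofReal).mul (u1.add (u2.mul u3))
  have mWa : Measurable Wa := by
    rw [hWa]
    apply Measurable.add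
    · exact (measurable_const.indicator measurableSet_Iio).comp measurable_fst
    · have : (fun p : ℝ × ℝ => (Ici rb).indicator (fun _ => W (pol c p)) p.1)
          = (Prod.fst ⁻¹' (Ici rb)).indicator (fun p => W (pol c p)) := by
        ext p
        by_cases hp : p.1 ∈ Ici rb
        · rw [indicator_of_mem hp, indicator_of_mem (show p ∈ Prod.fst ⁻¹' (Ici rb) from hp)]
        · rw [indicator_of_notMem hp, indicator_of_notMem (show p ∉ Prod.fst ⁻¹' (Ici rb) from hp)]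
      rw [this]
      exact (hW.comp (pol_contDiff c).continuous.measurable).indicator (measurable_fst measurableSet_Ici)
  have mAzi : Measurable Azi := by
    rw [hAzi]
    have u1 : Measurable (fun p : ℝ × ℝ => ENNReal.ofReal ((1 / p.1 ^ 2) * deriv (fun t => Gt p.1 t) p.2 ^ 2)) :=
      (((measurable_const.div (measurable_fst.pow_const 2))).mul (cd2.measurable.pow_const 2)).ennreal_ofReal
    have u3 : Measurable (fun p : ℝ × ℝ => ENNReal.ofReal (Gt p.1 p.2 ^ 2)) := (mG.pow_const 2).ennreal_ofReal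
    exact (measurable_fst.ennreal_ofReal).mul (u1.add (mWa.mul u3))
  have hprod : (volume : Measure (ℝ × ℝ)).restrict (Ioi (0 : ℝ) ×ˢ Ioo (-π) π)
      = (volume.restrict (Ioi (0:ℝ))).prod (volume.restrict (Ioo (-π) π)) := by
    rw [Measure.prod_restrict, Measure.volume_eq_prod]
  -- radial estimate
  have hrad : ENNReal.ofReal m * ∫⁻ p in (Ioi (0 : ℝ) ×ˢ Ioo (-π) π), A p ≤ ∫⁻ p in (Ioi (0 : ℝ) ×ˢ Ioo (-π) π), Rad p := by
    rw [hprod, lintegral_prod_symm _ mA.aemeasurable, lintegral_prod_symm _ mRad.aemeasurable,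
      ← lintegral_const_mul _ mA.lintegral_prod_left']
    apply lintegral_mono
    intro ψ
    have hf : ContDiff ℝ 1 (fun r => Gt r ψ) := hGtc.comp (contDiff_id.prodMk contDiff_const)
    exact lradial hf hrb hab hbR hk hkR hK hKc (fun ρ hρ => hout ρ ψ hρ) hm0 hm hΛ
  have hazi : ENNReal.ofReal Ma * ∫⁻ p in (Ioi (0 : ℝ) ×ˢ Ioo (-π) π), A p ≤ ∫⁻ p in (Ioi (0 : ℝ) ×ˢ Ioo (-π) π), Azi p := by
    rw [hprod, lintegral_prod _ mA.aemeasurable, lintegral_prod _ mAzi.aemeasurable,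
      ← lintegral_const_mul _ mA.lintegral_prod_right']
    apply setLIntegral_mono' measurableSet_Ioi
    intro ρ hρ
    have hρ0 : (0:ℝ) < ρ := hρ
    have hf : ContDiff ℝ 1 (fun t => Gt ρ t) := hGtc.comp (contDiff_const.prodMk contDiff_id)
    have mg : Measurable (fun ψ => ENNReal.ofReal (Gt ρ ψ ^ 2)) := by
      have : Continuous (fun ψ => Gt ρ ψ) := hf.continuous
      fun_prop
    simp only [hA, hAzi]
    rw [lintegral_const_mul _ mg, lintegral_const_mul _ (by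
      have h1 : Measurable (fun ψ => Wa (ρ, ψ)) := mWa.comp measurable_prodMk_left
      have h2 : Measurable (fun ψ => deriv (fun t => Gt ρ t) ψ) := cd2.measurable.comp measurable_prodMk_left
      exact ((h2.pow_const 2).const_mul _).ennreal_ofReal.add (h1.mul mg))]
    rw [← mul_assoc, mul_comm (ENNReal.ofReal Ma), mul_assoc]
    refine mul_le_mul' le_rfl ?_
    rw [← lintegral_const_mul _ mg]
    by_cases h1 : ρ < rb
    · apply lintegral_mono
      intro ψ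
      simp only [hWa]
      rw [indicator_of_mem (show ρ ∈ Iio rb from h1)]
      calc _ ≤ (ENNReal.ofReal Ma + (Ici rb).indicator (fun x => W (pol c (ρ, ψ))) ρ) * ENNReal.ofReal (Gt ρ ψ ^ 2) := by
            gcongr; exact le_self_add
        _ ≤ _ := le_add_self
    · push Not at h1
      by_cases h2 : ρ < R
      · obtain ⟨G, hGm, hGper, hGv, hGW⟩ := hW2 ρ h1 h2
        obtain ⟨ψ0, hψ0⟩ := hz ρ h1 h2
        have hper : Function.Periodic (fun t => Gt ρ t) (2 * π) := by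
          intro t
          simp only [hGt, pol, Real.cos_add_two_pi, Real.sin_add_two_pi]
        have key := lazimuth hf hper hψ0 hGm hGper hGv
        have hρ2 : 0 < ρ ^ 2 := by positivity
        have key2 : ENNReal.ofReal (1 / ρ ^ 2) * (ENNReal.ofReal ((59 / 100 : ℝ) ^ 2) * (∫⁻ x in Ioo (-π) π, ENNReal.ofReal (Gt ρ x ^ 2))) ≤
          ENNReal.ofReal (1 / ρ ^ 2) * ∫⁻ x in Ioo (-π) π, (ENNReal.ofReal (deriv (fun t => Gt ρ t) x ^ 2)
            + Gᶜ.indicator (fun _ => ENNReal.ofReal 1300) x * ENNReal.ofReal (Gt ρ x ^ 2)) := by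
          gcongr
        rw [lintegral_const_mul _ mg]
        calc ENNReal.ofReal Ma * ∫⁻ x in Ioo (-π) π, ENNReal.ofReal (Gt ρ x ^ 2)
            ≤ ENNReal.ofReal (1 / ρ ^ 2) * (ENNReal.ofReal ((59 / 100 : ℝ) ^ 2) * (∫⁻ x in Ioo (-π) π, ENNReal.ofReal (Gt ρ x ^ 2))) := by
              rw [← mul_assoc, ← ENNReal.ofReal_mul (by positivity)]
              gcongr
              rw [hMa, one_div_mul_eq_div]
              gcongr
          _ ≤ _ := key2
          _ ≤ _ := by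
              rw [← lintegral_const_mul _ (by
                have h2 : Measurable (fun ψ => deriv (fun t => Gt ρ t) ψ) := cd2.measurable.comp measurable_prodMk_left
                exact ((h2.pow_const 2)).ennreal_ofReal.add ((measurable_const.indicator hGm.compl).mul mg))]
              apply lintegral_mono
              intro ψ
              simp only [hWa]
              rw [indicator_of_notMem (show ρ ∉ Iio rb from not_lt.2 h1), zero_add,
                indicator_of_mem (show ρ ∈ Ici rb from h1), mul_add, ← mul_assoc, ENNReal.ofReal_mul (by positivity)]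
              refine add_le_add le_rfl (mul_le_mul' ?_ le_rfl)
              by_cases hψ : ψ ∈ G
              · rw [indicator_of_notMem (show ψ ∉ Gᶜ from not_not.2 hψ)]; simp
              · rw [indicator_of_mem (show ψ ∈ Gᶜ from hψ), ← ENNReal.ofReal_mul (by positivity)]
                refine le_trans ?_ (hGW ψ hψ)
                apply ENNReal.ofReal_le_ofReal
                rw [one_div_mul_eq_div]
                gcongr
      · push Not at h2
        have : ∀ ψ, Gt ρ ψ = 0 := fun ψ => hout ρ ψ h2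
        calc _ = ∫⁻ ψ in Ioo (-π) π, 0 := by
              congr 1; ext ψ; simp [this ψ]
          _ ≤ _ := by simp
  -- conclusion
  rw [← lintegral_pol c, ← lintegral_pol c (fun x => ENNReal.ofReal (fderiv ℝ g x (1, 0) ^ 2 + fderiv ℝ g x (0, 1) ^ 2)
        + W x * ENNReal.ofReal (g x ^ 2))]
  change ENNReal.ofReal (m + Ma) * ∫⁻ p in (Ioi (0 : ℝ) ×ˢ Ioo (-π) π), A p ≤ _
  rw [ENNReal.ofReal_add hm0 hMa0, add_mul]
  refine (add_le_add hrad hazi).trans ?_
  rw [← lintegral_add_left mRad]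
  apply setLIntegral_mono' (measurableSet_Ioi.prod measurableSet_Ioo)
  rintro ⟨ρ, ψ⟩ hp
  have hρ : 0 < ρ := hp.1
  simp only [hRad, hAzi]
  rw [← mul_add]
  refine mul_le_mul' le_rfl ?_
  rw [← hpy ρ ψ hρ, ENNReal.ofReal_add (sq_nonneg _) (by positivity)]
  have hWle : (Iio rb).indicator (fun _ => ENNReal.ofReal Λ) ρ + Wa (ρ, ψ) ≤ W (pol c (ρ, ψ)) := by
    simp only [hWa]
    by_cases h1 : ρ < rb
    · rw [indicator_of_mem (show ρ ∈ Iio rb from h1), indicator_of_mem (show ρ ∈ Iio rb from h1),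
        indicator_of_notMem (show ρ ∉ Ici rb from not_le.2 h1), add_zero, ← ENNReal.ofReal_add hΛ0 hMa0]
      exact hW1 ρ ψ hρ h1
    · rw [indicator_of_notMem (show ρ ∉ Iio rb from h1), indicator_of_notMem (show ρ ∉ Iio rb from h1),
        indicator_of_mem (show ρ ∈ Ici rb from not_lt.1 h1)]
      simp
  calc _ = (ENNReal.ofReal (deriv (fun r => Gt r ψ) ρ ^ 2) + ENNReal.ofReal (1 / ρ ^ 2 * deriv (fun t => Gt ρ t) ψ ^ 2))
        + ((Iio rb).indicator (fun _ => ENNReal.ofReal Λ) ρ + Wa (ρ, ψ)) * ENNReal.ofReal (Gt ρ ψ ^ 2) := by ring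
    _ ≤ _ := add_le_add le_rfl (mul_le_mul' hWle le_rfl)

end Pool.Agent.H63.Star
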