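import Mathlib
import Pool.Agent.H63.Star.Planar

open MeasureTheory Set Filter Topology
open scoped Real ENNReal NNReal

namespace Pool.Agent.H63.Star

/-- squared gradient on `(ℝ × ℝ) × ℝ` -/
noncomputable def gradSq (v : (ℝ × ℝ) × ℝ → ℝ) (x : (ℝ × ℝ) × ℝ) : ℝ :=
  fderiv ℝ v x ((1, 0), 0) ^ 2 + fderiv ℝ v x ((0, 1), 0) ^ 2 + fderiv ℝ v x ((0, 0), 1) ^ 2

lemma zpart {φ : ℝ → ℝ} (hφ : ContDiff ℝ 1 φ) (hsu : HasCompactSupport φ)
    {h L : ℝ} (hh : 0 < h) (hL : 0 < L) (hL2 : L ≤ 2 * h) (hvol : volume {x | φ x ≠ 0} ≤ ENNReal.ofReal L) :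
    (ENNReal.ofReal ((π / (2 * h)) ^ 2) + ENNReal.ofReal ((π / L) ^ 2 - (π / (2 * h)) ^ 2)) *
      ∫⁻ x, ENNReal.ofReal (φ x ^ 2) ≤ ∫⁻ x, ENNReal.ofReal (deriv φ x ^ 2) := by
  have key := lpoincare_support hφ hsu hL hvol
  have hle : (π / (2 * h)) ^ 2 ≤ (π / L) ^ 2 := by
    have := Real.pi_pos
    gcongr
  rw [← ENNReal.ofReal_add (by positivity) (by linarith)]
  have e : (π / (2 * h)) ^ 2 + ((π / L) ^ 2 - (π / (2 * h)) ^ 2) = (π / L) ^ 2 := by ring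
  rw [e]
  exact key

/-- energy lower bound on `(ℝ × ℝ) × ℝ` -/
theorem energyAsm {v : (ℝ × ℝ) × ℝ → ℝ} (hv : ContDiff ℝ 1 v) (hvs : HasCompactSupport v)
    (c : ℝ × ℝ) {ra rb R k K Λ m Ma h θ : ℝ}
    (hrb : 0 < rb) (hab : ra < rb) (hbR : rb ≤ R) (hk : 0 < k) (hkR : k * (R - ra) < π) (hK : 0 ≤ K)
    (hKc : kcot k (rb - ra) - 1 / (2 * rb) ≤ K) (hm0 : 0 ≤ m) (hm : m = k ^ 2 - 1 / (4 * rb ^ 2))
    (hΛ : m + (2 * K / rb + K ^ 2) ≤ Λ) (hMa : Ma = (59 / 100) ^ 2 / R ^ 2)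
    (hh : 0 < h) (hθ0 : 19 / 20 < θ) (hθ1 : θ ≤ 1)
    (hw1 : Λ + Ma ≤ (π / (2 * h * θ)) ^ 2 - (π / (2 * h)) ^ 2)
    (hw2 : 1300 / rb ^ 2 ≤ (π / (19 / 10 * h)) ^ 2 - (π / (2 * h)) ^ 2)
    (hout : ∀ ρ ψ z, R ≤ ρ → v (pol c (ρ, ψ), z) = 0)
    {s : ℝ × ℝ → ℝ≥0∞} (hsm : Measurable s)
    (hsv : ∀ᵐ x', volume {z | v (x', z) ≠ 0} ≤ s x')
    (hs2 : ∀ x', s x' ≤ ENNReal.ofReal (2 * h))
    (hs1 : ∀ ρ ψ, 0 < ρ → ρ < rb → s (pol c (ρ, ψ)) ≤ ENNReal.ofReal (2 * h * θ))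
    (hsG : ∀ ρ, rb ≤ ρ → ρ < R → ∃ G : Set ℝ, MeasurableSet G ∧ (∀ x, x + 2 * π ∈ G ↔ x ∈ G) ∧
      volume (G ∩ Ioo (-π) π) ≤ ENNReal.ofReal (5 * π / 3) ∧
      ∀ ψ ∉ G, s (pol c (ρ, ψ)) ≤ ENNReal.ofReal (19 / 10 * h))
    (hz : ∀ ρ, rb ≤ ρ → ρ < R → ∃ ψ0, ∀ z, v (pol c (ρ, ψ0), z) = 0) :
    ENNReal.ofReal ((π / (2 * h)) ^ 2 + (m + Ma)) * ∫⁻ x, ENNReal.ofReal (v x ^ 2) ≤
      ∫⁻ x, ENNReal.ofReal (gradSq v x) := by
  classical
  have hπ := Real.pi_pos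
  have hR : 0 < R := lt_of_lt_of_le hrb hbR
  have hMa0 : 0 ≤ Ma := by rw [hMa]; positivity
  set w1 : ℝ := (π / (2 * h * θ)) ^ 2 - (π / (2 * h)) ^ 2 with hw1d
  set w2 : ℝ := (π / (19 / 10 * h)) ^ 2 - (π / (2 * h)) ^ 2 with hw2d
  have hw12 : w1 ≤ w2 := by
    rw [hw1d, hw2d]
    have : (π / (2 * h * θ)) ^ 2 ≤ (π / (19 / 10 * h)) ^ 2 := by
      apply pow_le_pow_left₀ (by positivity)
      apply div_le_div_of_nonneg_left hπ.le (by positivity)
      nlinarith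
    linarith
  set W : ℝ × ℝ → ℝ≥0∞ := fun x' => if s x' ≤ ENNReal.ofReal (19 / 10 * h) then ENNReal.ofReal w2
    else if s x' ≤ ENNReal.ofReal (2 * h * θ) then ENNReal.ofReal w1 else 0 with hWd
  have hWm : Measurable W := by
    rw [hWd]
    refine Measurable.ite (measurableSet_le hsm measurable_const) measurable_const ?_
    exact Measurable.ite (measurableSet_le hsm measurable_const) measurable_const measurable_const
  have hvd : Differentiable ℝ v := hv.differentiable one_ne_zero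
  have cfd : Continuous (fun x => fderiv ℝ v x) := hv.continuous_fderiv one_ne_zero
  have c1 : Continuous (fun x => fderiv ℝ v x ((1, 0), 0)) := cfd.clm_apply continuous_const
  have c2 : Continuous (fun x => fderiv ℝ v x ((0, 1), 0)) := cfd.clm_apply continuous_const
  have c3 : Continuous (fun x => fderiv ℝ v x ((0, 0), 1)) := cfd.clm_apply continuous_const
  have mv : Measurable v := hv.continuous.measurable
  -- z-derivative
  have hdz : ∀ x' z, deriv (fun t => v (x', t)) z = fderiv ℝ v (x', z) ((0, 0), 1) := by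
    intro x' z
    have h1 : HasDerivAt (fun t : ℝ => ((x', t) : (ℝ × ℝ) × ℝ)) ((0, 0), 1) z := by
      apply HasDerivAt.prodMk (hasDerivAt_const z x') (hasDerivAt_id z)
    exact ((hvd (x', z)).hasFDerivAt.comp_hasDerivAt z h1).deriv
  have hdx : ∀ z x' (u : ℝ × ℝ), fderiv ℝ (fun y => v (y, z)) x' u = fderiv ℝ v (x', z) (u, 0) := by
    intro z x' u
    have h1 : HasFDerivAt (fun y : ℝ × ℝ => ((y, z) : (ℝ × ℝ) × ℝ)) ((ContinuousLinearMap.id ℝ (ℝ × ℝ)).prod 0) x' :=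
      (hasFDerivAt_id x').prodMk (hasFDerivAt_const z x')
    have h2 := (hvd (x', z)).hasFDerivAt.comp x' h1
    have h3 : fderiv ℝ (fun y => v (y, z)) x' = (fderiv ℝ v (x', z)).comp ((ContinuousLinearMap.id ℝ (ℝ × ℝ)).prod 0) := h2.fderiv
    rw [h3]
    simp
  -- slices are nice
  have hslice : ∀ x', ContDiff ℝ 1 (fun t => v (x', t)) := fun x' =>
    hv.comp (contDiff_const.prodMk contDiff_id)
  have hsliceS : ∀ x', HasCompactSupport (fun t => v (x', t)) := by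
    intro x'
    have : IsCompact (Prod.snd '' tsupport v) := hvs.isCompact.image continuous_snd
    apply HasCompactSupport.intro this
    intro t ht
    by_contra hne
    exact ht ⟨(x', t), subset_tsupport v hne, rfl⟩
  -- z energy
  have hzE : ∫⁻ x' : ℝ × ℝ, (ENNReal.ofReal ((π / (2 * h)) ^ 2) + W x') * ∫⁻ z, ENNReal.ofReal (v (x', z) ^ 2)
      ≤ ∫⁻ x' : ℝ × ℝ, ∫⁻ z, ENNReal.ofReal (fderiv ℝ v (x', z) ((0, 0), 1) ^ 2) := by
    apply lintegral_mono_ae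
    filter_upwards [hsv] with x' hx'
    have e : ∫⁻ z, ENNReal.ofReal (fderiv ℝ v (x', z) ((0, 0), 1) ^ 2) = ∫⁻ z, ENNReal.ofReal (deriv (fun t => v (x', t)) z ^ 2) := by
      congr 1; ext z; rw [hdz]
    rw [e]
    by_cases h1 : s x' ≤ ENNReal.ofReal (19 / 10 * h)
    · have hWx : W x' = ENNReal.ofReal w2 := by simp only [hWd]; rw [if_pos h1]
      rw [hWx]
      exact zpart (hslice x') (hsliceS x') hh (by positivity) (by linarith) (hx'.trans h1)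
    · by_cases h2 : s x' ≤ ENNReal.ofReal (2 * h * θ)
      · have hWx : W x' = ENNReal.ofReal w1 := by simp only [hWd]; rw [if_neg h1, if_pos h2]
        rw [hWx]
        exact zpart (hslice x') (hsliceS x') hh (by positivity) (by nlinarith) (hx'.trans h2)
      · have hWx : W x' = 0 := by simp only [hWd]; rw [if_neg h1, if_neg h2]
        rw [hWx]
        have := zpart (hslice x') (hsliceS x') hh (L := 2 * h) (by positivity) le_rfl (hx'.trans (hs2 x'))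
        simpa using this
  -- planar part for each z
  have hpl : ∀ z, ENNReal.ofReal (m + Ma) * ∫⁻ x' : ℝ × ℝ, ENNReal.ofReal (v (x', z) ^ 2) ≤
      ∫⁻ x' : ℝ × ℝ, (ENNReal.ofReal (fderiv ℝ v (x', z) ((1, 0), 0) ^ 2 + fderiv ℝ v (x', z) ((0, 1), 0) ^ 2)
        + W x' * ENNReal.ofReal (v (x', z) ^ 2)) := by
    intro z
    have hg : ContDiff ℝ 1 (fun y : ℝ × ℝ => v (y, z)) := hv.comp (contDiff_id.prodMk contDiff_const)
    have := planar hg c hrb hab hbR hk hkR hK hKc hm0 hm hΛ hMa (fun ρ ψ hρ => hout ρ ψ z hρ) hWm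
      (fun ρ ψ h0 h1 => by
        have hs' := hs1 ρ ψ h0 h1
        simp only [hWd]
        split_ifs with h2
        · exact ENNReal.ofReal_le_ofReal (hw1.trans hw12)
        · exact ENNReal.ofReal_le_ofReal hw1)
      (fun ρ h1 h2 => by
        obtain ⟨G, hG1, hG2, hG3, hG4⟩ := hsG ρ h1 h2
        refine ⟨G, hG1, hG2, hG3, fun ψ hψ => ?_⟩
        have hs' := hG4 ψ hψ
        simp only [hWd]
        rw [if_pos hs']
        exact ENNReal.ofReal_le_ofReal hw2)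
      (fun ρ h1 h2 => by
        obtain ⟨ψ0, h0⟩ := hz ρ h1 h2
        exact ⟨ψ0, h0 z⟩)
    simp only [hdx] at this
    exact this
  -- Tonelli
  have mv2 : Measurable (fun x => ENNReal.ofReal (v x ^ 2)) := (mv.pow_const 2).ennreal_ofReal
  have m12 : Measurable (fun x => ENNReal.ofReal (fderiv ℝ v x ((1, 0), 0) ^ 2 + fderiv ℝ v x ((0, 1), 0) ^ 2)) :=
    ((c1.measurable.pow_const 2).add (c2.measurable.pow_const 2)).ennreal_ofReal
  have m3 : Measurable (fun x => ENNReal.ofReal (fderiv ℝ v x ((0, 0), 1) ^ 2)) :=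
    (c3.measurable.pow_const 2).ennreal_ofReal
  have mW : Measurable (fun x : (ℝ × ℝ) × ℝ => W x.1 * ENNReal.ofReal (v x ^ 2)) :=
    (hWm.comp measurable_fst).mul mv2
  have hsplit : ∫⁻ x, ENNReal.ofReal (gradSq v x) =
      (∫⁻ x, ENNReal.ofReal (fderiv ℝ v x ((1, 0), 0) ^ 2 + fderiv ℝ v x ((0, 1), 0) ^ 2))
        + ∫⁻ x, ENNReal.ofReal (fderiv ℝ v x ((0, 0), 1) ^ 2) := by
    rw [← lintegral_add_left m12]
    congr 1; ext x
    rw [← ENNReal.ofReal_add (by positivity) (by positivity)]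
    rfl
  have hzE' : ENNReal.ofReal ((π / (2 * h)) ^ 2) * (∫⁻ x, ENNReal.ofReal (v x ^ 2))
      + ∫⁻ x : (ℝ × ℝ) × ℝ, W x.1 * ENNReal.ofReal (v x ^ 2) ≤ ∫⁻ x, ENNReal.ofReal (fderiv ℝ v x ((0, 0), 1) ^ 2) := by
    have mS : Measurable (fun x : (ℝ × ℝ) × ℝ => ENNReal.ofReal ((π / (2 * h)) ^ 2) * ENNReal.ofReal (v x ^ 2)
        + W x.1 * ENNReal.ofReal (v x ^ 2)) := (mv2.const_mul _).add mW
    rw [← lintegral_const_mul _ mv2, ← lintegral_add_left (mv2.const_mul _), Measure.volume_eq_prod,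
      lintegral_prod _ mS.aemeasurable, lintegral_prod _ m3.aemeasurable]
    refine le_trans (le_of_eq ?_) hzE
    congr 1; ext x'
    have mz : Measurable (fun z => ENNReal.ofReal (v (x', z) ^ 2)) := mv2.comp measurable_prodMk_left
    rw [← lintegral_const_mul _ mz]
    congr 1; ext z
    ring
  have hpl' : ENNReal.ofReal (m + Ma) * (∫⁻ x, ENNReal.ofReal (v x ^ 2)) ≤
      (∫⁻ x, ENNReal.ofReal (fderiv ℝ v x ((1, 0), 0) ^ 2 + fderiv ℝ v x ((0, 1), 0) ^ 2))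
        + ∫⁻ x : (ℝ × ℝ) × ℝ, W x.1 * ENNReal.ofReal (v x ^ 2) := by
    have mS : Measurable (fun x : (ℝ × ℝ) × ℝ => ENNReal.ofReal (fderiv ℝ v x ((1, 0), 0) ^ 2 + fderiv ℝ v x ((0, 1), 0) ^ 2)
        + W x.1 * ENNReal.ofReal (v x ^ 2)) := m12.add mW
    have mS2 : Measurable (fun x : (ℝ × ℝ) × ℝ => ENNReal.ofReal (m + Ma) * ENNReal.ofReal (v x ^ 2)) := mv2.const_mul _
    rw [← lintegral_const_mul _ mv2, ← lintegral_add_left m12, Measure.volume_eq_prod,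
      lintegral_prod_symm _ mS2.aemeasurable, lintegral_prod_symm _ mS.aemeasurable]
    apply lintegral_mono
    intro z
    have mz : Measurable (fun x' => ENNReal.ofReal (v (x', z) ^ 2)) := mv2.comp measurable_prodMk_right
    simp only
    rw [lintegral_const_mul _ mz]
    exact hpl z
  rw [ENNReal.ofReal_add (by positivity) (by positivity), add_mul, hsplit]
  calc _ ≤ ENNReal.ofReal ((π / (2 * h)) ^ 2) * (∫⁻ x, ENNReal.ofReal (v x ^ 2)) +
        ((∫⁻ x, ENNReal.ofReal (fderiv ℝ v x ((1, 0), 0) ^ 2 + fderiv ℝ v x ((0, 1), 0) ^ 2))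
        + ∫⁻ x : (ℝ × ℝ) × ℝ, W x.1 * ENNReal.ofReal (v x ^ 2)) := add_le_add le_rfl hpl'
    _ = (∫⁻ x, ENNReal.ofReal (fderiv ℝ v x ((1, 0), 0) ^ 2 + fderiv ℝ v x ((0, 1), 0) ^ 2))
        + (ENNReal.ofReal ((π / (2 * h)) ^ 2) * (∫⁻ x, ENNReal.ofReal (v x ^ 2))
        + ∫⁻ x : (ℝ × ℝ) × ℝ, W x.1 * ENNReal.ofReal (v x ^ 2)) := by ring
    _ ≤ _ := add_le_add le_rfl hzE'

end Pool.Agent.H63.Star
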