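import Mathlib
import Pool.Agent.H63.Star.EnergyAsm

open MeasureTheory Set Filter Topology
open scoped Real ENNReal NNReal

namespace Pool.Agent.H63.Star

/-- Euclidean norm on `ℝ × ℝ` -/
noncomputable def nr (p : ℝ × ℝ) : ℝ := √(p.1 ^ 2 + p.2 ^ 2)

lemma nr_eq (p : ℝ × ℝ) : nr p = ‖(⟨p.1, p.2⟩ : ℂ)‖ := by
  rw [nr, Complex.norm_eq_sqrt_sq_add_sq]

lemma nr_nonneg (p : ℝ × ℝ) : 0 ≤ nr p := Real.sqrt_nonneg _

lemma nr_sq (p : ℝ × ℝ) : nr p ^ 2 = p.1 ^ 2 + p.2 ^ 2 := Real.sq_sqrt (by positivity)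

lemma nr_add_le (p q : ℝ × ℝ) : nr (p + q) ≤ nr p + nr q := by
  rw [nr_eq, nr_eq, nr_eq]
  have : (⟨(p + q).1, (p + q).2⟩ : ℂ) = ⟨p.1, p.2⟩ + ⟨q.1, q.2⟩ := by
    apply Complex.ext <;> simp
  rw [this]
  exact norm_add_le _ _

lemma nr_smul (a : ℝ) (p : ℝ × ℝ) : nr (a • p) = |a| * nr p := by
  rw [nr_eq, nr_eq]
  have : (⟨(a • p).1, (a • p).2⟩ : ℂ) = (a : ℂ) * ⟨p.1, p.2⟩ := by
    apply Complex.ext <;> simp
  rw [this, norm_mul, Complex.norm_real, Real.norm_eq_abs]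

lemma nr_continuous : Continuous nr := by unfold nr; fun_prop

lemma nr_pol_zero {ρ : ℝ} (hρ : 0 ≤ ρ) (ψ : ℝ) : nr (pol (0, 0) (ρ, ψ)) = ρ := by
  have : nr (pol (0, 0) (ρ, ψ)) ^ 2 = ρ ^ 2 := by
    rw [nr_sq]; simp only [pol]
    have := Real.sin_sq_add_cos_sq ψ
    nlinarith
  exact (pow_left_inj₀ (nr_nonneg _) hρ two_ne_zero).1 this

lemma pol_eq (c : ℝ × ℝ) (p : ℝ × ℝ) : pol c p = c + pol (0, 0) p := by
  ext <;> simp [pol]

lemma nr_pol_le (c : ℝ × ℝ) {ρ : ℝ} (hρ : 0 ≤ ρ) (ψ : ℝ) : nr (pol c (ρ, ψ)) ≤ nr c + ρ := by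
  rw [pol_eq]
  calc _ ≤ nr c + nr (pol (0, 0) (ρ, ψ)) := nr_add_le _ _
    _ = _ := by rw [nr_pol_zero hρ]

lemma le_nr_pol (c : ℝ × ℝ) {ρ : ℝ} (hρ : 0 ≤ ρ) (ψ : ℝ) : ρ - nr c ≤ nr (pol c (ρ, ψ)) := by
  have h1 : pol (0, 0) (ρ, ψ) = pol c (ρ, ψ) + (-1 : ℝ) • c := by
    rw [pol_eq c]; ext <;> simp
  have h2 : nr (pol (0, 0) (ρ, ψ)) ≤ nr (pol c (ρ, ψ)) + nr ((-1 : ℝ) • c) := by
    rw [h1]; exact nr_add_le _ _
  rw [nr_pol_zero hρ, nr_smul] at h2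
  simp at h2
  linarith

/-- thickness profile -/
noncomputable def tt (κ ρ : ℝ) : ℝ := min 1 (κ + (1 - κ) * (ρ / (9 / 10)))

lemma tt_continuous (κ : ℝ) : Continuous (tt κ) := by unfold tt; fun_prop

lemma tt_le_one (κ ρ : ℝ) : tt κ ρ ≤ 1 := min_le_left _ _

lemma tt_le (κ ρ : ℝ) : tt κ ρ ≤ κ + (1 - κ) * (ρ / (9 / 10)) := min_le_right _ _

lemma tt_mono {κ : ℝ} (hκ : κ ≤ 1) {ρ ρ' : ℝ} (h : ρ ≤ ρ') : tt κ ρ ≤ tt κ ρ' := by
  unfold tt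
  apply min_le_min le_rfl
  have : 0 ≤ 1 - κ := by linarith
  have h2 : ρ / (9 / 10) ≤ ρ' / (9 / 10) := by gcongr
  nlinarith

lemma tt_pos {κ : ℝ} (hκ : 0 < κ) (hκ1 : κ ≤ 1) {ρ : ℝ} (h : 0 ≤ ρ) : 0 < tt κ ρ := by
  unfold tt
  apply lt_min one_pos
  have : 0 ≤ 1 - κ := by linarith
  positivity

lemma tt_eq_one {κ : ℝ} (hκ1 : κ ≤ 1) {ρ : ℝ} (h : 9 / 10 ≤ ρ) : tt κ ρ = 1 := by
  unfold tt
  apply min_eq_left
  have : 1 ≤ ρ / (9 / 10) := by rw [le_div_iff₀ (by norm_num)]; linarith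
  nlinarith

/-- the closed plate -/
def plate (κ h : ℝ) : Set ((ℝ × ℝ) × ℝ) := {x | nr x.1 ≤ 1 ∧ |x.2| ≤ h * tt κ (nr x.1)}

lemma isClosed_plate (κ h : ℝ) : IsClosed (plate κ h) := by
  have h1 : Continuous (fun x : (ℝ × ℝ) × ℝ => nr x.1) := nr_continuous.comp continuous_fst
  have h2 : Continuous (fun x : (ℝ × ℝ) × ℝ => h * tt κ (nr x.1)) :=
    continuous_const.mul ((tt_continuous κ).comp h1)
  exact (isClosed_le h1 continuous_const).inter (isClosed_le (continuous_snd.abs) h2)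

/-- vertical slice -/
def slice (S : Set ((ℝ × ℝ) × ℝ)) (x : ℝ × ℝ) : Set ℝ := {z | (x, z) ∈ S}

lemma slice_scale {S : Set ((ℝ × ℝ) × ℝ)} {q : (ℝ × ℝ) × ℝ} (hS : StarConvex ℝ q S) {τ : ℝ} (hτ : 0 < τ) (hτ1 : τ ≤ 1)
    (x : ℝ × ℝ) : ENNReal.ofReal τ * volume (slice S x) ≤ volume (slice S ((1 - τ) • q.1 + τ • x)) := by
  have hsub : slice S x ⊆ (fun z => τ * z) ⁻¹' ((fun z => (1 - τ) * q.2 + z) ⁻¹' (slice S ((1 - τ) • q.1 + τ • x))) := by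
    intro z hz
    have := hS hz (by linarith : 0 ≤ 1 - τ) hτ.le (by ring)
    simp only [slice, mem_preimage, mem_ofPred_eq]
    have e : ((1 - τ) • q.1 + τ • x, (1 - τ) * q.2 + τ * z) = (1 - τ) • q + τ • (x, z) := by
      ext <;> simp
    rw [e]
    exact this
  have h1 := measure_mono (μ := volume) hsub
  rw [Real.volume_preimage_mul_left hτ.ne', measure_preimage_add] at h1
  have h2 : |τ⁻¹| = τ⁻¹ := abs_of_pos (by positivity)
  rw [h2] at h1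
  calc ENNReal.ofReal τ * volume (slice S x) ≤ ENNReal.ofReal τ * (ENNReal.ofReal τ⁻¹ * volume (slice S ((1 - τ) • q.1 + τ • x))) := by
        gcongr
    _ = volume (slice S ((1 - τ) • q.1 + τ • x)) := by
        rw [← mul_assoc, ← ENNReal.ofReal_mul hτ.le, mul_inv_cancel₀ hτ.ne']
        simp

lemma slice_plate {S : Set ((ℝ × ℝ) × ℝ)} {κ h : ℝ} (hS : S ⊆ plate κ h) (x : ℝ × ℝ) :
    volume (slice S x) ≤ ENNReal.ofReal (2 * h * tt κ (nr x)) := by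
  have : slice S x ⊆ Icc (-(h * tt κ (nr x))) (h * tt κ (nr x)) := by
    intro z hz
    have := (hS hz).2
    exact abs_le.1 this
  calc _ ≤ volume (Icc (-(h * tt κ (nr x))) (h * tt κ (nr x))) := measure_mono this
    _ = _ := by rw [Real.volume_Icc]; congr 1; ring

lemma slice_empty {S : Set ((ℝ × ℝ) × ℝ)} {κ h : ℝ} (hS : S ⊆ plate κ h) {x : ℝ × ℝ} (hx : 1 < nr x) :
    volume (slice S x) = 0 := by
  have : slice S x = ∅ := by
    ext z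
    simp only [slice, mem_ofPred_eq, mem_empty_iff_false, iff_false]
    intro hz
    have := (hS hz).1
    simp only at this
    linarith
  rw [this]; simp

/-- thin slices opposite to the centre -/
lemma slice_opposite {S : Set ((ℝ × ℝ) × ℝ)} {κ h : ℝ} (hh : 0 ≤ h) (hκ : 0 < κ) (hκ1 : κ ≤ 1 / 100) (hS : S ⊆ plate κ h)
    {q : (ℝ × ℝ) × ℝ} (hst : StarConvex ℝ q S) (hq : 6 * κ ≤ nr q.1) {β : ℝ}
    (hβ : q.1 = pol (0, 0) (nr q.1, β)) {ρ ψ : ℝ} (hρ : 0 < ρ) (hc : Real.cos (ψ - β) ≤ -(√3 / 2)) :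
    volume (slice S (pol (0, 0) (ρ, ψ))) ≤ ENNReal.ofReal (19 / 10 * h) := by
  by_cases hρ1 : 1 < ρ
  · rw [slice_empty hS]
    · simp
    · rwa [nr_pol_zero hρ.le]
  push Not at hρ1
  set a := nr q.1 with ha
  have ha0 : 0 < a := by linarith
  set C := -Real.cos (ψ - β) with hC
  have h3 : (0:ℝ) < √3 := Real.sqrt_pos.2 (by norm_num)
  have h3sq : √3 ^ 2 = 3 := Real.sq_sqrt (by norm_num)
  have hC0 : 0 < C := by rw [hC]; linarith
  have hC34 : 3 / 4 ≤ C ^ 2 := by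
    have h1 : √3 / 2 ≤ C := by rw [hC]; linarith
    have h2 : (√3 / 2) ^ 2 ≤ C ^ 2 := pow_le_pow_left₀ (by positivity) h1 2
    rw [div_pow, h3sq] at h2
    linarith
  have hC1 : C ≤ 1 := by rw [hC]; linarith [Real.neg_one_le_cos (ψ - β)]
  set τ := a / (a + ρ * C) with hτ
  have hden : 0 < a + ρ * C := by positivity
  have hτ0 : 0 < τ := by positivity
  have hτ1 : τ ≤ 1 := by
    rw [hτ, div_le_one hden]
    have : 0 < ρ * C := by positivity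
    linarith
  have key := slice_scale hst hτ0 hτ1 (pol (0, 0) (ρ, ψ))
  have hy := slice_plate hS ((1 - τ) • q.1 + τ • pol (0, 0) (ρ, ψ))
  have hny : nr ((1 - τ) • q.1 + τ • pol (0, 0) (ρ, ψ)) ≤ τ * ρ / 2 := by
    have h1 : nr ((1 - τ) • q.1 + τ • pol (0, 0) (ρ, ψ)) ^ 2 = (τ * ρ) ^ 2 * (1 - C ^ 2) := by
      rw [hβ, nr_sq]
      simp only [pol, Prod.smul_mk, Prod.mk_add_mk, smul_eq_mul]
      have e1 : (1 - τ) * a = τ * ρ * C := by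
        rw [hτ]; field_simp; ring
      have hc : Real.cos (ψ - β) = -C := by rw [hC]; ring
      rw [Real.cos_sub] at hc
      have s1 := Real.sin_sq_add_cos_sq β
      have s2 := Real.sin_sq_add_cos_sq ψ
      have e2 : ((1 - τ) * (0 + a * Real.cos β) + τ * (0 + ρ * Real.cos ψ)) ^ 2
          + ((1 - τ) * (0 + a * Real.sin β) + τ * (0 + ρ * Real.sin ψ)) ^ 2
          = ((1 - τ) * a) ^ 2 * (Real.sin β ^ 2 + Real.cos β ^ 2) + (τ * ρ) ^ 2 * (Real.sin ψ ^ 2 + Real.cos ψ ^ 2)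
            + 2 * ((1 - τ) * a) * (τ * ρ) * (Real.cos ψ * Real.cos β + Real.sin ψ * Real.sin β) := by ring
      rw [e2, s1, s2, hc, e1]
      ring
    have h2 : nr ((1 - τ) • q.1 + τ • pol (0, 0) (ρ, ψ)) ^ 2 ≤ (τ * ρ / 2) ^ 2 := by
      rw [h1]
      have : 0 ≤ (τ * ρ) ^ 2 := by positivity
      nlinarith
    exact (pow_le_pow_iff_left₀ (nr_nonneg _) (by positivity) two_ne_zero).1 h2
  have htt : tt κ (nr ((1 - τ) • q.1 + τ • pol (0, 0) (ρ, ψ))) ≤ τ * (19 / 20) := by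
    refine (tt_le _ _).trans ?_
    have h1 : nr ((1 - τ) • q.1 + τ • pol (0, 0) (ρ, ψ)) / (9 / 10) ≤ τ * (5 / 9) := by
      rw [div_le_iff₀ (by norm_num)]
      have : τ * ρ ≤ τ := by nlinarith
      linarith
    have h2 : κ ≤ τ * (7 / 36) := by
      rw [hτ, div_mul_eq_mul_div, le_div_iff₀ hden]
      have : ρ * C ≤ 1 := by nlinarith
      nlinarith
    have h3 : (1 - κ) * (nr ((1 - τ) • q.1 + τ • pol (0, 0) (ρ, ψ)) / (9 / 10)) ≤ τ * (5 / 9) := by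
      have : 0 ≤ nr ((1 - τ) • q.1 + τ • pol (0, 0) (ρ, ψ)) / (9 / 10) := by
        have := nr_nonneg ((1 - τ) • q.1 + τ • pol (0, 0) (ρ, ψ))
        positivity
      nlinarith
    linarith
  have hfin : ENNReal.ofReal τ * volume (slice S (pol (0, 0) (ρ, ψ))) ≤ ENNReal.ofReal τ * ENNReal.ofReal (19 / 10 * h) := by
    refine (key.trans hy).trans ?_
    rw [← ENNReal.ofReal_mul hτ0.le]
    apply ENNReal.ofReal_le_ofReal
    nlinarith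
  rwa [ENNReal.mul_le_mul_iff_right (by simpa using hτ0) ENNReal.ofReal_ne_top] at hfin

end Pool.Agent.H63.Star
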