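import Mathlib
import Pool.Agent.H63.Star.StarGeom

open MeasureTheory Set Filter Topology
open scoped Real ENNReal NNReal

namespace Pool.Agent.H63.Star

/-- azimuths away from the opposite sector -/
def Gcos (β : ℝ) : Set ℝ := {ψ | -(√3 / 2) < Real.cos (ψ - β)}

lemma measurableSet_Gcos (β : ℝ) : MeasurableSet (Gcos β) := by
  unfold Gcos
  exact (isOpen_lt continuous_const (by fun_prop)).measurableSet

lemma Gcos_periodic (β x : ℝ) : x + 2 * π ∈ Gcos β ↔ x ∈ Gcos β := by
  simp only [Gcos, mem_ofPred_eq]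
  rw [show x + 2 * π - β = (x - β) + 2 * π by ring, Real.cos_add_two_pi]

lemma periodic_set_volume {G : Set ℝ} (hG : MeasurableSet G) (hGper : ∀ x, x + 2 * π ∈ G ↔ x ∈ G) (a b : ℝ) :
    volume (G ∩ Ioc a (a + 2 * π)) = volume (G ∩ Ioc b (b + 2 * π)) := by
  have hpi := Real.pi_pos
  have hindper : Function.Periodic (G.indicator (fun _ => (1 : ℝ))) (2 * π) := by
    intro x
    by_cases hx : x ∈ G
    · rw [indicator_of_mem hx, indicator_of_mem ((hGper x).2 hx)]
    · rw [indicator_of_notMem hx, indicator_of_notMem (fun h => hx ((hGper x).1 h))]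
  have e1 : ∀ c : ℝ, ∫ x in c..(c + 2 * π), G.indicator (fun _ => (1 : ℝ)) x = volume.real (G ∩ Ioc c (c + 2 * π)) := by
    intro c
    rw [intervalIntegral.integral_of_le (by linarith), integral_indicator hG]
    simp only [Measure.real, integral_const, smul_eq_mul, mul_one, MeasurableSet.univ,
      Measure.restrict_apply, univ_inter, hG]
  have h := hindper.intervalIntegral_add_eq a b
  rw [e1, e1] at h
  have fin : ∀ c : ℝ, volume (G ∩ Ioc c (c + 2 * π)) ≠ ⊤ := fun c =>
    ne_top_of_le_ne_top (by rw [Real.volume_Ioc]; exact ENNReal.ofReal_ne_top) (measure_mono inter_subset_right)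
  exact (ENNReal.toReal_eq_toReal_iff' (fin a) (fin b)).1 h

lemma volume_Gcos (β : ℝ) : volume (Gcos β ∩ Ioo (-π) π) ≤ ENNReal.ofReal (5 * π / 3) := by
  have hpi := Real.pi_pos
  have h1 : volume (Gcos β ∩ Ioo (-π) π) ≤ volume (Gcos β ∩ Ioc (-π) (-π + 2 * π)) := by
    apply measure_mono
    apply inter_subset_inter_right
    intro x hx
    exact ⟨hx.1, by linarith [hx.2]⟩
  refine h1.trans ?_
  rw [periodic_set_volume (measurableSet_Gcos β) (Gcos_periodic β) (-π) (β - π)]
  have h2 : Gcos β ∩ Ioc (β - π) (β - π + 2 * π) ⊆ Ioo (β - 5 * π / 6) (β + 5 * π / 6) := by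
    rintro x ⟨hx, hx1, hx2⟩
    simp only [Gcos, mem_ofPred_eq] at hx
    have hc : Real.cos (5 * π / 6) = -(√3 / 2) := by
      rw [show 5 * π / 6 = π - π / 6 by ring, Real.cos_pi_sub, Real.cos_pi_div_six]
    rw [← hc, ← Real.cos_abs (x - β)] at hx
    have h3 : |x - β| < 5 * π / 6 := by
      by_contra hcon
      push Not at hcon
      have : Real.cos |x - β| ≤ Real.cos (5 * π / 6) := by
        apply Real.cos_le_cos_of_nonneg_of_le_pi (by positivity) _ hcon
        rw [abs_le]; constructor <;> linarith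
      linarith
    rw [abs_lt] at h3
    constructor <;> linarith [h3.1, h3.2]
  calc _ ≤ volume (Ioo (β - 5 * π / 6) (β + 5 * π / 6)) := measure_mono h2
    _ = ENNReal.ofReal (5 * π / 3) := by rw [Real.volume_Ioo]; congr 1; ring

/-- polar decomposition of the volume of `S` -/
lemma volume_polar {S : Set ((ℝ × ℝ) × ℝ)} (hS : MeasurableSet S) (c : ℝ × ℝ) :
    volume S = ∫⁻ ψ in Ioo (-π) π, ∫⁻ ρ in Ioi (0 : ℝ), ENNReal.ofReal ρ * volume (slice S (pol c (ρ, ψ))) := by
  have h1 : volume S = ∫⁻ x : ℝ × ℝ, volume (slice S x) := by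
    rw [Measure.volume_eq_prod, Measure.prod_apply hS]
    rfl
  have ms : Measurable (fun x : ℝ × ℝ => volume (slice S x)) := measurable_measure_prodMk_left hS
  rw [h1, ← lintegral_pol c]
  have hprod : (volume : Measure (ℝ × ℝ)).restrict (Ioi (0 : ℝ) ×ˢ Ioo (-π) π)
      = (volume.restrict (Ioi (0:ℝ))).prod (volume.restrict (Ioo (-π) π)) := by
    rw [Measure.prod_restrict, Measure.volume_eq_prod]
  rw [hprod, lintegral_prod_symm]
  apply Measurable.aemeasurable
  exact (measurable_fst.ennreal_ofReal).mul (ms.comp (pol_contDiff c).continuous.measurable)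

/-- azimuths with fat slices, centre `q` -/
def Gfat (S : Set ((ℝ × ℝ) × ℝ)) (c : ℝ × ℝ) (h r : ℝ) : Set ℝ :=
  {ψ | ENNReal.ofReal (19 / 10 * h) < volume (slice S (pol c (r, ψ)))}

lemma measurableSet_Gfat {S : Set ((ℝ × ℝ) × ℝ)} (hS : MeasurableSet S) (c : ℝ × ℝ) (h r : ℝ) :
    MeasurableSet (Gfat S c h r) := by
  have ms : Measurable (fun x : ℝ × ℝ => volume (slice S x)) := measurable_measure_prodMk_left hS
  have h1 : Measurable (fun ψ : ℝ => volume (slice S (pol c (r, ψ)))) :=
    ms.comp ((pol_contDiff c).continuous.measurable.comp measurable_prodMk_left)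
  exact measurableSet_lt measurable_const h1

lemma Gfat_periodic (S : Set ((ℝ × ℝ) × ℝ)) (c : ℝ × ℝ) (h r x : ℝ) : x + 2 * π ∈ Gfat S c h r ↔ x ∈ Gfat S c h r := by
  simp only [Gfat, mem_ofPred_eq, pol, Real.cos_add_two_pi, Real.sin_add_two_pi]

lemma volume_Gfat {S : Set ((ℝ × ℝ) × ℝ)} (hS : MeasurableSet S) {h : ℝ} (hh : 0 < h)
    {q : (ℝ × ℝ) × ℝ} (hst : StarConvex ℝ q S) {r : ℝ} (hr : 17 / 20 ≤ r)
    (hv : volume S ≤ ENNReal.ofReal (19 / 25 * π * h)) :
    volume (Gfat S q.1 h r ∩ Ioo (-π) π) ≤ ENNReal.ofReal (5 * π / 3) := by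
  have hpi := Real.pi_pos
  have hr0 : 0 < r := by linarith
  set G := Gfat S q.1 h r with hG
  have hGm : MeasurableSet G := measurableSet_Gfat hS _ _ _
  have hint : ENNReal.ofReal (19 / 30 * h * r ^ 2) = ∫⁻ ρ in Ioc (0:ℝ) r, ENNReal.ofReal (19 / 10 * h / r * ρ ^ 2) := by
    rw [lintegral_Ioc_ofReal hr0.le (by fun_prop) (fun x hx => by have := hx.1; positivity)]
    congr 1
    rw [intervalIntegral.integral_const_mul, integral_pow]
    field_simp
    ring
  have h1 : ENNReal.ofReal (19 / 30 * h * r ^ 2) * volume (G ∩ Ioo (-π) π) ≤ volume S := by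
    rw [volume_polar hS q.1]
    calc ENNReal.ofReal (19 / 30 * h * r ^ 2) * volume (G ∩ Ioo (-π) π)
        = ∫⁻ ψ in G ∩ Ioo (-π) π, ENNReal.ofReal (19 / 30 * h * r ^ 2) := by
          rw [setLIntegral_const]
      _ ≤ ∫⁻ ψ in G ∩ Ioo (-π) π, ∫⁻ ρ in Ioi (0 : ℝ), ENNReal.ofReal ρ * volume (slice S (pol q.1 (ρ, ψ))) := by
          apply setLIntegral_mono' (hGm.inter measurableSet_Ioo)
          intro ψ hψ
          rw [hint]
          calc _ ≤ ∫⁻ ρ in Ioc (0:ℝ) r, ENNReal.ofReal ρ * volume (slice S (pol q.1 (ρ, ψ))) := by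
                apply setLIntegral_mono' measurableSet_Ioc
                intro ρ hρ
                have hρ0 := hρ.1
                have hτ0 : 0 < ρ / r := by positivity
                have hτ1 : ρ / r ≤ 1 := (div_le_one hr0).2 hρ.2
                have key := slice_scale hst hτ0 hτ1 (pol q.1 (r, ψ))
                have e : (1 - ρ / r) • q.1 + (ρ / r) • pol q.1 (r, ψ) = pol q.1 (ρ, ψ) := by
                  ext
                  · simp only [pol, Prod.fst_add, Prod.smul_fst, smul_eq_mul]; field_simp; ring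
                  · simp only [pol, Prod.snd_add, Prod.smul_snd, smul_eq_mul]; field_simp; ring
                rw [e] at key
                have hψ' : ENNReal.ofReal (19 / 10 * h) ≤ volume (slice S (pol q.1 (r, ψ))) := le_of_lt hψ.1
                calc ENNReal.ofReal (19 / 10 * h / r * ρ ^ 2) = ENNReal.ofReal ρ * (ENNReal.ofReal (ρ / r) * ENNReal.ofReal (19 / 10 * h)) := by
                      rw [← ENNReal.ofReal_mul hτ0.le, ← ENNReal.ofReal_mul hρ0.le]
                      congr 1; field_simp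
                  _ ≤ ENNReal.ofReal ρ * (ENNReal.ofReal (ρ / r) * volume (slice S (pol q.1 (r, ψ)))) := by gcongr
                  _ ≤ _ := by gcongr
            _ ≤ _ := lintegral_mono_set Ioc_subset_Ioi_self
      _ ≤ _ := lintegral_mono_set inter_subset_right
  have h2 : ENNReal.ofReal (19 / 30 * h * r ^ 2) * volume (G ∩ Ioo (-π) π) ≤
      ENNReal.ofReal (19 / 30 * h * r ^ 2) * ENNReal.ofReal (5 * π / 3) := by
    refine (h1.trans hv).trans ?_
    rw [← ENNReal.ofReal_mul (by positivity)]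
    apply ENNReal.ofReal_le_ofReal
    have : (17 / 20 : ℝ) ^ 2 ≤ r ^ 2 := pow_le_pow_left₀ (by norm_num) hr 2
    have hπh : 0 < π * h := by positivity
    nlinarith
  rwa [ENNReal.mul_le_mul_iff_right (by simpa using (by positivity : 0 < 19 / 30 * h * r ^ 2)) ENNReal.ofReal_ne_top] at h2

end Pool.Agent.H63.Star
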