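import Mathlib
import Pool.Agent.H63.Star.GoodSets

open MeasureTheory Set Filter Topology
open scoped Real ENNReal NNReal

namespace Pool.Agent.H63.Star

noncomputable def pδ : ℝ := 1 / 10 ^ 7
/-- `κ` : relative thickness of the plate at the axis -/
noncomputable def pκ : ℝ := pδ / 12
/-- half thickness of the plate -/
noncomputable def ph : ℝ := 1 / 10 ^ 11
noncomputable def prb : ℝ := 9 / 10 - pδ
noncomputable def pra : ℝ := 9 / 10 - 2 * pδ
noncomputable def pR : ℝ := 1 + pδ / 2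
noncomputable def pk : ℝ := π / (1 / 10 + 3 * pδ)
noncomputable def pK : ℝ := 1 / pδ
noncomputable def pm : ℝ := pk ^ 2 - 1 / (4 * prb ^ 2)
noncomputable def pMa : ℝ := (59 / 100) ^ 2 / pR ^ 2
noncomputable def pθ : ℝ := pκ + (1 - pκ) * ((9 / 10 - pδ / 2) / (9 / 10))
noncomputable def pΛ : ℝ := pm + (2 * pK / prb + pK ^ 2)

lemma pδ_pos : 0 < pδ := by unfold pδ; positivity
lemma ph_pos : 0 < ph := by unfold ph; positivity
lemma pκ_pos : 0 < pκ := by unfold pκ pδ; positivity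
lemma pκ_le : pκ ≤ 1 / 100 := by unfold pκ pδ; norm_num
lemma prb_pos : 0 < prb := by unfold prb pδ; norm_num
lemma pra_lt : pra < prb := by unfold pra prb pδ; norm_num
lemma prb_le : prb ≤ pR := by unfold pR prb pδ; norm_num
lemma prb_ge : 17 / 20 ≤ prb := by unfold prb pδ; norm_num
lemma pk_pos : 0 < pk := by unfold pk; have := Real.pi_pos; have := pδ_pos; positivity
lemma pK_nonneg : 0 ≤ pK := by unfold pK; have := pδ_pos; positivity

lemma pkR : pk * (pR - pra) < π := by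
  have hpi := Real.pi_pos
  have h1 : pR - pra < 1 / 10 + 3 * pδ := by unfold pR pra; linarith [pδ_pos]
  calc pk * (pR - pra) < pk * (1 / 10 + 3 * pδ) := mul_lt_mul_of_pos_left h1 pk_pos
    _ = π := by unfold pk; have := pδ_pos; field_simp

lemma pk_gt : 31 < pk := by
  unfold pk
  rw [lt_div_iff₀ (by unfold pδ; norm_num)]
  have := Real.pi_gt_d2
  unfold pδ; norm_num; linarith

lemma pk_lt : pk < 32 := by
  unfold pk
  rw [div_lt_iff₀ (by unfold pδ; norm_num)]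
  have := Real.pi_lt_d2
  unfold pδ; norm_num; linarith

lemma pKc : kcot pk (prb - pra) - 1 / (2 * prb) ≤ pK := by
  have hpi := Real.pi_pos
  have e : prb - pra = pδ := by unfold prb pra; ring
  rw [e]
  have h0 : 0 ≤ 1 / (2 * prb) := by have := prb_pos; positivity
  have hx0 : 0 < pk * pδ := mul_pos pk_pos pδ_pos
  have hx1 : pk * pδ < π / 2 := by
    have := pk_lt; have := Real.pi_gt_three; have := pk_pos
    unfold pδ; norm_num; linarith
  have h1 : kcot pk pδ ≤ pK := by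
    unfold kcot pK
    have hs : 0 < Real.sin (pk * pδ) := Real.sin_pos_of_pos_of_lt_pi hx0 (by linarith)
    have hc : 0 < Real.cos (pk * pδ) := Real.cos_pos_of_mem_Ioo ⟨by linarith, hx1⟩
    have ht := Real.lt_tan hx0 hx1
    rw [Real.tan_eq_sin_div_cos, lt_div_iff₀ hc] at ht
    rw [div_le_div_iff₀ hs pδ_pos]
    linarith
  linarith

lemma prb_bound : 1 / (4 * prb ^ 2) ≤ 3087 / 10000 := by
  rw [div_le_iff₀ (by have := prb_pos; positivity)]
  unfold prb pδ; norm_num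

lemma pm_nonneg : 0 ≤ pm := by
  unfold pm
  have := pk_gt
  have := prb_bound
  nlinarith

lemma pm_le : pm ≤ 1024 := by
  unfold pm
  have h1 := pk_lt
  have h2 := pk_pos
  have h0 : 0 ≤ 1 / (4 * prb ^ 2) := by have := prb_pos; positivity
  nlinarith

lemma pMa_le : pMa ≤ 1 := by
  unfold pMa
  rw [div_le_one (by unfold pR pδ; norm_num)]
  unfold pR pδ; norm_num

lemma pmMa : 100 * π ^ 2 + 3 / 100 ≤ pm + pMa := by
  have hpi := Real.pi_pos
  have h1 : 100 * π ^ 2 - 6 / 1000 ≤ pk ^ 2 := by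
    unfold pk
    rw [div_pow, le_div_iff₀ (by unfold pδ; norm_num)]
    have h2 : π ^ 2 ≤ 10 := by have := Real.pi_lt_d2; nlinarith
    have h3 : 0 ≤ π ^ 2 := by positivity
    unfold pδ
    norm_num
    nlinarith
  have h2 := prb_bound
  have h3 : 348 / 1000 ≤ pMa := by
    unfold pMa
    rw [le_div_iff₀ (by unfold pR pδ; norm_num)]
    unfold pR pδ; norm_num
  unfold pm
  linarith

lemma pθ_gt : 19 / 20 < pθ := by
  unfold pθ pκ pδ; norm_num

lemma pθ_le : pθ ≤ 1 - pδ / 2 := by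
  unfold pθ pκ pδ; norm_num

lemma pw1 : pΛ + pMa ≤ (π / (2 * ph * pθ)) ^ 2 - (π / (2 * ph)) ^ 2 := by
  have hpi := Real.pi_pos
  have hθ := pθ_gt
  have hθ0 : 0 < pθ := by linarith
  have hθ1 := pθ_le
  have h1 : pΛ + pMa ≤ 10 ^ 15 := by
    unfold pΛ
    have := pm_le
    have := pMa_le
    have h2 : 2 * pK / prb ≤ 10 ^ 8 := by
      rw [div_le_iff₀ prb_pos]
      unfold pK prb pδ; norm_num
    have h3 : pK ^ 2 = 10 ^ 14 := by unfold pK pδ; norm_num
    rw [h3]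
    norm_num at *
    linarith
  have h2 : (π / (2 * ph * pθ)) ^ 2 - (π / (2 * ph)) ^ 2 = (π / (2 * ph)) ^ 2 * (1 / pθ ^ 2 - 1) := by
    have := ph_pos
    field_simp
  rw [h2]
  have h3 : pδ / 2 ≤ 1 / pθ ^ 2 - 1 := by
    have : 1 / pθ ^ 2 - 1 = (1 - pθ ^ 2) / pθ ^ 2 := by field_simp
    rw [this, le_div_iff₀ (by positivity)]
    have hδ := pδ_pos
    have hθ2 : pθ ^ 2 ≤ 1 := by nlinarith
    nlinarith
  have h4 : 2 * 10 ^ 22 ≤ (π / (2 * ph)) ^ 2 := by
    have h5 : (3 / (2 * ph)) ^ 2 ≤ (π / (2 * ph)) ^ 2 := by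
      have := ph_pos
      have := Real.pi_gt_three
      gcongr
    refine le_trans ?_ h5
    unfold ph; norm_num
  calc pΛ + pMa ≤ 10 ^ 15 := h1
    _ ≤ (2 * 10 ^ 22) * (pδ / 2) := by unfold pδ; norm_num
    _ ≤ _ := by
      have := pδ_pos
      gcongr

lemma pw2 : 1300 / prb ^ 2 ≤ (π / (19 / 10 * ph)) ^ 2 - (π / (2 * ph)) ^ 2 := by
  have hpi := Real.pi_pos
  have e : (π / (19 / 10 * ph)) ^ 2 - (π / (2 * ph)) ^ 2 = (π / ph) ^ 2 * (100 / 361 - 1 / 4) := by
    have := ph_pos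
    field_simp
    ring
  rw [e]
  have h1 : 1300 / prb ^ 2 ≤ 10000 := by
    rw [div_le_iff₀ (by have := prb_pos; positivity)]
    unfold prb pδ; norm_num
  have h2 : 10 ^ 22 ≤ (π / ph) ^ 2 := by
    have h5 : (1 / ph) ^ 2 ≤ (π / ph) ^ 2 := by
      have := ph_pos
      have := Real.pi_gt_three
      gcongr
      linarith
    refine le_trans ?_ h5
    unfold ph; norm_num
  nlinarith

/-- The box in `(ℝ × ℝ) × ℝ`: plate with a linear conical dent and a wall. -/
def boxX : Set ((ℝ × ℝ) × ℝ) :=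
  {x | nr x.1 < 1 ∧ |x.2| < ph * tt pκ (nr x.1) ∧ ¬ (x.1.2 = 0 ∧ x.1.1 ≤ 0)}

/-- the volume -/
noncomputable def pA : ℝ := 19 / 50 * π * ph

lemma boxX_subset_plate : boxX ⊆ plate pκ ph := fun _ hx => ⟨hx.1.le, hx.2.1.le⟩

theorem gapX {Ω S : Set ((ℝ × ℝ) × ℝ)} (hΩ : Ω ⊆ boxX) (hS : IsOpen S)
    {q : (ℝ × ℝ) × ℝ} (hst : StarConvex ℝ q S) (hae : S =ᵐ[volume] Ω) (hpos : volume Ω ≠ 0)
    (hvol : volume Ω ≤ ENNReal.ofReal (2 * pA))
    {v : (ℝ × ℝ) × ℝ → ℝ} (hv : ContDiff ℝ 1 v) (hvs : HasCompactSupport v) (hvΩ : tsupport v ⊆ Ω) :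
    ENNReal.ofReal ((π / (2 * ph)) ^ 2 + (100 * π ^ 2 + 3 / 100)) * ∫⁻ x, ENNReal.ofReal (v x ^ 2) ≤
      ∫⁻ x, ENNReal.ofReal (gradSq v x) := by
  have hpi := Real.pi_pos
  have hh := ph_pos
  have hκ := pκ_pos
  have hκ1 := pκ_le
  -- S is contained in the closed plate
  have hSp : S ⊆ plate pκ ph := by
    have hopen : IsOpen (S \ plate pκ ph) := hS.sdiff (isClosed_plate _ _)
    have hnull : volume (S \ plate pκ ph) = 0 := by
      have h1 : S \ plate pκ ph ⊆ S \ Ω := sdiff_subset_sdiff_right (hΩ.trans boxX_subset_plate)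
      have h2 : volume (S \ Ω) = 0 := (ae_le_set.1 hae.le)
      exact measure_mono_null h1 h2
    have := (hopen.measure_eq_zero_iff volume).1 hnull
    exact sdiff_eq_empty.1 this
  have hSm : MeasurableSet S := hS.measurableSet
  have hSv : volume S ≤ ENNReal.ofReal (2 * pA) := by rw [measure_congr hae]; exact hvol
  have hSv' : volume S ≤ ENNReal.ofReal (19 / 25 * π * ph) := by
    refine hSv.trans (le_of_eq ?_)
    congr 1; unfold pA; ring
  have hSne : S.Nonempty := by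
    rw [nonempty_iff_ne_empty]
    rintro rfl
    apply hpos
    rw [← measure_congr hae, measure_empty]
  have hqS : q ∈ S := hst.mem hSne
  have hvzero : ∀ x, x ∉ boxX → v x = 0 := fun x hx =>
    image_eq_zero_of_notMem_tsupport (fun h => hx (hΩ (hvΩ h)))
  -- slices
  have hsm : Measurable (fun x : ℝ × ℝ => volume (slice S x)) := measurable_measure_prodMk_left hSm
  have hsv : ∀ᵐ x', volume {z | v (x', z) ≠ 0} ≤ volume (slice S x') := by
    rw [Measure.volume_eq_prod] at hae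
    have := Measure.ae_ae_of_ae_prod hae
    filter_upwards [this] with x' hx'
    apply measure_mono_ae
    filter_upwards [hx'] with z hz hvz
    have h1 : (x', z) ∈ Ω := hvΩ (subset_tsupport v hvz)
    have h2 : S (x', z) = Ω (x', z) := hz
    change S (x', z)
    rw [h2]
    exact h1
  have hs2 : ∀ x', volume (slice S x') ≤ ENNReal.ofReal (2 * ph) := by
    intro x'
    refine (slice_plate hSp x').trans (ENNReal.ofReal_le_ofReal ?_)
    have := tt_le_one pκ (nr x')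
    nlinarith
  have hθle : pθ ≤ 1 := by have := pθ_le; have := pδ_pos; linarith
  -- common part
  have hs1 : ∀ c : ℝ × ℝ, nr c ≤ 6 * pκ → ∀ ρ ψ, 0 < ρ → ρ < prb → volume (slice S (pol c (ρ, ψ))) ≤ ENNReal.ofReal (2 * ph * pθ) := by
    intro c hc ρ ψ h0 h1
    refine (slice_plate hSp _).trans (ENNReal.ofReal_le_ofReal ?_)
    have h2 : nr (pol c (ρ, ψ)) ≤ 9 / 10 - pδ / 2 := by
      have := nr_pol_le c h0.le ψ
      have e : 6 * pκ = pδ / 2 := by unfold pκ; ring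
      unfold prb at h1
      linarith
    have h3 : tt pκ (nr (pol c (ρ, ψ))) ≤ pθ := by
      refine (tt_mono (by linarith) h2).trans ?_
      exact tt_le _ _
    nlinarith
  have hout : ∀ c : ℝ × ℝ, nr c ≤ 6 * pκ → ∀ ρ ψ z, pR ≤ ρ → v (pol c (ρ, ψ), z) = 0 := by
    intro c hc ρ ψ z hρ
    apply hvzero
    intro hmem
    have h1 : nr (pol c (ρ, ψ)) < 1 := hmem.1
    have hρ0 : 0 ≤ ρ := by unfold pR at hρ; have := pδ_pos; linarith
    have h2 := le_nr_pol c hρ0 ψ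
    have e : 6 * pκ = pδ / 2 := by unfold pκ; ring
    unfold pR at hρ
    linarith
  have hz : ∀ c : ℝ × ℝ, nr c ≤ 6 * pκ → ∀ ρ, prb ≤ ρ → ρ < pR → ∃ ψ0, ∀ z, v (pol c (ρ, ψ0), z) = 0 := by
    intro c hc ρ h1 h2
    have hρ0 : 0 < ρ := lt_of_lt_of_le prb_pos h1
    have hcρ : c.1 ^ 2 + c.2 ^ 2 ≤ ρ ^ 2 := by
      rw [← nr_sq]
      have h3 : nr c ≤ ρ := by
        have := pκ_le
        have := prb_ge
        have h4 : 6 * pκ ≤ 6 / 100 := by linarith
        linarith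
      exact pow_le_pow_left₀ (nr_nonneg _) h3 2
    have hc2 : (c.2 / ρ) ^ 2 ≤ 1 := by
      rw [div_pow, div_le_one (by positivity)]
      nlinarith [sq_nonneg c.1]
    have habs : |c.2 / ρ| ≤ 1 := by rwa [← sq_le_one_iff_abs_le_one]
    rw [abs_le] at habs
    refine ⟨π + Real.arcsin (c.2 / ρ), fun z => hvzero _ ?_⟩
    rintro ⟨-, -, h3⟩
    apply h3
    simp only [pol]
    have hs : Real.sin (π + Real.arcsin (c.2 / ρ)) = -(c.2 / ρ) := by
      rw [add_comm, Real.sin_add_pi, Real.sin_arcsin habs.1 habs.2]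
    have hco : Real.cos (π + Real.arcsin (c.2 / ρ)) = -√(1 - (c.2 / ρ) ^ 2) := by
      rw [add_comm, Real.cos_add_pi, Real.cos_arcsin]
    rw [hs, hco]
    constructor
    · field_simp; ring
    · have h4 : ρ * √(1 - (c.2 / ρ) ^ 2) = √(ρ ^ 2 - c.2 ^ 2) := by
        have : ρ ^ 2 - c.2 ^ 2 = ρ ^ 2 * (1 - (c.2 / ρ) ^ 2) := by field_simp
        rw [this, Real.sqrt_mul (by positivity), Real.sqrt_sq hρ0.le]
      have h5 : c.1 ≤ √(ρ ^ 2 - c.2 ^ 2) := Real.le_sqrt_of_sq_le (by linarith)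
      linarith
  have hfinal : ENNReal.ofReal ((π / (2 * ph)) ^ 2 + (pm + pMa)) * ∫⁻ x, ENNReal.ofReal (v x ^ 2) ≤
      ∫⁻ x, ENNReal.ofReal (gradSq v x) := by
    by_cases hq : 6 * pκ ≤ nr q.1
    · -- centre far from the axis
      obtain ⟨β, hβ⟩ : ∃ β, q.1 = pol (0, 0) (nr q.1, β) := by
        refine ⟨Complex.arg ⟨q.1.1, q.1.2⟩, ?_⟩
        rw [nr_eq]
        have h1 := Complex.norm_mul_cos_arg (⟨q.1.1, q.1.2⟩ : ℂ)
        have h2 := Complex.norm_mul_sin_arg (⟨q.1.1, q.1.2⟩ : ℂ)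
        ext
        · simp only [pol, zero_add]; exact h1.symm
        · simp only [pol, zero_add]; exact h2.symm
      have hc0 : nr ((0, 0) : ℝ × ℝ) ≤ 6 * pκ := by
        have : nr ((0, 0) : ℝ × ℝ) = 0 := by simp [nr]
        rw [this]; positivity
      refine energyAsm hv hvs (0, 0) prb_pos pra_lt prb_le pk_pos pkR pK_nonneg pKc pm_nonneg rfl le_rfl rfl
        ph_pos pθ_gt hθle pw1 pw2 (hout _ hc0) hsm hsv hs2 (hs1 _ hc0) ?_ (hz _ hc0)
      intro ρ h1 h2
      refine ⟨Gcos β, measurableSet_Gcos β, Gcos_periodic β, volume_Gcos β, fun ψ hψ => ?_⟩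
      have hρ0 : 0 < ρ := lt_of_lt_of_le prb_pos h1
      apply slice_opposite hh.le hκ hκ1 hSp hst hq hβ hρ0
      simp only [Gcos, mem_ofPred_eq, not_lt] at hψ
      exact hψ
    · push Not at hq
      refine energyAsm hv hvs q.1 prb_pos pra_lt prb_le pk_pos pkR pK_nonneg pKc pm_nonneg rfl le_rfl rfl
        ph_pos pθ_gt hθle pw1 pw2 (hout _ hq.le) hsm hsv hs2 (hs1 _ hq.le) ?_ (hz _ hq.le)
      intro ρ h1 h2
      refine ⟨Gfat S q.1 ph ρ, measurableSet_Gfat hSm _ _ _, Gfat_periodic _ _ _ _,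
        volume_Gfat hSm hh hst (prb_ge.trans h1) hSv', fun ψ hψ => ?_⟩
      simp only [Gfat, mem_ofPred_eq, not_lt] at hψ
      exact hψ
  exact (mul_le_mul' (ENNReal.ofReal_le_ofReal (add_le_add le_rfl pmMa)) le_rfl).trans hfinal

end Pool.Agent.H63.Star
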