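import Mathlib
import Pool.Agent.H63.Star.Params

open MeasureTheory Set Filter Topology
open scoped Real ENNReal NNReal ContDiff

namespace Pool.Agent.H63.Star

/-- smooth transfer of compactly supported functions along a diffeomorphism of open sets -/
lemma transfer_smooth {E F : Type*} [NormedAddCommGroup E] [NormedSpace ℝ E] [NormedAddCommGroup F] [NormedSpace ℝ F]
    {U₁ : Set E} {U₂ : Set F} (hU₁ : IsOpen U₁)
    {f : E → F} {g : F → E} (hf : ContDiffOn ℝ ∞ f U₁) (hg : ContinuousOn g U₂)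
    (hfg : ∀ x ∈ U₁, f x ∈ U₂ ∧ g (f x) = x) (hgf : ∀ y ∈ U₂, g y ∈ U₁ ∧ f (g y) = y)
    {v : F → ℝ} (hv : ContDiff ℝ ∞ v) (hvs : HasCompactSupport v) (hvU : tsupport v ⊆ U₂) :
    ContDiff ℝ ∞ (U₁.indicator (v ∘ f)) ∧ HasCompactSupport (U₁.indicator (v ∘ f)) ∧
      tsupport (U₁.indicator (v ∘ f)) ⊆ g '' (tsupport v) ∧ g '' (tsupport v) ⊆ U₁ := by
  set K := g '' (tsupport v) with hK
  have hKc : IsCompact K := hvs.isCompact.image_of_continuousOn (hg.mono hvU)
  have hKU : K ⊆ U₁ := by
    rintro _ ⟨y, hy, rfl⟩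
    exact (hgf y (hvU hy)).1
  have hzero : ∀ x, x ∉ K → U₁.indicator (v ∘ f) x = 0 := by
    intro x hx
    by_cases hxU : x ∈ U₁
    · rw [indicator_of_mem hxU]
      by_contra hne
      apply hx
      exact ⟨f x, subset_tsupport v hne, (hfg x hxU).2⟩
    · rw [indicator_of_notMem hxU]
  have hts : tsupport (U₁.indicator (v ∘ f)) ⊆ K := by
    apply closure_minimal _ hKc.isClosed
    intro x hx
    by_contra hxK
    exact hx (hzero x hxK)
  refine ⟨?_, HasCompactSupport.of_support_subset_isCompact hKc (fun x hx => by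
    by_contra hxK; exact hx (hzero x hxK)), hts, hKU⟩
  rw [contDiff_iff_contDiffAt]
  intro x
  by_cases hxU : x ∈ U₁
  · have h1 : ContDiffAt ℝ ∞ (v ∘ f) x := (hv.contDiffAt).comp x (hf.contDiffAt (hU₁.mem_nhds hxU))
    apply h1.congr_of_eventuallyEq
    filter_upwards [hU₁.mem_nhds hxU] with y hy
    rw [indicator_of_mem hy]
  · have hxK : x ∉ K := fun h => hxU (hKU h)
    have h1 : ContDiffAt ℝ ∞ (fun _ : E => (0:ℝ)) x := contDiffAt_const
    apply h1.congr_of_eventuallyEq
    filter_upwards [hKc.isClosed.isOpen_compl.mem_nhds hxK] with y hy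
    exact hzero y hy

/-- abbreviation for the ambient space -/
abbrev X := (ℝ × ℝ) × ℝ

/-- log-polar map -/
noncomputable def Phi (x : X) : X := (Complex.equivRealProdCLM (Complex.exp (Complex.equivRealProdCLM.symm x.1)), x.2)

noncomputable def Psi (x : X) : X := (Complex.equivRealProdCLM (Complex.log (Complex.equivRealProdCLM.symm x.1)), x.2)

def strip : Set X := {x | x.1.2 ∈ Ioo (-π) π}

def slitX : Set X := {x | ¬ (x.1.2 = 0 ∧ x.1.1 ≤ 0)}

lemma Phi_apply (x : X) : Phi x = (pol (0, 0) (Real.exp x.1.1, x.1.2), x.2) := by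
  unfold Phi pol
  ext
  · simp [Complex.exp_re]
  · simp [Complex.exp_im]
  · simp

lemma isOpen_strip : IsOpen strip := by
  unfold strip
  exact isOpen_Ioo.preimage (by fun_prop : Continuous (fun x : X => x.1.2))

lemma mem_slitX_iff (x : X) : x ∈ slitX ↔ Complex.equivRealProdCLM.symm x.1 ∈ Complex.slitPlane := by
  rw [Complex.mem_slitPlane_iff]
  simp only [slitX, mem_ofPred_eq, Complex.equivRealProdCLM_symm_apply_re, Complex.equivRealProdCLM_symm_apply_im]
  constructor
  · intro h
    by_cases h1 : x.1.2 = 0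
    · left
      by_contra h2
      exact h ⟨h1, not_lt.1 h2⟩
    · right; exact h1
  · rintro (h | h) ⟨h1, h2⟩
    · linarith
    · exact h h1

lemma isOpen_slitX : IsOpen slitX := by
  have : slitX = (fun x : X => Complex.equivRealProdCLM.symm x.1) ⁻¹' Complex.slitPlane := by
    ext x; exact mem_slitX_iff x
  rw [this]
  exact Complex.isOpen_slitPlane.preimage (by fun_prop)

lemma Phi_contDiff : ContDiff ℝ ∞ Phi := by
  unfold Phi
  have h1 : ContDiff ℝ ∞ (fun x : X => Complex.exp (Complex.equivRealProdCLM.symm x.1)) := by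
    have h3 : ContDiff ℂ ∞ (fun z : ℂ => Complex.exp z) := Complex.contDiff_exp
    have h2 : ContDiff ℝ ∞ (fun z : ℂ => Complex.exp z) := h3.restrict_scalars ℝ
    exact h2.comp ((Complex.equivRealProdCLM.symm.contDiff).comp contDiff_fst)
  exact (Complex.equivRealProdCLM.contDiff.comp h1).prodMk contDiff_snd

lemma Psi_contDiffOn : ContDiffOn ℝ ∞ Psi slitX := by
  unfold Psi
  have h1 : ContDiffOn ℝ ∞ (fun x : X => Complex.log (Complex.equivRealProdCLM.symm x.1)) slitX := by
    intro x hx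
    apply ContDiffAt.contDiffWithinAt
    have h3 : ContDiffAt ℂ ∞ (fun z : ℂ => Complex.log z) (Complex.equivRealProdCLM.symm x.1) :=
      Complex.contDiffAt_log ((mem_slitX_iff x).1 hx)
    have h2 : ContDiffAt ℝ ∞ (fun z : ℂ => Complex.log z) (Complex.equivRealProdCLM.symm x.1) :=
      h3.restrict_scalars ℝ
    exact h2.comp x ((Complex.equivRealProdCLM.symm.contDiff).comp contDiff_fst).contDiffAt
  exact (Complex.equivRealProdCLM.contDiff.comp_contDiffOn h1).prodMk contDiff_snd.contDiffOn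

lemma Phi_Psi {x : X} (hx : x ∈ slitX) : Psi x ∈ strip ∧ Phi (Psi x) = x := by
  have h := (mem_slitX_iff x).1 hx
  constructor
  · simp only [strip, Psi, mem_ofPred_eq, Complex.equivRealProdCLM_apply]
    rw [Complex.log_im]
    have h1 := Complex.neg_pi_lt_arg (Complex.equivRealProdCLM.symm x.1)
    have h2 := Complex.arg_le_pi (Complex.equivRealProdCLM.symm x.1)
    refine ⟨h1, lt_of_le_of_ne h2 ?_⟩
    exact (Complex.mem_slitPlane_iff_arg.1 h).1
  · simp only [Phi, Psi]
    rw [ContinuousLinearEquiv.symm_apply_apply, Complex.exp_log (Complex.slitPlane_ne_zero h)]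
    ext <;> simp

lemma Psi_Phi {x : X} (hx : x ∈ strip) : Phi x ∈ slitX ∧ Psi (Phi x) = x := by
  have hx' : -π < (Complex.equivRealProdCLM.symm x.1).im ∧ (Complex.equivRealProdCLM.symm x.1).im < π := by
    simpa [strip] using hx
  constructor
  · rw [mem_slitX_iff]
    simp only [Phi]
    rw [ContinuousLinearEquiv.symm_apply_apply]
    rw [Complex.mem_slitPlane_iff_arg]
    refine ⟨?_, Complex.exp_ne_zero _⟩
    rw [← Complex.log_im, Complex.log_exp hx'.1 hx'.2.le]
    exact hx'.2.ne
  · simp only [Phi, Psi]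
    rw [ContinuousLinearEquiv.symm_apply_apply, Complex.log_exp hx'.1 hx'.2.le]
    ext <;> simp

end Pool.Agent.H63.Star
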