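import Mathlib
import Pool.Agent.H63.Star.LogPolar

open MeasureTheory Set Filter Topology
open scoped Real ENNReal NNReal ContDiff

namespace Pool.Agent.H63.Star

lemma lintegral_exp_subst (g : ℝ → ℝ≥0∞) :
    ∫⁻ ρ in Ioi (0 : ℝ), g ρ = ∫⁻ y, ENNReal.ofReal (Real.exp y) * g (Real.exp y) := by
  have h := lintegral_image_eq_lintegral_abs_deriv_mul (s := univ) MeasurableSet.univ
    (f := Real.exp) (f' := Real.exp) (fun x _ => (Real.hasDerivAt_exp x).hasDerivWithinAt)
    (Real.exp_injective.injOn) g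
  rw [image_univ, Real.range_exp, Measure.restrict_univ] at h
  rw [h]
  congr 1; ext y
  rw [abs_of_pos (Real.exp_pos y)]

lemma lintegral_planar_LP {F : ℝ × ℝ → ℝ≥0∞} (hF : Measurable F) :
    ∫⁻ x, F x = ∫⁻ y : ℝ, ∫⁻ ψ in Ioo (-π) π, ENNReal.ofReal (Real.exp (2 * y)) * F (pol (0, 0) (Real.exp y, ψ)) := by
  have mm : Measurable (fun p : ℝ × ℝ => ENNReal.ofReal p.1 * F (pol (0, 0) p)) :=
    (measurable_fst.ennreal_ofReal).mul (hF.comp (pol_contDiff (0, 0)).continuous.measurable)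
  rw [← lintegral_pol (0, 0)]
  have hprod : (volume : Measure (ℝ × ℝ)).restrict (Ioi (0 : ℝ) ×ˢ Ioo (-π) π)
      = (volume.restrict (Ioi (0:ℝ))).prod (volume.restrict (Ioo (-π) π)) := by
    rw [Measure.prod_restrict, Measure.volume_eq_prod]
  rw [hprod, lintegral_prod _ mm.aemeasurable,
    lintegral_exp_subst (fun ρ => ∫⁻ ψ in Ioo (-π) π, ENNReal.ofReal ρ * F (pol (0, 0) (ρ, ψ)))]
  congr 1; ext y
  have m1 : Measurable (fun ψ : ℝ => ENNReal.ofReal (Real.exp y) * F (pol (0, 0) (Real.exp y, ψ))) :=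
    mm.comp measurable_prodMk_left
  rw [← lintegral_const_mul _ m1]
  congr 1; ext ψ
  rw [← mul_assoc, ← ENNReal.ofReal_mul (Real.exp_pos y).le, ← Real.exp_add]
  congr 3; ring

lemma lintegral_LP {F : X → ℝ≥0∞} (hF : Measurable F) :
    ∫⁻ x, F x = ∫⁻ x in strip, ENNReal.ofReal (Real.exp (2 * x.1.1)) * F (Phi x) := by
  have mG : Measurable (fun x : X => ENNReal.ofReal (Real.exp (2 * x.1.1)) * F (Phi x)) := by
    have h1 : Measurable (fun x : X => Real.exp (2 * x.1.1)) := by fun_prop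
    exact h1.ennreal_ofReal.mul (hF.comp Phi_contDiff.continuous.measurable)
  have mI : Measurable (strip.indicator (fun x : X => ENNReal.ofReal (Real.exp (2 * x.1.1)) * F (Phi x))) :=
    mG.indicator isOpen_strip.measurableSet
  rw [← lintegral_indicator isOpen_strip.measurableSet, Measure.volume_eq_prod, lintegral_prod_symm _ hF.aemeasurable,
    lintegral_prod_symm _ mI.aemeasurable]
  congr 1; ext z
  have mz : Measurable (fun p : ℝ × ℝ => F (p, z)) := hF.comp measurable_prodMk_right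
  have mIz : Measurable (fun p : ℝ × ℝ => strip.indicator (fun x : X => ENNReal.ofReal (Real.exp (2 * x.1.1)) * F (Phi x)) (p, z)) :=
    mI.comp measurable_prodMk_right
  rw [lintegral_planar_LP mz, Measure.volume_eq_prod, lintegral_prod _ mIz.aemeasurable]
  congr 1; ext y
  rw [← lintegral_indicator measurableSet_Ioo]
  congr 1; ext ψ
  by_cases hψ : ψ ∈ Ioo (-π) π
  · rw [indicator_of_mem hψ, indicator_of_mem (show (((y, ψ), z) : X) ∈ strip from hψ), Phi_apply]
  · rw [indicator_of_notMem hψ, indicator_of_notMem (show (((y, ψ), z) : X) ∉ strip from hψ)]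

/-- log-polar gradient density -/
noncomputable def gradLP (V : X → ℝ) (x : X) : ℝ :=
  fderiv ℝ V x ((1, 0), 0) ^ 2 + fderiv ℝ V x ((0, 1), 0) ^ 2
    + Real.exp (2 * x.1.1) * fderiv ℝ V x ((0, 0), 1) ^ 2

noncomputable def enLP (V : X → ℝ) : ℝ≥0∞ := ∫⁻ x, ENNReal.ofReal (gradLP V x)
noncomputable def massLP (V : X → ℝ) : ℝ≥0∞ := ∫⁻ x : X, ENNReal.ofReal (Real.exp (2 * x.1.1) * V x ^ 2)
noncomputable def enX (v : X → ℝ) : ℝ≥0∞ := ∫⁻ x, ENNReal.ofReal (gradSq v x)
noncomputable def massX (v : X → ℝ) : ℝ≥0∞ := ∫⁻ x, ENNReal.ofReal (v x ^ 2)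

lemma measurable_gradSq {v : X → ℝ} (hv : ContDiff ℝ ∞ v) : Measurable (gradSq v) := by
  have cfd : Continuous (fun x => fderiv ℝ v x) := hv.continuous_fderiv (by simp)
  have c1 : Continuous (fun x => fderiv ℝ v x ((1, 0), 0)) := cfd.clm_apply continuous_const
  have c2 : Continuous (fun x => fderiv ℝ v x ((0, 1), 0)) := cfd.clm_apply continuous_const
  have c3 : Continuous (fun x => fderiv ℝ v x ((0, 0), 1)) := cfd.clm_apply continuous_const
  unfold gradSq
  exact (((c1.pow 2).add (c2.pow 2)).add (c3.pow 2)).measurable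

lemma Phi_deriv (v : X → ℝ) (hv : Differentiable ℝ v) (x : X) :
    fderiv ℝ (v ∘ Phi) x ((1, 0), 0) = Real.exp x.1.1 * (Real.cos x.1.2 * fderiv ℝ v (Phi x) ((1, 0), 0)
        + Real.sin x.1.2 * fderiv ℝ v (Phi x) ((0, 1), 0)) ∧
    fderiv ℝ (v ∘ Phi) x ((0, 1), 0) = Real.exp x.1.1 * (-Real.sin x.1.2 * fderiv ℝ v (Phi x) ((1, 0), 0)
        + Real.cos x.1.2 * fderiv ℝ v (Phi x) ((0, 1), 0)) ∧
    fderiv ℝ (v ∘ Phi) x ((0, 0), 1) = fderiv ℝ v (Phi x) ((0, 0), 1) := by
  have hPd : DifferentiableAt ℝ Phi x := (Phi_contDiff.differentiable (by simp)) x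
  have hc : fderiv ℝ (v ∘ Phi) x = (fderiv ℝ v (Phi x)).comp (fderiv ℝ Phi x) :=
    fderiv_comp x (hv (Phi x)) hPd
  have hPhi : Phi = fun x => (((0 + Real.exp x.1.1 * Real.cos x.1.2, 0 + Real.exp x.1.1 * Real.sin x.1.2), x.2) : X) := by
    ext x : 1
    rw [Phi_apply]; rfl
  have line : ∀ (u : X) (w : X), HasDerivAt (fun t : ℝ => Phi (x + t • u)) w 0 → fderiv ℝ Phi x u = w := by
    intro u w h
    have h1 : HasDerivAt (fun t : ℝ => x + t • u) u 0 := by
      simpa using ((hasDerivAt_id (0:ℝ)).smul_const u).const_add x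
    have h2 : HasFDerivAt Phi (fderiv ℝ Phi x) (x + (0:ℝ) • u) := by simpa using hPd.hasFDerivAt
    have h3 : HasDerivAt (Phi ∘ fun t : ℝ => x + t • u) (fderiv ℝ Phi x u) 0 := h2.comp_hasDerivAt (0:ℝ) h1
    exact h3.unique h
  have d1 : fderiv ℝ Phi x ((1, 0), 0) = ((Real.exp x.1.1 * Real.cos x.1.2, Real.exp x.1.1 * Real.sin x.1.2), 0) := by
    apply line
    rw [hPhi]
    have he : HasDerivAt (fun t : ℝ => Real.exp (x.1.1 + t)) (Real.exp x.1.1) 0 := by
      have := (Real.hasDerivAt_exp (x.1.1 + 0)).comp_const_add x.1.1 0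
      simpa using this
    have e1 : HasDerivAt (fun t : ℝ => 0 + Real.exp (x.1.1 + t) * Real.cos x.1.2) (Real.exp x.1.1 * Real.cos x.1.2) 0 :=
      (he.mul_const _).const_add 0
    have e2 : HasDerivAt (fun t : ℝ => 0 + Real.exp (x.1.1 + t) * Real.sin x.1.2) (Real.exp x.1.1 * Real.sin x.1.2) 0 :=
      (he.mul_const _).const_add 0
    have := (e1.prodMk e2).prodMk (hasDerivAt_const (0:ℝ) x.2)
    simpa using this
  have d2 : fderiv ℝ Phi x ((0, 1), 0) = ((Real.exp x.1.1 * -Real.sin x.1.2, Real.exp x.1.1 * Real.cos x.1.2), 0) := by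
    apply line
    rw [hPhi]
    have hs : HasDerivAt (fun t : ℝ => Real.sin (x.1.2 + t)) (Real.cos x.1.2) 0 := by
      have := (Real.hasDerivAt_sin (x.1.2 + 0)).comp_const_add x.1.2 0
      simpa using this
    have hc' : HasDerivAt (fun t : ℝ => Real.cos (x.1.2 + t)) (-Real.sin x.1.2) 0 := by
      have := (Real.hasDerivAt_cos (x.1.2 + 0)).comp_const_add x.1.2 0
      simpa using this
    have e1 : HasDerivAt (fun t : ℝ => 0 + Real.exp x.1.1 * Real.cos (x.1.2 + t)) (Real.exp x.1.1 * -Real.sin x.1.2) 0 :=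
      (hc'.const_mul _).const_add 0
    have e2 : HasDerivAt (fun t : ℝ => 0 + Real.exp x.1.1 * Real.sin (x.1.2 + t)) (Real.exp x.1.1 * Real.cos x.1.2) 0 :=
      (hs.const_mul _).const_add 0
    have := (e1.prodMk e2).prodMk (hasDerivAt_const (0:ℝ) x.2)
    simpa using this
  have d3 : fderiv ℝ Phi x ((0, 0), 1) = ((0, 0), 1) := by
    apply line
    rw [hPhi]
    have e3 : HasDerivAt (fun t : ℝ => x.2 + t) 1 0 := (hasDerivAt_id (0:ℝ)).const_add x.2
    have := ((hasDerivAt_const (0:ℝ) (0 + Real.exp x.1.1 * Real.cos x.1.2)).prodMk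
      (hasDerivAt_const (0:ℝ) (0 + Real.exp x.1.1 * Real.sin x.1.2))).prodMk e3
    simpa using this
  have lin : ∀ a b : ℝ, fderiv ℝ v (Phi x) ((a, b), 0) = a * fderiv ℝ v (Phi x) ((1, 0), 0) + b * fderiv ℝ v (Phi x) ((0, 1), 0) := by
    intro a b
    have : (((a, b), 0) : X) = a • (((1, 0), 0) : X) + b • (((0, 1), 0) : X) := by ext <;> simp
    rw [this, map_add, map_smul, map_smul]; rfl
  rw [hc]
  simp only [ContinuousLinearMap.comp_apply]
  rw [d1, d2, d3, lin (Real.exp x.1.1 * Real.cos x.1.2), lin (Real.exp x.1.1 * -Real.sin x.1.2)]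
  refine ⟨?_, ?_, rfl⟩ <;> ring

lemma gradLP_Phi (v : X → ℝ) (hv : Differentiable ℝ v) (x : X) :
    gradLP (v ∘ Phi) x = Real.exp (2 * x.1.1) * gradSq v (Phi x) := by
  obtain ⟨h1, h2, h3⟩ := Phi_deriv v hv x
  unfold gradLP gradSq
  rw [h1, h2, h3]
  have he : Real.exp (2 * x.1.1) = Real.exp x.1.1 ^ 2 := by rw [← Real.exp_nat_mul]; norm_num
  rw [he]
  have hs := Real.sin_sq_add_cos_sq x.1.2
  have hc : Real.cos x.1.2 ^ 2 = 1 - Real.sin x.1.2 ^ 2 := by linarith
  ring_nf
  rw [hc]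
  ring

/-- pull back a test function on the slit space to log-polar coordinates -/
theorem pull {v : X → ℝ} (hv : ContDiff ℝ ∞ v) (hvs : HasCompactSupport v) (hvU : tsupport v ⊆ slitX) :
    ContDiff ℝ ∞ (strip.indicator (v ∘ Phi)) ∧ HasCompactSupport (strip.indicator (v ∘ Phi)) ∧
      tsupport (strip.indicator (v ∘ Phi)) ⊆ Psi '' (tsupport v) ∧ Psi '' (tsupport v) ⊆ strip ∧
      enLP (strip.indicator (v ∘ Phi)) = enX v ∧ massLP (strip.indicator (v ∘ Phi)) = massX v := by
  obtain ⟨h1, h2, h3, h4⟩ := transfer_smooth isOpen_strip Phi_contDiff.contDiffOn Psi_contDiffOn.continuousOn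
    (fun x hx => Psi_Phi hx) (fun x hx => Phi_Psi hx) hv hvs hvU
  refine ⟨h1, h2, h3, h4, ?_, ?_⟩
  · unfold enLP enX
    rw [lintegral_LP (measurable_gradSq hv).ennreal_ofReal]
    have hsupp : ∀ x, x ∉ strip → gradLP (strip.indicator (v ∘ Phi)) x = 0 := by
      intro x hx
      have hx' : x ∉ tsupport (strip.indicator (v ∘ Phi)) := fun h => hx (h4 (h3 h))
      have : fderiv ℝ (strip.indicator (v ∘ Phi)) x = 0 := by
        have h5 : x ∉ tsupport (fderiv ℝ (strip.indicator (v ∘ Phi))) := fun h => hx' (tsupport_fderiv_subset ℝ h)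
        exact image_eq_zero_of_notMem_tsupport h5
      unfold gradLP
      rw [this]; simp
    rw [← lintegral_indicator isOpen_strip.measurableSet]
    congr 1; ext x
    by_cases hx : x ∈ strip
    · rw [indicator_of_mem hx, ← ENNReal.ofReal_mul (Real.exp_pos _).le, ← gradLP_Phi v (hv.differentiable (by simp)) x]
      congr 1
      unfold gradLP
      have : fderiv ℝ (strip.indicator (v ∘ Phi)) x = fderiv ℝ (v ∘ Phi) x := by
        apply Filter.EventuallyEq.fderiv_eq
        filter_upwards [isOpen_strip.mem_nhds hx] with y hy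
        rw [indicator_of_mem hy]
      rw [this]
    · rw [indicator_of_notMem hx, hsupp x hx, ENNReal.ofReal_zero]
  · unfold massLP massX
    rw [lintegral_LP (hv.continuous.measurable.pow_const 2).ennreal_ofReal, ← lintegral_indicator isOpen_strip.measurableSet]
    congr 1; ext x
    by_cases hx : x ∈ strip
    · rw [indicator_of_mem hx, indicator_of_mem hx, ← ENNReal.ofReal_mul (Real.exp_pos _).le]
      rfl
    · rw [indicator_of_notMem hx, indicator_of_notMem hx]; simp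

/-- push forward a log-polar test function -/
theorem push {V : X → ℝ} (hV : ContDiff ℝ ∞ V) (hVs : HasCompactSupport V) (hVU : tsupport V ⊆ strip) :
    ContDiff ℝ ∞ (slitX.indicator (V ∘ Psi)) ∧ HasCompactSupport (slitX.indicator (V ∘ Psi)) ∧
      tsupport (slitX.indicator (V ∘ Psi)) ⊆ Phi '' (tsupport V) ∧ Phi '' (tsupport V) ⊆ slitX ∧
      enX (slitX.indicator (V ∘ Psi)) = enLP V ∧ massX (slitX.indicator (V ∘ Psi)) = massLP V := by
  obtain ⟨h1, h2, h3, h4⟩ := transfer_smooth isOpen_slitX Psi_contDiffOn Phi_contDiff.continuous.continuousOn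
    (fun x hx => Phi_Psi hx) (fun x hx => Psi_Phi hx) hV hVs hVU
  have hback : strip.indicator (slitX.indicator (V ∘ Psi) ∘ Phi) = V := by
    ext x
    by_cases hx : x ∈ strip
    · rw [indicator_of_mem hx]
      simp only [Function.comp]
      rw [indicator_of_mem (Psi_Phi hx).1]
      simp only [Function.comp]
      rw [(Psi_Phi hx).2]
    · rw [indicator_of_notMem hx]
      exact (image_eq_zero_of_notMem_tsupport (fun h => hx (hVU h))).symm
  obtain ⟨-, -, -, -, h5, h6⟩ := pull h1 h2 (h3.trans h4)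
  rw [hback] at h5 h6
  exact ⟨h1, h2, h3, h4, h5.symm, h6.symm⟩

end Pool.Agent.H63.Star
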