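import Mathlib
import Pool.Agent.H63.Star.LogPolar2
import Pool.Agent.H63.Star.Chi

open MeasureTheory Set Filter Topology
open scoped Real ENNReal NNReal ContDiff

namespace Pool.Agent.H63.Star

lemma lintegral_prod3 {a b c : ℝ → ℝ≥0∞} (ha : Measurable a) (hb : Measurable b) (hc : Measurable c) :
    ∫⁻ x : X, a x.1.1 * b x.1.2 * c x.2 = (∫⁻ y, a y) * (∫⁻ y, b y) * (∫⁻ y, c y) := by
  have h1 : ∫⁻ x : X, a x.1.1 * b x.1.2 * c x.2 = (∫⁻ p : ℝ × ℝ, a p.1 * b p.2) * (∫⁻ y, c y) := by
    rw [Measure.volume_eq_prod]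
    exact lintegral_prod_mul (f := fun p : ℝ × ℝ => a p.1 * b p.2) (g := c)
      ((ha.comp measurable_fst).mul (hb.comp measurable_snd)).aemeasurable hc.aemeasurable
  have h2 : ∫⁻ p : ℝ × ℝ, a p.1 * b p.2 = (∫⁻ y, a y) * (∫⁻ y, b y) := by
    rw [Measure.volume_eq_prod]
    exact lintegral_prod_mul ha.aemeasurable hb.aemeasurable
  rw [h1, h2]

/-- product function -/
def prodF (f g k : ℝ → ℝ) (x : X) : ℝ := f x.1.1 * g x.1.2 * k x.2

lemma prodF_contDiff {f g k : ℝ → ℝ} (hf : ContDiff ℝ ∞ f) (hg : ContDiff ℝ ∞ g) (hk : ContDiff ℝ ∞ k) :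
    ContDiff ℝ ∞ (prodF f g k) := by
  unfold prodF
  exact ((hf.comp (contDiff_fst.comp contDiff_fst)).mul (hg.comp (contDiff_snd.comp contDiff_fst))).mul (hk.comp contDiff_snd)

lemma prodF_fderiv {f g k : ℝ → ℝ} (hf : ContDiff ℝ ∞ f) (hg : ContDiff ℝ ∞ g) (hk : ContDiff ℝ ∞ k) (x : X) :
    fderiv ℝ (prodF f g k) x ((1, 0), 0) = deriv f x.1.1 * g x.1.2 * k x.2 ∧
    fderiv ℝ (prodF f g k) x ((0, 1), 0) = f x.1.1 * deriv g x.1.2 * k x.2 ∧
    fderiv ℝ (prodF f g k) x ((0, 0), 1) = f x.1.1 * g x.1.2 * deriv k x.2 := by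
  have hd := (prodF_contDiff hf hg hk).differentiable (by simp) x
  have df : HasDerivAt f (deriv f x.1.1) (x.1.1 + 0) := by
    rw [add_zero]; exact (hf.differentiable (by simp) _).hasDerivAt
  have dg : HasDerivAt g (deriv g x.1.2) (x.1.2 + 0) := by
    rw [add_zero]; exact (hg.differentiable (by simp) _).hasDerivAt
  have dk : HasDerivAt k (deriv k x.2) (x.2 + 0) := by
    rw [add_zero]; exact (hk.differentiable (by simp) _).hasDerivAt
  have line : ∀ (u : X) (w : ℝ), HasDerivAt (fun t : ℝ => prodF f g k (x + t • u)) w 0 → fderiv ℝ (prodF f g k) x u = w := by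
    intro u w h
    have h1 : HasDerivAt (fun t : ℝ => x + t • u) u 0 := by
      simpa using ((hasDerivAt_id (0:ℝ)).smul_const u).const_add x
    have h2 : HasFDerivAt (prodF f g k) (fderiv ℝ (prodF f g k) x) (x + (0:ℝ) • u) := by simpa using hd.hasFDerivAt
    have h3 : HasDerivAt ((prodF f g k) ∘ fun t : ℝ => x + t • u) (fderiv ℝ (prodF f g k) x u) 0 := h2.comp_hasDerivAt (0:ℝ) h1
    exact h3.unique h
  refine ⟨?_, ?_, ?_⟩
  · apply line
    have := ((df.comp_const_add x.1.1 0).mul_const (g x.1.2)).mul_const (k x.2)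
    simpa [prodF] using this
  · apply line
    have := ((dg.comp_const_add x.1.2 0).const_mul (f x.1.1)).mul_const (k x.2)
    simpa [prodF] using this
  · apply line
    have := (dk.comp_const_add x.2 0).const_mul (f x.1.1 * g x.1.2)
    simpa [prodF] using this

lemma prodF_energy {f g k : ℝ → ℝ} (hf : ContDiff ℝ ∞ f) (hg : ContDiff ℝ ∞ g) (hk : ContDiff ℝ ∞ k) :
    enLP (prodF f g k) =
      (∫⁻ y, ENNReal.ofReal (deriv f y ^ 2)) * (∫⁻ y, ENNReal.ofReal (g y ^ 2)) * (∫⁻ y, ENNReal.ofReal (k y ^ 2))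
      + (∫⁻ y, ENNReal.ofReal (f y ^ 2)) * (∫⁻ y, ENNReal.ofReal (deriv g y ^ 2)) * (∫⁻ y, ENNReal.ofReal (k y ^ 2))
      + (∫⁻ y, ENNReal.ofReal (Real.exp (2 * y) * f y ^ 2)) * (∫⁻ y, ENNReal.ofReal (g y ^ 2)) * (∫⁻ y, ENNReal.ofReal (deriv k y ^ 2)) := by
  have cf := hf.continuous
  have cg := hg.continuous
  have ck := hk.continuous
  have cf' : Continuous (deriv f) := hf.continuous_deriv (by simp)
  have cg' : Continuous (deriv g) := hg.continuous_deriv (by simp)
  have ck' : Continuous (deriv k) := hk.continuous_deriv (by simp)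
  rw [← lintegral_prod3 (by fun_prop) (by fun_prop) (by fun_prop),
    ← lintegral_prod3 (by fun_prop) (by fun_prop) (by fun_prop),
    ← lintegral_prod3 (by fun_prop) (by fun_prop) (by fun_prop)]
  rw [← lintegral_add_left (by fun_prop), ← lintegral_add_left (by fun_prop)]
  unfold enLP
  congr 1; ext x
  obtain ⟨h1, h2, h3⟩ := prodF_fderiv hf hg hk x
  unfold gradLP
  rw [h1, h2, h3]
  have he := (Real.exp_pos (2 * x.1.1)).le
  rw [← ENNReal.ofReal_mul (by positivity), ← ENNReal.ofReal_mul (by positivity),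
    ← ENNReal.ofReal_mul (by positivity), ← ENNReal.ofReal_mul (by positivity),
    ← ENNReal.ofReal_mul (by positivity), ← ENNReal.ofReal_mul (by positivity),
    ← ENNReal.ofReal_add (by positivity) (by positivity), ← ENNReal.ofReal_add (by positivity) (by positivity)]
  congr 1
  ring

lemma prodF_mass {f g k : ℝ → ℝ} (hf : ContDiff ℝ ∞ f) (hg : ContDiff ℝ ∞ g) (hk : ContDiff ℝ ∞ k) :
    massLP (prodF f g k) =
      (∫⁻ y, ENNReal.ofReal (Real.exp (2 * y) * f y ^ 2)) * (∫⁻ y, ENNReal.ofReal (g y ^ 2)) * (∫⁻ y, ENNReal.ofReal (k y ^ 2)) := by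
  have cf := hf.continuous
  have cg := hg.continuous
  have ck := hk.continuous
  rw [← lintegral_prod3 (by fun_prop) (by fun_prop) (by fun_prop)]
  unfold massLP
  congr 1; ext x
  have he := (Real.exp_pos (2 * x.1.1)).le
  rw [← ENNReal.ofReal_mul (by positivity), ← ENNReal.ofReal_mul (by positivity)]
  congr 1
  unfold prodF
  ring

/-- the thick part, log-polar coordinates -/
def U0 : Set X := {x | Real.log (9 / 10) < x.1.1 ∧ x.1.1 < 0 ∧ x.1.2 ∈ Ioo (-π) π ∧ |x.2| < ph}

lemma isOpen_U0 : IsOpen U0 := by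
  unfold U0
  have c1 : Continuous (fun x : X => x.1.1) := by fun_prop
  have c2 : Continuous (fun x : X => x.1.2) := by fun_prop
  have c3 : Continuous (fun x : X => |x.2|) := by fun_prop
  exact (isOpen_lt continuous_const c1).inter ((isOpen_lt c1 continuous_const).inter
    ((isOpen_Ioo.preimage c2).inter (isOpen_lt c3 continuous_const)))

lemma radial_transform {F : ℝ → ℝ} (hF : ContDiff ℝ ∞ F) (hFs : HasCompactSupport F) (hFt : tsupport F ⊆ Ioo (9 / 10) 1) :
    ∃ f : ℝ → ℝ, ContDiff ℝ ∞ f ∧ HasCompactSupport f ∧ tsupport f ⊆ Ioo (Real.log (9 / 10)) 0 ∧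
      (∫⁻ y, ENNReal.ofReal (Real.exp (2 * y) * f y ^ 2)) = ∫⁻ ρ, ENNReal.ofReal (F ρ ^ 2) ∧
      (∫⁻ y, ENNReal.ofReal (deriv f y ^ 2)) + ENNReal.ofReal (1 / 4) * (∫⁻ y, ENNReal.ofReal (f y ^ 2))
        = ∫⁻ ρ, ENNReal.ofReal (deriv F ρ ^ 2) := by
  set f : ℝ → ℝ := fun y => Real.exp (-y / 2) * F (Real.exp y) with hf
  have hfc : ContDiff ℝ ∞ f := by
    rw [hf]
    exact (by fun_prop : ContDiff ℝ ∞ fun y : ℝ => Real.exp (-y / 2)).mul (hF.comp Real.contDiff_exp)
  -- support
  set K := Real.log '' (tsupport F) with hK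
  have hFpos : ∀ ρ ∈ tsupport F, 0 < ρ := fun ρ hρ => by have := (hFt hρ).1; linarith
  have hKc : IsCompact K := hFs.isCompact.image_of_continuousOn
    (Real.continuousOn_log.mono (fun ρ hρ => (hFpos ρ hρ).ne'))
  have hKsub : K ⊆ Ioo (Real.log (9 / 10)) 0 := by
    rintro _ ⟨ρ, hρ, rfl⟩
    have h := hFt hρ
    refine ⟨Real.log_lt_log (by norm_num) h.1, Real.log_neg (hFpos ρ hρ) h.2⟩
  have hoff : ∀ y, y ∉ K → f y = 0 := by
    intro y hy
    have : F (Real.exp y) = 0 := by
      by_contra hne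
      exact hy ⟨Real.exp y, subset_tsupport F hne, Real.log_exp y⟩
    simp only [hf, this, mul_zero]
  have hfs : HasCompactSupport f := HasCompactSupport.of_support_subset_isCompact hKc (fun x hx => by
    by_contra hxK; exact hx (hoff x hxK))
  have hft : tsupport f ⊆ K := by
    apply closure_minimal _ hKc.isClosed
    intro x hx
    by_contra hxK
    exact hx (hoff x hxK)
  have hsubst : ∀ g : ℝ → ℝ, (∀ ρ, ρ ≤ 0 → g ρ = 0) → ∫⁻ ρ, ENNReal.ofReal (g ρ) = ∫⁻ y, ENNReal.ofReal (Real.exp y * g (Real.exp y)) := by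
    intro g hg
    have h1 : ∫⁻ ρ, ENNReal.ofReal (g ρ) = ∫⁻ ρ in Ioi (0:ℝ), ENNReal.ofReal (g ρ) := by
      rw [← lintegral_indicator measurableSet_Ioi]
      congr 1; ext ρ
      by_cases h : ρ ∈ Ioi (0:ℝ)
      · rw [indicator_of_mem h]
      · rw [indicator_of_notMem h, hg ρ (not_lt.1 h)]; simp
    rw [h1, lintegral_exp_subst]
    congr 1; ext y
    rw [ENNReal.ofReal_mul (Real.exp_pos y).le]
  refine ⟨f, hfc, hfs, hft.trans hKsub, ?_, ?_⟩
  · rw [hsubst (fun ρ => F ρ ^ 2)]
    · congr 1; ext y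
      congr 1
      simp only [hf]
      rw [mul_pow, ← Real.exp_nat_mul, ← mul_assoc, ← Real.exp_add]
      congr 2
      push_cast; ring
    · intro ρ hρ
      have : F ρ = 0 := by
        by_contra hne
        have := hFpos ρ (subset_tsupport F hne)
        linarith
      rw [this]; simp
  · rw [hsubst (fun ρ => deriv F ρ ^ 2)]
    · have hder : ∀ y, HasDerivAt f (-(1 / 2) * f y + Real.exp (y / 2) * deriv F (Real.exp y)) y := by
        intro y
        have h1 : HasDerivAt (fun y : ℝ => Real.exp (-y / 2)) (Real.exp (-y / 2) * (-1 / 2)) y :=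
          (((hasDerivAt_id' y).neg).div_const 2).exp
        have h2 : HasDerivAt (fun y : ℝ => F (Real.exp y)) (deriv F (Real.exp y) * Real.exp y) y :=
          ((hF.differentiable (by simp) _).hasDerivAt).comp y (Real.hasDerivAt_exp y)
        have h3 := h1.mul h2
        have e : Real.exp (-y / 2) * (-1 / 2) * F (Real.exp y) + Real.exp (-y / 2) * (deriv F (Real.exp y) * Real.exp y)
            = -(1 / 2) * f y + Real.exp (y / 2) * deriv F (Real.exp y) := by
          have h4 : Real.exp (-y / 2) * Real.exp y = Real.exp (y / 2) := by rw [← Real.exp_add]; congr 1; ring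
          simp only [hf]
          rw [← h4]; ring
        rw [e] at h3
        exact h3
      have hd : deriv f = fun y => -(1 / 2) * f y + Real.exp (y / 2) * deriv F (Real.exp y) := funext fun y => (hder y).deriv
      have cf : Continuous f := hfc.continuous
      have cf' : Continuous (deriv f) := hfc.continuous_deriv (by simp)
      have hds : HasCompactSupport (deriv f) := hfs.deriv
      have s1 : HasCompactSupport (fun y => deriv f y ^ 2) := hds.comp_left (g := fun y => y ^ 2) (by simp)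
      have s2 : HasCompactSupport (fun y => f y ^ 2) := hfs.comp_left (g := fun y => y ^ 2) (by simp)
      have c1 : Continuous (fun y => deriv f y ^ 2) := cf'.pow 2
      have c2 : Continuous (fun y => f y ^ 2) := cf.pow 2
      have c3 : Continuous (fun y => 2 * f y * deriv f y) := (continuous_const.mul cf).mul cf'
      have s3 : HasCompactSupport (fun y => 2 * f y * deriv f y) := hds.mul_left
      have i1 : Integrable (fun y => deriv f y ^ 2) := c1.integrable_of_hasCompactSupport s1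
      have i2 : Integrable (fun y => f y ^ 2) := c2.integrable_of_hasCompactSupport s2
      have i3 : Integrable (fun y => 2 * f y * deriv f y) := c3.integrable_of_hasCompactSupport s3
      have hz : ∫ y, 2 * f y * deriv f y = 0 := by
        apply integral_eq_zero_of_hasDerivAt_of_integrable (f := fun y => f y ^ 2) _ i3 i2
        intro y
        have := ((hfc.differentiable (by simp) y).hasDerivAt).fun_pow 2
        simpa [mul_comm, mul_assoc, mul_left_comm] using this
      have hpt : ∀ y, Real.exp y * (fun ρ => deriv F ρ ^ 2) (Real.exp y) = deriv f y ^ 2 + 1 / 4 * f y ^ 2 + 1 / 2 * (2 * f y * deriv f y) := by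
        intro y
        have h5 : Real.exp y = Real.exp (y / 2) ^ 2 := by rw [← Real.exp_nat_mul]; congr 1; push_cast; ring
        have h6 : Real.exp y * (fun ρ => deriv F ρ ^ 2) (Real.exp y) = (deriv f y + 1 / 2 * f y) ^ 2 := by
          have h7 : deriv f y + 1 / 2 * f y = Real.exp (y / 2) * deriv F (Real.exp y) := by rw [hd]; ring
          rw [h7, mul_pow, ← h5]
        rw [h6]; ring
      have i4 : Integrable (fun y => Real.exp y * (fun ρ => deriv F ρ ^ 2) (Real.exp y)) := by
        simp_rw [hpt]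
        exact (i1.add (i2.const_mul _)).add (i3.const_mul _)
      rw [← ofReal_integral_eq_lintegral_ofReal i1 (Eventually.of_forall fun _ => sq_nonneg _),
        ← ofReal_integral_eq_lintegral_ofReal i2 (Eventually.of_forall fun _ => sq_nonneg _),
        ← ofReal_integral_eq_lintegral_ofReal i4 (Eventually.of_forall fun y => by
          have := (Real.exp_pos y).le; positivity), ← ENNReal.ofReal_mul (by norm_num),
        ← ENNReal.ofReal_add (integral_nonneg fun _ => sq_nonneg _) (by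
          have : 0 ≤ ∫ y, f y ^ 2 := integral_nonneg fun _ => sq_nonneg _
          positivity)]
      congr 1
      have : ∫ y, Real.exp y * (fun ρ => deriv F ρ ^ 2) (Real.exp y) = ∫ y, (deriv f y ^ 2 + 1 / 4 * f y ^ 2 + 1 / 2 * (2 * f y * deriv f y)) := by
        congr 1; ext y; exact hpt y
      have i2' : Integrable (fun y => 1 / 4 * f y ^ 2) := i2.const_mul _
      have i3' : Integrable (fun y => 1 / 2 * (2 * f y * deriv f y)) := i3.const_mul _
      have i12 : Integrable (fun y => deriv f y ^ 2 + 1 / 4 * f y ^ 2) := i1.add i2'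
      rw [this, integral_add i12 i3', integral_add i1 i2',
        integral_const_mul, integral_const_mul, hz]
      ring
    · intro ρ hρ
      have : deriv F ρ = 0 := by
        by_contra hne
        have := hFpos ρ (tsupport_deriv_subset (𝕜 := ℝ) (f := F) (subset_tsupport (deriv F) hne))
        linarith
      rw [this]; simp

theorem competitor {ε : ℝ} (hε : 0 < ε) : ∃ V : X → ℝ, ContDiff ℝ ∞ V ∧ HasCompactSupport V ∧ tsupport V ⊆ U0 ∧
    massLP V ≠ 0 ∧ massLP V ≠ ⊤ ∧
    enLP V ≤ ENNReal.ofReal ((π / (2 * ph)) ^ 2 + 100 * π ^ 2 + ε) * massLP V := by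
  have hpi := Real.pi_pos
  have hh := ph_pos
  set ε' := ε / 4 with hε'
  have hε'0 : 0 < ε' := by positivity
  obtain ⟨F, hF, hFs, hFt, hFp, hFe⟩ := oneD_test (a := 9 / 10) (b := 1) (by norm_num) hε'0
  obtain ⟨g, hg, hgs, hgt, hgp, hge⟩ := oneD_test (a := -π) (b := π) (by linarith) hε'0
  obtain ⟨k, hk, hks, hkt, hkp, hke⟩ := oneD_test (a := -ph) (b := ph) (by linarith) hε'0
  obtain ⟨f, hf, hfs, hft, hf0, hf1⟩ := radial_transform hF hFs hFt
  -- lintegral forms
  have conv : ∀ G : ℝ → ℝ, ContDiff ℝ ∞ G → HasCompactSupport G →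
      (∫⁻ y, ENNReal.ofReal (G y ^ 2)) = ENNReal.ofReal (∫ y, G y ^ 2) ∧
      (∫⁻ y, ENNReal.ofReal (deriv G y ^ 2)) = ENNReal.ofReal (∫ y, deriv G y ^ 2) := by
    intro G hG hGs
    have cf : Continuous G := hG.continuous
    have cf' : Continuous (deriv G) := hG.continuous_deriv (by simp)
    have s1 : HasCompactSupport (fun y => deriv G y ^ 2) := hGs.deriv.comp_left (g := fun y => y ^ 2) (by simp)
    have s2 : HasCompactSupport (fun y => G y ^ 2) := hGs.comp_left (g := fun y => y ^ 2) (by simp)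
    have c1 : Continuous (fun y => deriv G y ^ 2) := cf'.pow 2
    have c2 : Continuous (fun y => G y ^ 2) := cf.pow 2
    exact ⟨(ofReal_integral_eq_lintegral_ofReal (c2.integrable_of_hasCompactSupport s2) (Eventually.of_forall fun _ => sq_nonneg _)).symm,
      (ofReal_integral_eq_lintegral_ofReal (c1.integrable_of_hasCompactSupport s1) (Eventually.of_forall fun _ => sq_nonneg _)).symm⟩
  obtain ⟨F0, F1⟩ := conv F hF hFs
  obtain ⟨g0, g1⟩ := conv g hg hgs
  obtain ⟨k0, k1⟩ := conv k hk hks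
  set a0 := (∫⁻ y, ENNReal.ofReal (Real.exp (2 * y) * f y ^ 2)) with ha0
  set a1 := (∫⁻ y, ENNReal.ofReal (deriv f y ^ 2)) with ha1
  set a2 := (∫⁻ y, ENNReal.ofReal (f y ^ 2)) with ha2
  have ka0 : a0 = ENNReal.ofReal (∫ x, F x ^ 2) := by rw [hf0, F0]
  have ka1 : a1 + ENNReal.ofReal (1 / 4) * a2 ≤ ENNReal.ofReal (100 * π ^ 2 + ε') * a0 := by
    rw [hf1, F1, ka0, ← ENNReal.ofReal_mul (by positivity)]
    apply ENNReal.ofReal_le_ofReal
    refine hFe.trans (le_of_eq ?_)
    congr 2
    norm_num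
    ring
  have ka2 : a2 ≤ ENNReal.ofReal 2 * a0 := by
    rw [ha0, ha2, ← lintegral_const_mul _ (by have := hf.continuous; fun_prop)]
    apply lintegral_mono
    intro y
    simp only
    rw [← ENNReal.ofReal_mul (by norm_num)]
    apply ENNReal.ofReal_le_ofReal
    by_cases hy : f y = 0
    · rw [hy]; simp
    · have h1 : Real.log (9 / 10) < y := (hft (subset_tsupport f hy)).1
      have h2 : (9 / 10 : ℝ) < Real.exp y := by rwa [← Real.log_lt_iff_lt_exp (by norm_num)]
      have h3 : Real.exp (2 * y) = Real.exp y ^ 2 := by rw [← Real.exp_nat_mul]; norm_num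
      rw [h3]
      have h4 : (9 / 10 : ℝ) ^ 2 ≤ Real.exp y ^ 2 := pow_le_pow_left₀ (by norm_num) h2.le 2
      have h5 : 0 ≤ f y ^ 2 := sq_nonneg _
      nlinarith
  have kg : ENNReal.ofReal (∫ x, deriv g x ^ 2) ≤ ENNReal.ofReal (1 / 4 + ε') * ENNReal.ofReal (∫ x, g x ^ 2) := by
    rw [← ENNReal.ofReal_mul (by positivity)]
    apply ENNReal.ofReal_le_ofReal
    refine hge.trans (le_of_eq ?_)
    congr 2
    rw [show π - -π = 2 * π by ring]
    field_simp; norm_num
  have kk : ENNReal.ofReal (∫ x, deriv k x ^ 2) ≤ ENNReal.ofReal ((π / (2 * ph)) ^ 2 + ε') * ENNReal.ofReal (∫ x, k x ^ 2) := by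
    rw [← ENNReal.ofReal_mul (by positivity)]
    apply ENNReal.ofReal_le_ofReal
    refine hke.trans (le_of_eq ?_)
    congr 3
    ring
  refine ⟨prodF f g k, prodF_contDiff hf hg hk, ?_, ?_, ?_, ?_, ?_⟩
  · -- compact support
    have hK : IsCompact ((tsupport f ×ˢ tsupport g) ×ˢ tsupport k) := (hfs.isCompact.prod hgs.isCompact).prod hks.isCompact
    apply HasCompactSupport.of_support_subset_isCompact hK
    intro x hx
    simp only [Function.mem_support, prodF] at hx
    have h1 : f x.1.1 ≠ 0 := fun h => hx (by rw [h]; ring)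
    have h2 : g x.1.2 ≠ 0 := fun h => hx (by rw [h]; ring)
    have h3 : k x.2 ≠ 0 := fun h => hx (by rw [h]; ring)
    exact ⟨⟨subset_tsupport f h1, subset_tsupport g h2⟩, subset_tsupport k h3⟩
  · have hK : IsCompact ((tsupport f ×ˢ tsupport g) ×ˢ tsupport k) := (hfs.isCompact.prod hgs.isCompact).prod hks.isCompact
    have h1 : tsupport (prodF f g k) ⊆ (tsupport f ×ˢ tsupport g) ×ˢ tsupport k := by
      apply closure_minimal _ hK.isClosed
      intro x hx
      simp only [Function.mem_support, prodF] at hx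
      have h1 : f x.1.1 ≠ 0 := fun h => hx (by rw [h]; ring)
      have h2 : g x.1.2 ≠ 0 := fun h => hx (by rw [h]; ring)
      have h3 : k x.2 ≠ 0 := fun h => hx (by rw [h]; ring)
      exact ⟨⟨subset_tsupport f h1, subset_tsupport g h2⟩, subset_tsupport k h3⟩
    intro x hx
    have h2 := h1 hx
    have h3 := hft h2.1.1
    have h4 := hgt h2.1.2
    have h5 := hkt h2.2
    exact ⟨h3.1, h3.2, h4, abs_lt.2 h5⟩
  · rw [prodF_mass hf hg hk, ← ha0, ka0, g0, k0]
    have p1 : ENNReal.ofReal (∫ x, F x ^ 2) ≠ 0 := by simpa using hFp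
    have p2 : ENNReal.ofReal (∫ x, g x ^ 2) ≠ 0 := by simpa using hgp
    have p3 : ENNReal.ofReal (∫ x, k x ^ 2) ≠ 0 := by simpa using hkp
    exact mul_ne_zero (mul_ne_zero p1 p2) p3
  · rw [prodF_mass hf hg hk, ← ha0, ka0, g0, k0]
    exact ENNReal.mul_ne_top (ENNReal.mul_ne_top ENNReal.ofReal_ne_top ENNReal.ofReal_ne_top) ENNReal.ofReal_ne_top
  · rw [prodF_mass hf hg hk, prodF_energy hf hg hk, g0, g1, k0, k1, ← ha0, ← ha1, ← ha2]
    set b0 := ENNReal.ofReal (∫ x, g x ^ 2)
    set b1 := ENNReal.ofReal (∫ x, deriv g x ^ 2)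
    set c0 := ENNReal.ofReal (∫ x, k x ^ 2)
    set c1 := ENNReal.ofReal (∫ x, deriv k x ^ 2)
    calc a1 * b0 * c0 + a2 * b1 * c0 + a0 * b0 * c1
        ≤ a1 * b0 * c0 + a2 * (ENNReal.ofReal (1 / 4 + ε') * b0) * c0 + a0 * b0 * (ENNReal.ofReal ((π / (2 * ph)) ^ 2 + ε') * c0) := by
          refine add_le_add (add_le_add le_rfl ?_) ?_
          · exact mul_le_mul' (mul_le_mul' le_rfl kg) le_rfl
          · exact mul_le_mul' le_rfl kk
      _ = (a1 + ENNReal.ofReal (1 / 4) * a2 + ENNReal.ofReal ε' * a2 + ENNReal.ofReal ((π / (2 * ph)) ^ 2 + ε') * a0) * b0 * c0 := by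
          rw [ENNReal.ofReal_add (by norm_num : (0:ℝ) ≤ 1 / 4) hε'0.le]; ring
      _ ≤ (ENNReal.ofReal (100 * π ^ 2 + ε') * a0 + ENNReal.ofReal ε' * (ENNReal.ofReal 2 * a0) + ENNReal.ofReal ((π / (2 * ph)) ^ 2 + ε') * a0) * b0 * c0 := by
          refine mul_le_mul' (mul_le_mul' (add_le_add (add_le_add ka1 (mul_le_mul' le_rfl ka2)) le_rfl) le_rfl) le_rfl
      _ = (ENNReal.ofReal (100 * π ^ 2 + ε') + ENNReal.ofReal ε' * ENNReal.ofReal 2 + ENNReal.ofReal ((π / (2 * ph)) ^ 2 + ε')) * (a0 * b0 * c0) := by ring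
      _ = ENNReal.ofReal ((π / (2 * ph)) ^ 2 + 100 * π ^ 2 + ε) * (a0 * b0 * c0) := by
          congr 1
          rw [← ENNReal.ofReal_mul hε'0.le, ← ENNReal.ofReal_add (by positivity) (by positivity),
            ← ENNReal.ofReal_add (by positivity) (by positivity)]
          congr 1
          rw [hε']; ring

end Pool.Agent.H63.Star
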