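import Mathlib
import Pool.Agent.H63.Star.Competitor

open MeasureTheory Set Filter Topology
open scoped Real ENNReal NNReal ContDiff

namespace Pool.Agent.H63.Star

lemma isOpen_boxX : IsOpen boxX := by
  have h1 : Continuous (fun x : X => nr x.1) := nr_continuous.comp continuous_fst
  have h2 : Continuous (fun x : X => ph * tt pκ (nr x.1)) := continuous_const.mul ((tt_continuous _).comp h1)
  exact (isOpen_lt h1 continuous_const).inter ((isOpen_lt (continuous_snd.abs) h2).inter isOpen_slitX)

lemma boxX_subset_slit : boxX ⊆ slitX := fun _ hx => hx.2.2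

/-- star centre -/
noncomputable def q0 : X := ((pκ / 4, 0), 0)

lemma nr_q0 : nr q0.1 = pκ / 4 := by
  simp only [q0, nr]
  rw [show (pκ / 4) ^ 2 + (0:ℝ) ^ 2 = (pκ / 4) ^ 2 by ring, Real.sqrt_sq (by have := pκ_pos; positivity)]

lemma q0_mem : q0 ∈ boxX := by
  have hκ := pκ_pos
  have hκ1 := pκ_le
  refine ⟨?_, ?_, ?_⟩
  · rw [nr_q0]; linarith
  · have : (0:ℝ) < tt pκ (nr q0.1) := tt_pos hκ (by linarith) (nr_nonneg _)
    have := ph_pos
    simp only [q0, abs_zero] at *
    positivity
  · rintro ⟨-, h⟩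
    simp only [q0] at h
    linarith

lemma starConvex_boxX : StarConvex ℝ q0 boxX := by
  have hκ := pκ_pos
  have hκ1 := pκ_le
  have hh := ph_pos
  intro x hx a b ha hb hab
  rcases hb.eq_or_lt with rfl | hb0
  · have : a = 1 := by linarith
    subst this
    simpa using q0_mem
  obtain ⟨h1, h2, h3⟩ := hx
  have hn1 : nr (a • q0.1 + b • x.1) ≤ a * (pκ / 4) + b * nr x.1 := by
    refine (nr_add_le _ _).trans ?_
    rw [nr_smul, nr_smul, abs_of_nonneg ha, abs_of_nonneg hb, nr_q0]
  have hn2 : b * nr x.1 - a * (pκ / 4) ≤ nr (a • q0.1 + b • x.1) := by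
    have h4 : nr (b • x.1) ≤ nr (a • q0.1 + b • x.1) + nr ((-a) • q0.1) := by
      have : b • x.1 = (a • q0.1 + b • x.1) + (-a) • q0.1 := by
        rw [neg_smul]; abel
      conv_lhs => rw [this]
      exact nr_add_le _ _
    rw [nr_smul, nr_smul, abs_neg, abs_of_nonneg ha, abs_of_nonneg hb, nr_q0] at h4
    linarith
  have htt : b * tt pκ (nr x.1) ≤ tt pκ (nr (a • q0.1 + b • x.1)) := by
    apply le_min
    · have := tt_le_one pκ (nr x.1)
      have : b * tt pκ (nr x.1) ≤ b * 1 := by gcongr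
      linarith
    · have h5 := tt_le pκ (nr x.1)
      have h6 : b * tt pκ (nr x.1) ≤ b * (pκ + (1 - pκ) * (nr x.1 / (9 / 10))) := by gcongr
      have h7 : pκ + (1 - pκ) * ((b * nr x.1 - a * (pκ / 4)) / (9 / 10)) ≤ pκ + (1 - pκ) * (nr (a • q0.1 + b • x.1) / (9 / 10)) := by
        have : 0 ≤ 1 - pκ := by linarith
        gcongr
      have h8 : b * (pκ + (1 - pκ) * (nr x.1 / (9 / 10))) ≤ pκ + (1 - pκ) * ((b * nr x.1 - a * (pκ / 4)) / (9 / 10)) := by
        have e : pκ + (1 - pκ) * ((b * nr x.1 - a * (pκ / 4)) / (9 / 10)) - b * (pκ + (1 - pκ) * (nr x.1 / (9 / 10)))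
            = (1 - b) * pκ - (1 - pκ) * a * pκ * (5 / 18) := by ring
        have ea : 1 - b = a := by linarith
        rw [ea] at e
        have : 0 ≤ a * pκ - (1 - pκ) * a * pκ * (5 / 18) := by
          have h9 : (1 - pκ) * (a * pκ) ≤ 1 * (a * pκ) := by
            have : 0 ≤ a * pκ := by positivity
            have : 1 - pκ ≤ 1 := by linarith
            gcongr
          nlinarith [mul_nonneg ha hκ.le]
        linarith
      linarith
  refine ⟨?_, ?_, ?_⟩
  · change nr (a • q0.1 + b • x.1) < 1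
    have : a * (pκ / 4) ≤ a * 1 := by gcongr; linarith
    have : b * nr x.1 < b * 1 := by gcongr
    linarith
  · change |a • q0.2 + b • x.2| < ph * tt pκ (nr (a • q0.1 + b • x.1))
    have e : a • q0.2 + b • x.2 = b * x.2 := by simp [q0]
    rw [e, abs_mul, abs_of_pos hb0]
    calc b * |x.2| < b * (ph * tt pκ (nr x.1)) := by gcongr
      _ = ph * (b * tt pκ (nr x.1)) := by ring
      _ ≤ _ := by gcongr
  · rintro ⟨h5, h6⟩
    have e5 : (a • q0 + b • x).1.2 = b * x.1.2 := by simp [q0]
    have e6 : (a • q0 + b • x).1.1 = a * (pκ / 4) + b * x.1.1 := by simp [q0]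
    rw [e5] at h5
    rw [e6] at h6
    have h7 : x.1.2 = 0 := by
      rcases mul_eq_zero.1 h5 with h | h
      · exact absurd h hb0.ne'
      · exact h
    have h8 : 0 < x.1.1 := by
      by_contra hcon
      exact h3 ⟨h7, not_lt.1 hcon⟩
    have : 0 < b * x.1.1 := by positivity
    have : 0 ≤ a * (pκ / 4) := by positivity
    linarith

lemma isBounded_boxX : Bornology.IsBounded boxX := by
  refine (Metric.isBounded_closedBall (x := (0 : X)) (r := 1)).subset ?_
  rintro x ⟨h1, h2, -⟩
  rw [mem_closedBall_zero_iff, Prod.norm_def, Prod.norm_def]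
  have hn := nr_sq x.1
  have hn0 := nr_nonneg x.1
  have hsq : nr x.1 ^ 2 ≤ 1 := by nlinarith
  have a1 : |x.1.1| ≤ 1 := by
    rw [← sq_le_one_iff_abs_le_one]; nlinarith [sq_nonneg x.1.2]
  have a2 : |x.1.2| ≤ 1 := by
    rw [← sq_le_one_iff_abs_le_one]; nlinarith [sq_nonneg x.1.1]
  have a3 : |x.2| ≤ 1 := by
    have h3 := tt_le_one pκ (nr x.1)
    have h4 : ph ≤ 1 := by unfold ph; norm_num
    have h5 := ph_pos
    nlinarith
  exact max_le (max_le a1 a2) a3

/-- log-polar box -/
def boxLP : Set X := {x | x.1.1 < 0 ∧ x.1.2 ∈ Ioo (-π) π ∧ |x.2| < ph * tt pκ (Real.exp x.1.1)}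

lemma isOpen_boxLP : IsOpen boxLP := by
  have c1 : Continuous (fun x : X => x.1.1) := by fun_prop
  have c2 : Continuous (fun x : X => x.1.2) := by fun_prop
  have c3 : Continuous (fun x : X => |x.2|) := by fun_prop
  have c4 : Continuous (fun x : X => ph * tt pκ (Real.exp x.1.1)) :=
    continuous_const.mul ((tt_continuous _).comp (Real.continuous_exp.comp c1))
  exact (isOpen_lt c1 continuous_const).inter ((isOpen_Ioo.preimage c2).inter (isOpen_lt c3 c4))

lemma boxLP_subset_strip : boxLP ⊆ strip := fun _ hx => hx.2.1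

lemma nr_Phi (x : X) : nr (Phi x).1 = Real.exp x.1.1 := by
  rw [Phi_apply]; exact nr_pol_zero (Real.exp_pos _).le _

lemma Phi_mem_boxX {x : X} (hx : x ∈ strip) : Phi x ∈ boxX ↔ x ∈ boxLP := by
  have h2 : (Phi x).2 = x.2 := rfl
  constructor
  · rintro ⟨h3, h4, -⟩
    rw [nr_Phi] at h3 h4
    exact ⟨by rwa [Real.exp_lt_one_iff] at h3, hx, h4⟩
  · rintro ⟨h3, -, h4⟩
    refine ⟨?_, ?_, (Psi_Phi hx).1⟩
    · rw [nr_Phi]; rwa [Real.exp_lt_one_iff]
    · rw [nr_Phi]; exact h4

lemma image_Phi_eq {U : Set X} (hU : U ⊆ strip) : Phi '' U = slitX ∩ Psi ⁻¹' U := by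
  ext x
  constructor
  · rintro ⟨y, hy, rfl⟩
    have := Psi_Phi (hU hy)
    exact ⟨this.1, by rw [mem_preimage, this.2]; exact hy⟩
  · rintro ⟨h1, h2⟩
    exact ⟨Psi x, h2, (Phi_Psi h1).2⟩

lemma isOpen_image_Phi {U : Set X} (hU : IsOpen U) (hUs : U ⊆ strip) : IsOpen (Phi '' U) := by
  rw [image_Phi_eq hUs]
  exact Psi_contDiffOn.continuousOn.isOpen_inter_preimage isOpen_slitX hU

/-- log-polar volume -/
noncomputable def muLP (U : Set X) : ℝ≥0∞ := ∫⁻ x in U, ENNReal.ofReal (Real.exp (2 * x.1.1))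

lemma volume_image_Phi {U : Set X} (hU : IsOpen U) (hUs : U ⊆ strip) : volume (Phi '' U) = muLP U := by
  have hm : MeasurableSet (Phi '' U) := (isOpen_image_Phi hU hUs).measurableSet
  have h1 : volume (Phi '' U) = ∫⁻ x, (Phi '' U).indicator (fun _ => 1) x := by
    rw [lintegral_indicator hm]; simp
  rw [h1, lintegral_LP (measurable_const.indicator hm), ← lintegral_indicator isOpen_strip.measurableSet]
  unfold muLP
  rw [← lintegral_indicator hU.measurableSet]
  congr 1; ext x
  by_cases hx : x ∈ U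
  · rw [indicator_of_mem (hUs hx), indicator_of_mem hx, indicator_of_mem (mem_image_of_mem _ hx), mul_one]
  · rw [indicator_of_notMem hx]
    by_cases hs : x ∈ strip
    · rw [indicator_of_mem hs]
      have : Phi x ∉ Phi '' U := by
        rw [image_Phi_eq hUs]
        rintro ⟨-, h⟩
        rw [mem_preimage, (Psi_Phi hs).2] at h
        exact hx h
      rw [indicator_of_notMem this, mul_zero]
    · rw [indicator_of_notMem hs]

lemma U0_subset_boxLP : U0 ⊆ boxLP := by
  rintro x ⟨h1, h2, h3, h4⟩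
  refine ⟨h2, h3, ?_⟩
  have h5 : (9 / 10 : ℝ) ≤ Real.exp x.1.1 := by
    rw [Real.log_lt_iff_lt_exp (by norm_num)] at h1; exact h1.le
  rw [tt_eq_one (by have := pκ_le; linarith) h5, mul_one]
  exact h4

lemma muLP_U0 : muLP U0 = ENNReal.ofReal pA := by
  have hpi := Real.pi_pos
  have hh := ph_pos
  unfold muLP
  rw [← lintegral_indicator isOpen_U0.measurableSet]
  have h1 : ∀ x : X, U0.indicator (fun x => ENNReal.ofReal (Real.exp (2 * x.1.1))) x =
      (Ioo (Real.log (9 / 10)) 0).indicator (fun y => ENNReal.ofReal (Real.exp (2 * y))) x.1.1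
      * (Ioo (-π) π).indicator (fun _ => (1 : ℝ≥0∞)) x.1.2 * (Ioo (-ph) ph).indicator (fun _ => (1 : ℝ≥0∞)) x.2 := by
    intro x
    by_cases a1 : x.1.1 ∈ Ioo (Real.log (9 / 10)) 0
    · by_cases a2 : x.1.2 ∈ Ioo (-π) π
      · by_cases a3 : x.2 ∈ Ioo (-ph) ph
        · rw [indicator_of_mem a1, indicator_of_mem a2, indicator_of_mem a3,
            indicator_of_mem (show x ∈ U0 from ⟨a1.1, a1.2, a2, abs_lt.2 a3⟩)]
          simp
        · rw [indicator_of_notMem a3, indicator_of_notMem (show x ∉ U0 from fun h => a3 (abs_lt.1 h.2.2.2))]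
          simp
      · rw [indicator_of_notMem a2, indicator_of_notMem (show x ∉ U0 from fun h => a2 h.2.2.1)]
        simp
    · rw [indicator_of_notMem a1, indicator_of_notMem (show x ∉ U0 from fun h => a1 ⟨h.1, h.2.1⟩)]
      simp
  simp_rw [h1]
  have me : Measurable (fun y : ℝ => ENNReal.ofReal (Real.exp (2 * y))) := by fun_prop
  rw [lintegral_prod3 (me.indicator measurableSet_Ioo) (measurable_const.indicator measurableSet_Ioo)
    (measurable_const.indicator measurableSet_Ioo)]
  rw [lintegral_indicator measurableSet_Ioo, lintegral_indicator measurableSet_Ioo, lintegral_indicator measurableSet_Ioo]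
  simp only [lintegral_const, Measure.restrict_apply MeasurableSet.univ, univ_inter, one_mul, Real.volume_Ioo]
  have hlog : Real.log (9 / 10) ≤ 0 := (Real.log_neg (by norm_num) (by norm_num)).le
  rw [restrict_Ioo_eq_restrict_Ioc, lintegral_Ioc_ofReal hlog (by fun_prop) (fun x _ => (Real.exp_pos _).le)]
  have hint : ∫ x in (Real.log (9 / 10))..0, Real.exp (2 * x) = 19 / 200 := by
    have hder : ∀ x ∈ uIcc (Real.log (9 / 10)) 0, HasDerivAt (fun x : ℝ => Real.exp (2 * x) / 2) (Real.exp (2 * x)) x := by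
      intro x _
      have h1 : HasDerivAt (fun x : ℝ => 2 * x) 2 x := by simpa using (hasDerivAt_id x).const_mul 2
      have h2 := h1.exp.div_const 2
      have e : Real.exp (2 * x) * 2 / 2 = Real.exp (2 * x) := by ring
      rw [e] at h2
      exact h2
    rw [intervalIntegral.integral_eq_sub_of_hasDerivAt hder (by apply Continuous.intervalIntegrable; fun_prop)]
    have e1 : Real.exp (2 * Real.log (9 / 10)) = (9 / 10) ^ 2 := by
      rw [show 2 * Real.log (9 / 10) = ((2:ℕ):ℝ) * Real.log (9 / 10) by norm_num, Real.exp_nat_mul, Real.exp_log (by norm_num)]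
    rw [e1]; norm_num
  rw [hint, ← ENNReal.ofReal_mul (by norm_num), ← ENNReal.ofReal_mul (by nlinarith)]
  congr 1
  unfold pA
  ring

lemma pA_pos : 0 < pA := by
  have := ph_pos; have := Real.pi_pos
  unfold pA; positivity

/-- the box is strictly larger than `A` -/
lemma lt_muLP_boxLP : ENNReal.ofReal pA < muLP boxLP := by
  have hh := ph_pos
  have hκ := pκ_pos
  have hpi := Real.pi_pos
  set O : Set X := {x | x.1.1 < Real.log (9 / 10) ∧ x.1.2 ∈ Ioo (-π) π ∧ |x.2| < ph * pκ} with hO
  have hOo : IsOpen O := by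
    have c1 : Continuous (fun x : X => x.1.1) := by fun_prop
    have c2 : Continuous (fun x : X => x.1.2) := by fun_prop
    have c3 : Continuous (fun x : X => |x.2|) := by fun_prop
    exact (isOpen_lt c1 continuous_const).inter ((isOpen_Ioo.preimage c2).inter (isOpen_lt c3 continuous_const))
  have hOne : O.Nonempty := by
    refine ⟨((Real.log (9 / 10) - 1, 0), 0), ?_, ?_, ?_⟩
    · simp
    · simp [hpi]
    · simp only [abs_zero]; positivity
  have hlog : Real.log (9 / 10) < 0 := Real.log_neg (by norm_num) (by norm_num)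
  have hOsub : O ⊆ boxLP := by
    rintro x ⟨h1, h2, h3⟩
    refine ⟨h1.trans hlog, h2, h3.trans_le ?_⟩
    have h4 : pκ ≤ tt pκ (Real.exp x.1.1) := by
      unfold tt
      apply le_min
      · have := pκ_le; linarith
      · have h5 : 0 ≤ (1 - pκ) * (Real.exp x.1.1 / (9 / 10)) := by
          have := pκ_le
          have := Real.exp_pos x.1.1
          have : 0 ≤ 1 - pκ := by linarith
          positivity
        linarith
    gcongr
  have hdisj : Disjoint U0 O := by
    rw [Set.disjoint_left]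
    rintro x ⟨h1, -⟩ ⟨h2, -⟩
    linarith
  have hpos : 0 < muLP O := by
    unfold muLP
    rw [setLIntegral_pos_iff (by fun_prop)]
    have hsupp : (Function.support fun x : X => ENNReal.ofReal (Real.exp (2 * x.1.1))) = univ := by
      ext x
      simp [Real.exp_pos]
    rw [hsupp, univ_inter]
    exact hOo.measure_pos volume hOne
  calc ENNReal.ofReal pA = muLP U0 := muLP_U0.symm
    _ < muLP U0 + muLP O := by
        apply ENNReal.lt_add_right
        · rw [muLP_U0]; exact ENNReal.ofReal_ne_top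
        · exact hpos.ne'
    _ = muLP (U0 ∪ O) := by
        unfold muLP
        rw [lintegral_union hOo.measurableSet hdisj]
    _ ≤ muLP boxLP := lintegral_mono_set (union_subset U0_subset_boxLP hOsub)

end Pool.Agent.H63.Star
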