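import Mathlib

open MeasureTheory Set Filter Topology
open scoped Real ENNReal NNReal ContDiff

namespace Pool.Agent.H63.Star

/-- Admissible test functions for the first Dirichlet eigenvalue of `Ω ⊆ ℝᴺ`: smooth functions, not identically
zero, whose support is a compact subset of `Ω`. -/
def IsTest {N : ℕ} (Ω : Set (EuclideanSpace ℝ (Fin N))) (v : EuclideanSpace ℝ (Fin N) → ℝ) : Prop :=
  ContDiff ℝ ∞ v ∧ HasCompactSupport v ∧ tsupport v ⊆ Ω ∧ v ≠ 0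

/-- The first eigenvalue of the Dirichlet Laplacian: the infimum of the Rayleigh quotient
`∫ |∇v|² / ∫ v²` over `C_c^∞(Ω) \ {0}` (equivalently, over `H¹₀(Ω) \ {0}`, the closure of `C_c^∞(Ω)`). -/
noncomputable def lambda1 {N : ℕ} (Ω : Set (EuclideanSpace ℝ (Fin N))) : ℝ≥0∞ :=
  ⨅ v : EuclideanSpace ℝ (Fin N) → ℝ, ⨅ _ : IsTest Ω v,
    (∫⁻ x, ENNReal.ofReal (‖fderiv ℝ v x‖ ^ 2)) / (∫⁻ x, ENNReal.ofReal (v x ^ 2))

/-- `Ω` is a solution of `min { λ₁(Ω) : Ω ⊆ D open, |Ω| = A }`. -/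
structure IsMinimizer {N : ℕ} (D : Set (EuclideanSpace ℝ (Fin N))) (A : ℝ) (Ω : Set (EuclideanSpace ℝ (Fin N))) : Prop where
  isOpen : IsOpen Ω
  subset : Ω ⊆ D
  volume_eq : volume Ω = ENNReal.ofReal A
  le : ∀ Ω' : Set (EuclideanSpace ℝ (Fin N)), IsOpen Ω' → Ω' ⊆ D → volume Ω' = ENNReal.ofReal A →
    lambda1 Ω ≤ lambda1 Ω'

/-- `S` is starshaped with respect to one of its points. -/
def StarShaped {N : ℕ} (S : Set (EuclideanSpace ℝ (Fin N))) : Prop :=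
  ∃ x₀ ∈ S, ∀ x ∈ S, segment ℝ x₀ x ⊆ S

end Pool.Agent.H63.Star
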