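import Mathlib
import Pool.Agent.H63.Star.LogPolar2

open MeasureTheory Set Filter Topology
open scoped Real ENNReal NNReal ContDiff

namespace Pool.Agent.H63.Star

abbrev E3 := EuclideanSpace ℝ (Fin 3)

noncomputable def toXl : E3 ≃ₗ[ℝ] X where
  toFun x := ((x 0, x 1), x 2)
  invFun p := !₂[p.1.1, p.1.2, p.2]
  map_add' x y := by simp
  map_smul' a x := by simp
  left_inv x := by
    ext i
    fin_cases i <;> simp
  right_inv p := by simp

noncomputable def toX : E3 ≃L[ℝ] X := toXl.toContinuousLinearEquiv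

lemma toX_apply (x : E3) : toX x = ((x 0, x 1), x 2) := rfl

lemma toX_symm_apply (p : X) : toX.symm p = !₂[p.1.1, p.1.2, p.2] := rfl

lemma toX_mp : MeasurePreserving toX volume volume := by
  have h1 : MeasurePreserving (@WithLp.ofLp 2 (Fin 3 → ℝ)) volume volume := PiLp.volume_preserving_ofLp (Fin 3)
  have h2 := volume_preserving_piFinSuccAbove (fun _ : Fin 3 => ℝ) 2
  have h3 : MeasurePreserving (Prod.map id (MeasurableEquiv.finTwoArrow (α := ℝ)) : ℝ × (Fin 2 → ℝ) → ℝ × (ℝ × ℝ)) volume volume := by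
    exact (MeasurePreserving.id volume).prod (volume_preserving_finTwoArrow ℝ)
  have h4 : MeasurePreserving (Prod.swap : ℝ × (ℝ × ℝ) → (ℝ × ℝ) × ℝ) volume volume := Measure.measurePreserving_swap
  have h5 := h4.comp (h3.comp (h2.comp h1))
  have h6 : (toX : E3 → X) = Prod.swap ∘ Prod.map id (MeasurableEquiv.finTwoArrow (α := ℝ)) ∘
      (MeasurableEquiv.piFinSuccAbove (fun _ : Fin 3 => ℝ) 2) ∘ WithLp.ofLp := by
    funext x
    rfl
  rw [h6]
  exact h5

lemma norm_clm_sq (L : E3 →L[ℝ] ℝ) :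
    ‖L‖ ^ 2 = L (EuclideanSpace.single 0 1) ^ 2 + L (EuclideanSpace.single 1 1) ^ 2 + L (EuclideanSpace.single 2 1) ^ 2 := by
  set y := (InnerProductSpace.toDual ℝ E3).symm L with hy
  have h1 : ‖L‖ = ‖y‖ := by rw [hy, LinearIsometryEquiv.norm_map]
  have h2 : ∀ u, L u = inner ℝ y u := by
    intro u; rw [hy, InnerProductSpace.toDual_symm_apply]
  rw [h1, EuclideanSpace.real_norm_sq_eq, Fin.sum_univ_three, h2, h2, h2]
  simp [EuclideanSpace.inner_single_right]

lemma gradSq_toX (v : E3 → ℝ) (x : E3) :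
    ‖fderiv ℝ v x‖ ^ 2 = gradSq (v ∘ toX.symm) (toX x) := by
  have h1 : fderiv ℝ (v ∘ toX.symm) (toX x) = (fderiv ℝ v x).comp (toX.symm : X →L[ℝ] E3) := by
    rw [ContinuousLinearEquiv.comp_right_fderiv]
    simp
  have e0 : toX.symm ((1, 0), 0) = EuclideanSpace.single 0 1 := by
    rw [toX_symm_apply]; ext i; fin_cases i <;> simp
  have e1 : toX.symm ((0, 1), 0) = EuclideanSpace.single 1 1 := by
    rw [toX_symm_apply]; ext i; fin_cases i <;> simp
  have e2 : toX.symm ((0, 0), 1) = EuclideanSpace.single 2 1 := by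
    rw [toX_symm_apply]; ext i; fin_cases i <;> simp
  rw [norm_clm_sq]
  unfold gradSq
  rw [h1]
  simp only [ContinuousLinearMap.comp_apply, ContinuousLinearEquiv.coe_coe]
  rw [e0, e1, e2]

end Pool.Agent.H63.Star
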