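import Mathlib
import Pool.Agent.H63.Star.BoxFacts
import Pool.Agent.H63.Star.Euclid
import Pool.Agent.H63.Star.Defs

open MeasureTheory Set Filter Topology
open scoped Real ENNReal NNReal ContDiff

namespace Pool.Agent.H63.Star

def TestX (Ω : Set X) (v : X → ℝ) : Prop :=
  ContDiff ℝ ∞ v ∧ HasCompactSupport v ∧ tsupport v ⊆ Ω ∧ v ≠ 0

noncomputable def lamX (Ω : Set X) : ℝ≥0∞ := ⨅ v : X → ℝ, ⨅ _ : TestX Ω v, enX v / massX v
noncomputable def lamLP (Ω : Set X) : ℝ≥0∞ := ⨅ v : X → ℝ, ⨅ _ : TestX Ω v, enLP v / massLP v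

lemma lamX_image {U : Set X} (hUs : U ⊆ strip) : lamX (Phi '' U) = lamLP U := by
  apply le_antisymm
  · refine le_iInf₂ fun V hV => ?_
    obtain ⟨h1, h2, h3, h4⟩ := hV
    obtain ⟨k1, k2, k3, k4, k5, k6⟩ := push h1 h2 (h3.trans hUs)
    rw [← k5, ← k6]
    refine iInf₂_le _ ⟨k1, k2, k3.trans (image_mono h3), ?_⟩
    intro h0
    apply h4
    ext x
    by_cases hx : x ∈ strip
    · have := congrFun h0 (Phi x)
      rw [indicator_of_mem (Psi_Phi hx).1] at this
      simp only [Function.comp, (Psi_Phi hx).2] at this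
      exact this
    · exact image_eq_zero_of_notMem_tsupport (fun h => hx (hUs (h3 h)))
  · refine le_iInf₂ fun v hv => ?_
    obtain ⟨h1, h2, h3, h4⟩ := hv
    have hUslit : Phi '' U ⊆ slitX := by
      rintro _ ⟨x, hx, rfl⟩; exact (Psi_Phi (hUs hx)).1
    obtain ⟨k1, k2, k3, k4, k5, k6⟩ := pull h1 h2 (h3.trans hUslit)
    rw [← k5, ← k6]
    refine iInf₂_le _ ⟨k1, k2, k3.trans ?_, ?_⟩
    · rintro _ ⟨y, hy, rfl⟩
      obtain ⟨x, hx, rfl⟩ := h3 hy
      rw [(Psi_Phi (hUs hx)).2]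
      exact hx
    intro h0
    apply h4
    ext x
    by_cases hx : x ∈ slitX
    · have := congrFun h0 (Psi x)
      rw [indicator_of_mem (Phi_Psi hx).1] at this
      simp only [Function.comp, (Phi_Psi hx).2] at this
      exact this
    · exact image_eq_zero_of_notMem_tsupport (fun h => hx (hUslit (h3 h)))

lemma energy_toX {v : E3 → ℝ} (hv : ContDiff ℝ ∞ v) :
    (∫⁻ x, ENNReal.ofReal (‖fderiv ℝ v x‖ ^ 2)) = enX (v ∘ toX.symm) ∧
    (∫⁻ x, ENNReal.ofReal (v x ^ 2)) = massX (v ∘ toX.symm) := by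
  have hc : ContDiff ℝ ∞ (v ∘ toX.symm) := hv.comp toX.symm.contDiff
  constructor
  · unfold enX
    rw [← toX_mp.lintegral_comp (measurable_gradSq hc).ennreal_ofReal]
    congr 1; ext x
    rw [gradSq_toX]
  · unfold massX
    rw [← toX_mp.lintegral_comp ((hc.continuous.measurable.pow_const 2).ennreal_ofReal)]
    congr 1; ext x
    simp

lemma lambda1_preimage (Ω : Set X) : lambda1 (toX ⁻¹' Ω) = lamX Ω := by
  apply le_antisymm
  · refine le_iInf₂ fun V hV => ?_
    obtain ⟨h1, h2, h3, h4⟩ := hV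
    have hc : ContDiff ℝ ∞ (V ∘ toX) := h1.comp toX.contDiff
    obtain ⟨k1, k2⟩ := energy_toX hc
    have e : (V ∘ toX) ∘ toX.symm = V := by ext x; simp
    rw [e] at k1 k2
    rw [← k1, ← k2]
    refine iInf₂_le _ ⟨hc, h2.comp_homeomorph toX.toHomeomorph, ?_, ?_⟩
    · intro x hx
      apply h3
      have := tsupport_comp_subset_preimage V toX.continuous hx
      exact this
    · intro h0
      apply h4
      rw [← e, h0]; rfl
  · refine le_iInf₂ fun v hv => ?_
    obtain ⟨h1, h2, h3, h4⟩ := hv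
    obtain ⟨k1, k2⟩ := energy_toX h1
    rw [k1, k2]
    refine iInf₂_le _ ⟨h1.comp toX.symm.contDiff, h2.comp_homeomorph toX.symm.toHomeomorph, ?_, ?_⟩
    · intro x hx
      have := h3 (tsupport_comp_subset_preimage v toX.symm.continuous hx)
      simpa using this
    · intro h0
      apply h4
      have e : (v ∘ toX.symm) ∘ toX = v := by ext x; simp
      rw [← e, h0]; rfl

lemma massX_pos {v : X → ℝ} (hv : ContDiff ℝ ∞ v) (h0 : v ≠ 0) : massX v ≠ 0 := by
  intro h
  unfold massX at h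
  rw [lintegral_eq_zero_iff (by have := hv.continuous; fun_prop)] at h
  apply h0
  have hae : v =ᵐ[volume] 0 := by
    filter_upwards [h] with x hx
    simp only [Pi.zero_apply, ENNReal.ofReal_eq_zero] at hx
    have := sq_nonneg (v x)
    exact pow_eq_zero_iff two_ne_zero |>.1 (le_antisymm hx this)
  exact (Continuous.ae_eq_iff_eq volume hv.continuous continuous_zero).1 hae

lemma massX_ne_top {v : X → ℝ} (hv : ContDiff ℝ ∞ v) (hvs : HasCompactSupport v) : massX v ≠ ⊤ := by
  have s : HasCompactSupport (fun x => v x ^ 2) := hvs.comp_left (g := fun y => y ^ 2) (by simp)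
  have c : Continuous (fun x => v x ^ 2) := hv.continuous.pow 2
  have i := c.integrable_of_hasCompactSupport (μ := volume) s
  unfold massX
  rw [← ofReal_integral_eq_lintegral_ofReal i (Eventually.of_forall fun _ => sq_nonneg _)]
  exact ENNReal.ofReal_ne_top

theorem gap_lam {Ω S : Set X} (hΩ : Ω ⊆ boxX) (hS : IsOpen S) {q : X} (hst : StarConvex ℝ q S)
    (hae : S =ᵐ[volume] Ω) (hpos : volume Ω ≠ 0) (hvol : volume Ω ≤ ENNReal.ofReal (2 * pA)) :
    ENNReal.ofReal ((π / (2 * ph)) ^ 2 + (100 * π ^ 2 + 3 / 100)) ≤ lamX Ω := by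
  refine le_iInf₂ fun v hv => ?_
  obtain ⟨h1, h2, h3, h4⟩ := hv
  have key := gapX hΩ hS hst hae hpos hvol (h1.of_le (by simp)) h2 h3
  rw [ENNReal.le_div_iff_mul_le (Or.inl (massX_pos h1 h4)) (Or.inl (massX_ne_top h1 h2))]
  exact key

theorem comp_lam : lamX (Phi '' U0) ≤ ENNReal.ofReal ((π / (2 * ph)) ^ 2 + 100 * π ^ 2 + 1 / 100) := by
  have hU0 : U0 ⊆ strip := U0_subset_boxLP.trans boxLP_subset_strip
  rw [lamX_image hU0]
  obtain ⟨V, h1, h2, h3, h4, h5, h6⟩ := competitor (ε := 1 / 100) (by norm_num)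
  have hne : V ≠ 0 := by
    rintro rfl
    apply h4
    unfold massLP
    simp
  refine (iInf₂_le V ⟨h1, h2, h3, hne⟩).trans ?_
  exact ENNReal.div_le_of_le_mul h6

/-- the box in `ℝ³` -/
def box3 : Set E3 := toX ⁻¹' boxX

lemma volume_preimage_toX (s : Set X) : volume (toX ⁻¹' s) = volume s := by
  have h : MeasurePreserving toX.toHomeomorph.toMeasurableEquiv volume volume := toX_mp
  exact h.measure_preimage_equiv s

theorem strict_gap {Ω : Set E3} (hΩ : Ω ⊆ box3) (hpos : volume Ω ≠ 0) (hvol : volume Ω ≤ ENNReal.ofReal (2 * pA))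
    {S : Set E3} (hS : IsOpen S) (hst : StarShaped S) (hae : S =ᵐ[volume] Ω) :
    lambda1 (toX ⁻¹' (Phi '' U0)) < lambda1 Ω := by
  obtain ⟨x₀, hx₀, hx⟩ := hst
  have hst' : StarConvex ℝ x₀ S := starConvex_iff_segment_subset.2 hx
  have e : ∀ T : Set E3, toX ⁻¹' (toX '' T) = T := fun T => preimage_image_eq T toX.injective
  have hΩ' : toX '' Ω ⊆ boxX := by
    rintro _ ⟨y, hy, rfl⟩; exact hΩ hy
  have hS' : IsOpen (toX '' S) := toX.toHomeomorph.isOpenMap S hS
  have hst2 : StarConvex ℝ (toX x₀) (toX '' S) := hst'.linear_image (toX : E3 →ₗ[ℝ] X)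
  have hae' : (toX '' S : Set X) =ᵐ[volume] (toX '' Ω : Set X) := by
    have h : MeasurePreserving toX.toHomeomorph.toMeasurableEquiv volume volume := toX_mp
    have h2 : MeasurePreserving toX.symm volume volume := h.symm
    have h3 : ∀ T : Set E3, (toX '' T : Set X) = toX.symm ⁻¹' T := fun T => by
      ext x
      constructor
      · rintro ⟨y, hy, rfl⟩; simpa using hy
      · intro hx; exact ⟨toX.symm x, hx, by simp⟩
    rw [h3, h3]
    exact h2.quasiMeasurePreserving.preimage_ae_eq hae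
  have h1 := gap_lam hΩ' hS' hst2 hae' (by rw [← volume_preimage_toX, e]; exact hpos)
    (by rw [← volume_preimage_toX, e]; exact hvol)
  rw [← lambda1_preimage, e] at h1
  have hpi := Real.pi_pos
  rw [lambda1_preimage]
  refine lt_of_le_of_lt comp_lam (lt_of_lt_of_le ?_ h1)
  rw [ENNReal.ofReal_lt_ofReal_iff (by positivity)]
  linarith

end Pool.Agent.H63.Star
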